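import Pool.Agent.GMF.Kern
import Pool.Agent.NLG.Count

/-!
GMF-AuxM: the auxiliary polynomials (Siegel's lemma), all monomials of weight ≥ lam n, b < lam.

PLAN.  Copy NLG/AuxG.lean with q = 2, r = 1 (drop k, ε, cf) and the new kernel: the matrix entry of the row
(β, s) at (i, b, a) is for i = 1: 8^a 4^b gk (s-a) hk (β-b) if b ≤ β, a ≤ s, else 0; for i = 0: 8^s 4^β if
(b, a) = (β, s), else 0.  Absolute value ≤ 2 · 8^s 4^β ≤ 16 ^ ((lam+eta) n) (abs_gk_le, abs_hk_le,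
s + β ≤ s + n β < (lam+eta) n; 2 ≤ 2^((lam+eta)n)).  Counting: AuxG_countU, AuxG_countE (private, copy) with
q = 2, r = 1.  The bundle of conditions is the one of auxG, the last one is VanM n ((lam+eta) n) P.
For s + n β < lam n the sum is 0 as all coefficients of weight a + n b < lam n are 0.
-/

namespace Pool.Agent.GMF

open Finset Polynomial Pool.Agent.NLG

attribute [local instance] Matrix.seminormedAddCommGroup

private theorem AuxM_siegel {α β : Type} [Fintype α] [Fintype β] (A : Matrix α β ℤ) (lam : ℕ)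
    (hlt : Fintype.card α < Fintype.card β) (h0 : 0 < Fintype.card α)
    (h : (Fintype.card α : ℝ) ≤ lam * ((Fintype.card β : ℝ) - Fintype.card α)) (M : ℝ) (hM : 1 ≤ M)
    (hA : ∀ i j, |(A i j : ℝ)| ≤ M) :
    ∃ t : β → ℤ, t ≠ 0 ∧ A.mulVec t = 0 ∧ ∀ j, |(t j : ℝ)| ≤ ((Fintype.card β : ℝ) * M) ^ lam := by
  obtain ⟨t, ht0, ht1, ht2⟩ := Int.Matrix.exists_ne_zero_int_vec_norm_le A hlt h0
  refine ⟨t, ht0, ht1, fun j => ?_⟩
  have hβ : (1 : ℝ) ≤ Fintype.card β := by exact_mod_cast (h0.trans hlt)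
  have hAn : ‖A‖ ≤ M := by
    rw [Matrix.norm_le_iff (by linarith)]
    intro i j
    rw [Int.norm_eq_abs]
    exact hA i j
  have hmax : max 1 ‖A‖ ≤ M := max_le hM hAn
  have hb1 : (1 : ℝ) ≤ Fintype.card β * max 1 ‖A‖ := by nlinarith [le_max_left (1 : ℝ) ‖A‖]
  have hlt' : (Fintype.card α : ℝ) < Fintype.card β := by exact_mod_cast hlt
  have hexp : (Fintype.card α : ℝ) / (Fintype.card β - Fintype.card α) ≤ lam := by
    rw [div_le_iff₀ (by linarith)]
    exact h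
  have h4 := norm_le_pi_norm t j
  rw [Int.norm_eq_abs] at h4
  calc |(t j : ℝ)| ≤ ‖t‖ := h4
    _ ≤ _ := ht2
    _ ≤ ((Fintype.card β : ℝ) * max 1 ‖A‖) ^ (lam : ℝ) := Real.rpow_le_rpow_of_exponent_le hb1 hexp
    _ = ((Fintype.card β : ℝ) * max 1 ‖A‖) ^ lam := Real.rpow_natCast _ _
    _ ≤ _ := pow_le_pow_left₀ (by linarith) (mul_le_mul_of_nonneg_left hmax (by linarith)) _

/-- the unknowns -/
private noncomputable def AuxM_cs (q n lam A : ℕ) (δ : ℝ) : Finset ((_ : ℕ) × (ℕ × ℕ)) :=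
  (range q).sigma fun i => (range lam ×ˢ range A).filter
    fun p : ℕ × ℕ => lam * n ≤ p.2 + n * p.1 ∧ (p.2 : ℝ) + (n : ℝ) * p.1 ≤ (δ - (i : ℝ) / q) * n

/-- the equations -/
private def AuxM_rs (r n lam eta : ℕ) : Finset ((_ : Fin r) × (ℕ × ℕ)) :=
  (univ : Finset (Fin r)).sigma fun _ => (range (lam + eta) ×ˢ range ((lam + eta) * n)).filter
    fun p : ℕ × ℕ => p.2 + n * p.1 < (lam + eta) * n ∧ lam * n ≤ p.2 + n * p.1

private noncomputable def AuxM_f (v : (_ : Fin 1) × (ℕ × ℕ)) (u : (_ : ℕ) × (ℕ × ℕ)) : ℤ :=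
  if u.1 = 0 then (if u.2 = v.2 then 8 ^ v.2.2 * 4 ^ v.2.1 else 0)
  else if u.2.1 ≤ v.2.1 ∧ u.2.2 ≤ v.2.2 then
    8 ^ u.2.2 * 4 ^ u.2.1 * gk (v.2.2 - u.2.2) * hk (v.2.1 - u.2.1) else 0

private theorem AuxM_le (v : (_ : Fin 1) × (ℕ × ℕ)) (u : (_ : ℕ) × (ℕ × ℕ)) :
    |AuxM_f v u| ≤ 2 * 8 ^ v.2.2 * 4 ^ v.2.1 := by
  have hp : (0 : ℤ) < 8 ^ v.2.2 * 4 ^ v.2.1 := by positivity
  unfold AuxM_f
  split_ifs with h1 h2 h3
  · rw [abs_of_pos hp]
    linarith
  · rw [abs_zero]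
    linarith
  · have h4 := abs_gk_le (v.2.2 - u.2.2)
    have h5 := abs_hk_le (v.2.1 - u.2.1)
    rw [abs_mul, abs_mul, abs_of_pos (show (0 : ℤ) < 8 ^ u.2.2 * 4 ^ u.2.1 by positivity)]
    calc (8 : ℤ) ^ u.2.2 * 4 ^ u.2.1 * |gk (v.2.2 - u.2.2)| * |hk (v.2.1 - u.2.1)|
        ≤ 8 ^ u.2.2 * 4 ^ u.2.1 * (2 * 8 ^ (v.2.2 - u.2.2)) * 4 ^ (v.2.1 - u.2.1) := by
          refine mul_le_mul (mul_le_mul_of_nonneg_left h4 (by positivity)) h5 (abs_nonneg _)
            (by positivity)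
      _ = 2 * (8 ^ u.2.2 * 8 ^ (v.2.2 - u.2.2)) * (4 ^ u.2.1 * 4 ^ (v.2.1 - u.2.1)) := by ring
      _ = 2 * 8 ^ v.2.2 * 4 ^ v.2.1 := by
          rw [← pow_add, ← pow_add, Nat.add_sub_cancel' h3.1, Nat.add_sub_cancel' h3.2]
  · rw [abs_zero]
    linarith

private theorem AuxM_sum {n lam A : ℕ} {δ : ℝ}
    (T : ((_ : ℕ) × (ℕ × ℕ)) → ℤ) (hT : ∀ u, u ∉ AuxM_cs 2 n lam A δ → T u = 0)
    (P : ℕ → ℕ → ℤ[X]) (hP : ∀ i b a, (P i b).coeff a = T ⟨i, (b, a)⟩) (k : Fin 1) (β s : ℕ) :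
    ∑ u ∈ AuxM_cs 2 n lam A δ, AuxM_f ⟨k, (β, s)⟩ u * T u =
      (∑ b ∈ range (β + 1), ∑ a ∈ range (s + 1),
        (P 1 b).coeff a * 8 ^ a * 4 ^ b * gk (s - a) * hk (β - b)) +
      (P 0 β).coeff s * 8 ^ s * 4 ^ β := by
  have h1 : ∑ u ∈ AuxM_cs 2 n lam A δ, AuxM_f ⟨k, (β, s)⟩ u * T u =
      ∑ u ∈ (range 2).sigma fun _ => range (β + 1) ×ˢ range (s + 1),
        AuxM_f ⟨k, (β, s)⟩ u * T u := by
    refine Finset.sum_congr_of_eq_on_inter (fun u hu1 hu => ?_) (fun u _ hu => ?_) fun u _ _ => rfl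
    · have hn : ¬ (u.2.1 ≤ β ∧ u.2.2 ≤ s) := by
        rintro ⟨h2, h3⟩
        apply hu
        unfold AuxM_cs at hu1
        rw [mem_sigma] at hu1
        rw [mem_sigma, mem_product]
        exact ⟨hu1.1, mem_range.2 (Nat.lt_succ_of_le h2), mem_range.2 (Nat.lt_succ_of_le h3)⟩
      unfold AuxM_f
      split_ifs with h2 h3
      · exfalso
        apply hn
        have h5 : u.2 = (β, s) := h3
        rw [h5]
        exact ⟨le_refl _, le_refl _⟩
      · exact zero_mul _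
      · exact zero_mul _
    · rw [hT u hu, mul_zero]
  rw [h1, Finset.sum_sigma, Finset.sum_range_succ, Finset.sum_range_one, add_comm]
  congr 1
  · rw [Finset.sum_product]
    refine Finset.sum_congr rfl fun b hb => ?_
    refine Finset.sum_congr rfl fun a ha => ?_
    have h2 := Nat.lt_succ_iff.1 (mem_range.1 hb)
    have h3 := Nat.lt_succ_iff.1 (mem_range.1 ha)
    unfold AuxM_f
    rw [if_neg one_ne_zero, if_pos ⟨h2, h3⟩, hP]
    ring
  · rw [Finset.sum_eq_single_of_mem ((β, s) : ℕ × ℕ)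
      (mem_product.2 ⟨mem_range.2 (Nat.lt_succ_self β), mem_range.2 (Nat.lt_succ_self s)⟩)]
    · unfold AuxM_f
      rw [if_pos rfl, if_pos rfl, hP]
      ring
    · intro c _ hc
      unfold AuxM_f
      rw [if_pos rfl, if_neg hc, zero_mul]

private theorem AuxM_cnt1 (L A : ℕ) (Z : ℝ) (hA : Z < A) :
    Z - L ≤ ((((range A).filter fun a : ℕ => L ≤ a ∧ (a : ℝ) ≤ Z).card : ℕ) : ℝ) := by
  rcases lt_or_ge Z L with h | h
  · have h1 : (0 : ℝ) ≤ ((((range A).filter fun a : ℕ => L ≤ a ∧ (a : ℝ) ≤ Z).card : ℕ) : ℝ) :=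
      Nat.cast_nonneg _
    linarith
  · have hZ : 0 ≤ Z := le_trans (Nat.cast_nonneg L) h
    have h1 : Icc L ⌊Z⌋₊ ⊆ (range A).filter fun a : ℕ => L ≤ a ∧ (a : ℝ) ≤ Z := by
      intro a ha
      rw [mem_Icc] at ha
      have h2 : (a : ℝ) ≤ Z := le_trans (by exact_mod_cast ha.2) (Nat.floor_le hZ)
      rw [mem_filter, mem_range]
      refine ⟨?_, ha.1, h2⟩
      have h3 : (a : ℝ) < A := lt_of_le_of_lt h2 hA
      exact_mod_cast h3
    have h2 := card_le_card h1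
    rw [Nat.card_Icc] at h2
    have h3 : L ≤ ⌊Z⌋₊ := Nat.le_floor h
    have h4 : ((⌊Z⌋₊ + 1 - L : ℕ) : ℝ) = (⌊Z⌋₊ : ℝ) + 1 - L := by
      rw [Nat.cast_sub (by omega)]
      push_cast
      ring
    have h5 : ((⌊Z⌋₊ + 1 - L : ℕ) : ℝ) ≤
        ((((range A).filter fun a : ℕ => L ≤ a ∧ (a : ℝ) ≤ Z).card : ℕ) : ℝ) := by exact_mod_cast h2
    have h6 := Nat.lt_floor_add_one Z
    linarith

private theorem AuxM_cnt2 (n lam A : ℕ) (Z : ℝ) (hA : Z < A) :
    (lam : ℝ) * (Z - lam * n) ≤ ((((range lam ×ˢ range A).filter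
      fun p : ℕ × ℕ => lam * n ≤ p.2 + n * p.1 ∧ (p.2 : ℝ) + (n : ℝ) * p.1 ≤ Z).card : ℕ) : ℝ) := by
  have hcard : ((range lam ×ˢ range A).filter
      fun p : ℕ × ℕ => lam * n ≤ p.2 + n * p.1 ∧ (p.2 : ℝ) + (n : ℝ) * p.1 ≤ Z).card =
      ∑ b ∈ range lam, ((range A).filter fun a : ℕ =>
        lam * n ≤ a + n * b ∧ (a : ℝ) + (n : ℝ) * b ≤ Z).card := by
    rw [card_filter, sum_product]
    refine sum_congr rfl fun b _ => ?_
    rw [card_filter]
  rw [hcard, Nat.cast_sum]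
  have hterm : ∀ b ∈ range lam, Z - lam * n ≤ ((((range A).filter fun a : ℕ =>
        lam * n ≤ a + n * b ∧ (a : ℝ) + (n : ℝ) * b ≤ Z).card : ℕ) : ℝ) := by
    intro b hb
    have hb1 := mem_range.1 hb
    have h1 := AuxM_cnt1 ((lam - b) * n) A (Z - n * b) (by
      have : (0 : ℝ) ≤ (n : ℝ) * b := by positivity
      linarith)
    have h2 : ((range A).filter fun a : ℕ => (lam - b) * n ≤ a ∧ (a : ℝ) ≤ Z - n * b) =
        (range A).filter fun a : ℕ => lam * n ≤ a + n * b ∧ (a : ℝ) + (n : ℝ) * b ≤ Z := by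
      refine filter_congr fun a _ => ?_
      have h3 : lam * n = (lam - b) * n + n * b := by
        rw [mul_comm n b, ← add_mul, Nat.sub_add_cancel hb1.le]
      constructor
      · rintro ⟨h4, h5⟩
        exact ⟨by omega, by linarith⟩
      · rintro ⟨h4, h5⟩
        exact ⟨by omega, by linarith⟩
    rw [h2] at h1
    refine le_trans (le_of_eq ?_) h1
    rw [Nat.cast_mul, Nat.cast_sub hb1.le]
    ring
  refine le_trans (le_of_eq ?_) (sum_le_sum hterm)
  rw [sum_const, card_range, nsmul_eq_mul]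

private theorem AuxM_gauss (q : ℕ) : ∑ i ∈ range q, (i : ℝ) = (q : ℝ) * (q - 1) / 2 := by
  induction q with
  | zero => simp
  | succ m ih =>
    rw [sum_range_succ, ih]
    push_cast
    ring

private theorem AuxM_countU {q n lam A : ℕ} {δ : ℝ} (hq : 2 ≤ q) (hA : δ * n < A) :
    (lam : ℝ) * n * (q * (δ - lam) - ((q : ℝ) - 1) / 2) ≤ ((AuxM_cs q n lam A δ).card : ℝ) := by
  have hq0 : (0 : ℝ) < q := by
    have : 0 < q := by omega
    exact_mod_cast this
  unfold AuxM_cs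
  rw [Finset.card_sigma, Nat.cast_sum]
  have hterm : ∀ i ∈ range q, (lam : ℝ) * n * (δ - lam - (i : ℝ) / q) ≤
      ((((range lam ×ˢ range A).filter fun p : ℕ × ℕ => lam * n ≤ p.2 + n * p.1 ∧
        (p.2 : ℝ) + (n : ℝ) * p.1 ≤ (δ - (i : ℝ) / q) * n).card : ℕ) : ℝ) := by
    intro i _
    have h1 := AuxM_cnt2 n lam A ((δ - (i : ℝ) / q) * n) (by
      have h2 : (0 : ℝ) ≤ (i : ℝ) / q * n := by positivity
      nlinarith)
    refine le_trans (le_of_eq ?_) h1
    ring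
  refine le_trans (le_of_eq ?_) (Finset.sum_le_sum hterm)
  rw [← Finset.mul_sum, Finset.sum_sub_distrib, Finset.sum_const, card_range, nsmul_eq_mul,
    ← Finset.sum_div, AuxM_gauss]
  field_simp

private theorem AuxM_countE {r n lam eta : ℕ} (hn : 1 ≤ n) :
    ((AuxM_rs r n lam eta).card : ℝ) = (r : ℝ) * n * (eta * lam + eta * (eta + 1) / 2) := by
  unfold AuxM_rs
  rw [Finset.card_sigma, Finset.sum_const, card_univ, Fintype.card_fin, smul_eq_mul]
  have h1 := card_rows (lam := lam + eta) hn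
  have h2 := card_rows (lam := lam) hn
  have h3 : ((range (lam + eta) ×ˢ range ((lam + eta) * n)).filter
      fun p : ℕ × ℕ => p.2 + n * p.1 < (lam + eta) * n).card =
      ((range (lam + eta) ×ˢ range ((lam + eta) * n)).filter
        fun p : ℕ × ℕ => p.2 + n * p.1 < (lam + eta) * n ∧ lam * n ≤ p.2 + n * p.1).card +
      ((range lam ×ˢ range (lam * n)).filter
        fun p : ℕ × ℕ => p.2 + n * p.1 < lam * n).card := by
    rw [← card_union_of_disjoint]
    · congr 1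
      ext p
      rw [mem_union, mem_filter, mem_filter, mem_filter, mem_product, mem_product, mem_range,
        mem_range, mem_range, mem_range]
      have h5 : (lam + eta) * n = lam * n + eta * n := by ring
      constructor
      · rintro ⟨⟨h6, h7⟩, h8⟩
        by_cases h9 : lam * n ≤ p.2 + n * p.1
        · exact Or.inl ⟨⟨h6, h7⟩, h8, h9⟩
        · refine Or.inr ⟨⟨?_, ?_⟩, by omega⟩
          · by_contra hlt
            have h10 : lam * n ≤ n * p.1 := by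
              rw [mul_comm]
              exact Nat.mul_le_mul_left n (not_lt.1 hlt)
            omega
          · have : p.2 ≤ p.2 + n * p.1 := Nat.le_add_right _ _
            omega
      · rintro (⟨⟨h6, h7⟩, h8, -⟩ | ⟨⟨h6, h7⟩, h8⟩)
        · exact ⟨⟨h6, h7⟩, h8⟩
        · refine ⟨⟨by omega, ?_⟩, ?_⟩
          · rw [h5]
            omega
          · rw [h5]
            omega
    · rw [disjoint_left]
      intro p hp hp'
      rw [mem_filter] at hp hp'
      have := hp.2.2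
      have := hp'.2
      omega
  rw [h3] at h1
  have h4 : ((2 * (((range (lam + eta) ×ˢ range ((lam + eta) * n)).filter
        fun p : ℕ × ℕ => p.2 + n * p.1 < (lam + eta) * n ∧ lam * n ≤ p.2 + n * p.1).card +
      ((range lam ×ˢ range (lam * n)).filter
        fun p : ℕ × ℕ => p.2 + n * p.1 < lam * n).card) : ℕ) : ℝ) =
      ((n * ((lam + eta) * (lam + eta + 1)) : ℕ) : ℝ) := by rw [h1]
  have h5 : ((2 * ((range lam ×ˢ range (lam * n)).filter
        fun p : ℕ × ℕ => p.2 + n * p.1 < lam * n).card : ℕ) : ℝ) =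
      ((n * (lam * (lam + 1)) : ℕ) : ℝ) := by rw [h2]
  push_cast at h4 h5
  rw [Nat.cast_mul]
  linear_combination ((r : ℝ) / 2) * (h4 - h5)

theorem auxM {lam eta : ℕ} {δ : ℝ} (he : 1 ≤ eta) (hl : eta * (eta + 1) ≤ lam)
    (hδ : ((eta : ℝ) * lam + eta * (eta + 1) / 2) + lam / 2 ≤
      lam * (2 * (δ - lam) - ((2 : ℝ) - 1) / 2)) : ∃ C : ℝ, 1 ≤ C ∧ ∀ n : ℕ, 1 ≤ n →
    ∃ P : ℕ → ℕ → ℤ[X], (∃ i b, i < 2 ∧ b < lam ∧ P i b ≠ 0) ∧
      (∀ i b a, (P i b).coeff a ≠ 0 → i < 2 ∧ b < lam ∧ lam * n ≤ a + n * b ∧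
        (a : ℝ) + (n : ℝ) * b + (i : ℝ) * n / (2 : ℕ) ≤ δ * n) ∧
      (∀ i b a, |((P i b).coeff a : ℝ)| ≤ C ^ n) ∧ VanM n ((lam + eta) * n) P := by
  have he1 : (1 : ℝ) ≤ eta := by exact_mod_cast he
  have hlR : (eta : ℝ) * (eta + 1) ≤ lam := by exact_mod_cast hl
  have hl1 : (1 : ℝ) ≤ lam := by nlinarith
  have hδ0 : 0 ≤ δ := by
    by_contra hneg
    push Not at hneg
    have h1 : (2 : ℝ) * (δ - lam) - ((2 : ℝ) - 1) / 2 < 0 := by nlinarith
    have h2 : (lam : ℝ) * (2 * (δ - lam) - ((2 : ℝ) - 1) / 2) < 0 :=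
      mul_neg_of_pos_of_neg (by linarith) h1
    have h3 : 0 ≤ (eta : ℝ) * lam + eta * (eta + 1) / 2 := by positivity
    linarith
  obtain ⟨C₁, hC₁⟩ : ∃ C₁ : ℝ, C₁ = 2 * (lam * (δ + 1)) := ⟨_, rfl⟩
  have hC₁1 : 1 ≤ C₁ := by
    rw [hC₁]
    have h1 : 1 ≤ (lam : ℝ) * (δ + 1) := by nlinarith
    nlinarith
  obtain ⟨G, hG⟩ : ∃ G : ℕ, G = 2 * (eta + 1) := ⟨_, rfl⟩
  refine ⟨(2 * C₁ * (16 : ℝ) ^ (lam + eta)) ^ G, ?_, fun n hn => ?_⟩
  · refine one_le_pow₀ ?_
    have h1 : (1 : ℝ) ≤ (16 : ℝ) ^ (lam + eta) := one_le_pow₀ (by norm_num)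
    nlinarith
  · obtain ⟨A, hA⟩ : ∃ A : ℕ, A = ⌊δ * n⌋₊ + 1 := ⟨_, rfl⟩
    have hn1 : (1 : ℝ) ≤ n := by exact_mod_cast hn
    have hA1 : δ * n < A := by
      rw [hA]
      push_cast
      exact Nat.lt_floor_add_one _
    have hA2 : (A : ℝ) ≤ (δ + 1) * n := by
      rw [hA]
      push_cast
      have := Nat.floor_le (show (0 : ℝ) ≤ δ * n by positivity)
      nlinarith
    have hE := AuxM_countE (r := 1) (lam := lam) (eta := eta) hn
    have hU := AuxM_countU (q := 2) (lam := lam) (le_refl 2) hA1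
    obtain ⟨c, hc⟩ : ∃ c, c = AuxM_cs 2 n lam A δ := ⟨_, rfl⟩
    obtain ⟨rs, hrs⟩ : ∃ rs, rs = AuxM_rs 1 n lam eta := ⟨_, rfl⟩
    rw [← hc] at hU
    rw [← hrs] at hE
    push_cast at hU hE
    rw [one_mul] at hE
    have hEpos : 0 < (rs.card : ℝ) := by
      rw [hE]
      positivity
    have hdiff : (lam : ℝ) * n / 2 ≤ (c.card : ℝ) - rs.card := by
      have h1 := mul_le_mul_of_nonneg_right hδ (show (0 : ℝ) ≤ n by linarith)
      rw [hE]
      nlinarith
    have hlt : rs.card < c.card := by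
      have h1 : 0 < (lam : ℝ) * n / 2 := by positivity
      have : (rs.card : ℝ) < c.card := by linarith
      exact_mod_cast this
    have hexp : (rs.card : ℝ) ≤ G * ((c.card : ℝ) - rs.card) := by
      have h1 := mul_le_mul_of_nonneg_left hdiff (show (0 : ℝ) ≤ G from Nat.cast_nonneg G)
      refine le_trans ?_ h1
      rw [hE, hG]
      push_cast
      have h2 : (eta : ℝ) * lam + eta * (eta + 1) / 2 ≤ (eta + 1) * lam := by nlinarith
      have h3 := mul_le_mul_of_nonneg_left h2 (show (0 : ℝ) ≤ n by positivity)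
      nlinarith
    have hQ1 : (1 : ℝ) ≤ (16 : ℝ) ^ ((lam + eta) * n) := one_le_pow₀ (by norm_num)
    obtain ⟨t, ht0, ht1, ht2⟩ := AuxM_siegel (α := {v // v ∈ rs}) (β := {u // u ∈ c})
      (Matrix.of fun v u => AuxM_f v.1 u.1) G
      (by rw [Fintype.card_coe, Fintype.card_coe]; exact hlt)
      (by rw [Fintype.card_coe]; exact_mod_cast hEpos)
      (by rw [Fintype.card_coe, Fintype.card_coe]; exact hexp) ((16 : ℝ) ^ ((lam + eta) * n)) hQ1
      (fun v u => by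
        have hv : v.1 ∈ AuxM_rs 1 n lam eta := by
          rw [← hrs]
          exact v.2
        unfold AuxM_rs at hv
        rw [mem_sigma, mem_filter] at hv
        have h1 := AuxM_le v.1 u.1
        have h2 : ((|AuxM_f v.1 u.1| : ℤ) : ℝ) ≤
          ((2 * 8 ^ v.1.2.2 * 4 ^ v.1.2.1 : ℤ) : ℝ) := by exact_mod_cast h1
        rw [Int.cast_abs] at h2
        refine h2.trans ?_
        push_cast
        have h3 := hv.2.2.1
        have h4 : v.1.2.1 ≤ n * v.1.2.1 := Nat.le_mul_of_pos_left _ hn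
        have h5 : (2 : ℝ) * 8 ^ v.1.2.2 * 4 ^ v.1.2.1 ≤ 16 * 16 ^ v.1.2.2 * 16 ^ v.1.2.1 := by
          have h6 : (8 : ℝ) ^ v.1.2.2 ≤ 16 ^ v.1.2.2 := pow_le_pow_left₀ (by norm_num) (by norm_num) _
          have h7 : (4 : ℝ) ^ v.1.2.1 ≤ 16 ^ v.1.2.1 := pow_le_pow_left₀ (by norm_num) (by norm_num) _
          exact mul_le_mul (mul_le_mul (by norm_num) h6 (by positivity) (by norm_num)) h7
            (by positivity) (by positivity)
        refine h5.trans ?_
        rw [← pow_succ', ← pow_add]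
        exact pow_le_pow_right₀ (by norm_num) (by omega))
    obtain ⟨T, hT⟩ : ∃ T : ((_ : ℕ) × (ℕ × ℕ)) → ℤ,
        T = fun u => if h : u ∈ c then t ⟨u, h⟩ else 0 := ⟨_, rfl⟩
    have hT1 : ∀ u (h : u ∈ c), T u = t ⟨u, h⟩ := fun u h => by rw [hT]; exact dif_pos h
    have hT0 : ∀ u, u ∉ c → T u = 0 := fun u h => by rw [hT]; exact dif_neg h
    have hk : ∀ v ∈ rs, ∑ u ∈ c, AuxM_f v u * T u = 0 := by
      intro v hv
      have h1 := congrFun ht1 ⟨v, hv⟩
      rw [← Finset.sum_coe_sort c fun u => AuxM_f v u * T u]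
      refine Eq.trans ?_ h1
      show _ = ∑ u : {u // u ∈ c}, _ * t u
      exact Finset.sum_congr rfl fun u _ => by rw [hT1 u.1 u.2]; rfl
    have hmem : ∀ i b a, T ⟨i, (b, a)⟩ ≠ 0 → i < 2 ∧ b < lam ∧ a < A ∧ lam * n ≤ a + n * b ∧
        (a : ℝ) + (n : ℝ) * b ≤ (δ - (i : ℝ) / (2 : ℕ)) * n := by
      intro i b a h
      have h1 : (⟨i, (b, a)⟩ : (_ : ℕ) × (ℕ × ℕ)) ∈ c := by
        by_contra h2
        exact h (hT0 _ h2)
      rw [hc] at h1
      unfold AuxM_cs at h1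
      rw [mem_sigma, mem_filter, mem_product, mem_range, mem_range, mem_range] at h1
      exact ⟨h1.1, h1.2.1.1, h1.2.1.2, h1.2.2.1, h1.2.2.2⟩
    obtain ⟨P, hP⟩ : ∃ P : ℕ → ℕ → ℤ[X],
        P = fun i b => ∑ a ∈ range A, C (T ⟨i, (b, a)⟩) * X ^ a := ⟨_, rfl⟩
    have hco : ∀ i b a, (P i b).coeff a = T ⟨i, (b, a)⟩ := by
      intro i b a
      rw [hP]
      show (∑ a' ∈ range A, C (T ⟨i, (b, a')⟩) * X ^ a').coeff a = _
      rw [Polynomial.finsetSum_coeff]
      simp only [coeff_C_mul_X_pow]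
      rw [Finset.sum_ite_eq (range A) a]
      split_ifs with h
      · rfl
      · by_contra h2
        exact h (mem_range.2 (hmem i b a (Ne.symm h2)).2.2.1)
    refine ⟨P, ?_, fun i b a h => ?_, fun i b a => ?_, fun β s hs => ?_⟩
    · obtain ⟨u, hu⟩ := Function.ne_iff.1 ht0
      have h1 : T u.1 ≠ 0 := by
        rw [hT1 u.1 u.2]
        exact hu
      refine ⟨u.1.1, u.1.2.1, (hmem _ _ u.1.2.2 h1).1, (hmem _ _ u.1.2.2 h1).2.1, fun h2 => h1 ?_⟩
      rw [← hco u.1.1 u.1.2.1 u.1.2.2, h2, coeff_zero]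
    · rw [hco] at h
      obtain ⟨h1, h4, -, h5, h2⟩ := hmem i b a h
      refine ⟨h1, h4, h5, ?_⟩
      have h3 : (δ - (i : ℝ) / (2 : ℕ)) * n = δ * n - (i : ℝ) * n / (2 : ℕ) := by ring
      rw [h3] at h2
      linarith
    · rw [hco]
      have hcc : (c.card : ℝ) ≤ (2 * C₁) ^ n := by
        have h1 : c.card ≤ 2 * (lam * A) := by
          rw [hc]
          unfold AuxM_cs
          rw [Finset.card_sigma]
          refine (Finset.sum_le_card_nsmul (range 2) _ (lam * A) fun i _ => ?_).trans ?_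
          · refine (Finset.card_filter_le _ _).trans ?_
            rw [Finset.card_product, card_range, card_range]
          · rw [card_range, smul_eq_mul]
        have h2 : (c.card : ℝ) ≤ 2 * (lam * A) := by exact_mod_cast h1
        have h3 : (lam : ℝ) * A ≤ lam * ((δ + 1) * n) :=
          mul_le_mul_of_nonneg_left hA2 (by linarith)
        have h4 : (c.card : ℝ) ≤ C₁ * n := by
          refine h2.trans ?_
          rw [hC₁]
          nlinarith
        have h5 : (n : ℝ) ≤ 2 ^ n := by exact_mod_cast (Nat.lt_two_pow_self).le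
        have h6 : C₁ ≤ C₁ ^ n := le_self_pow₀ hC₁1 (Nat.one_le_iff_ne_zero.1 hn)
        rw [mul_pow]
        calc (c.card : ℝ) ≤ C₁ * n := h4
          _ ≤ C₁ ^ n * 2 ^ n := mul_le_mul h6 h5 (by linarith) (by linarith)
          _ = 2 ^ n * C₁ ^ n := mul_comm _ _
      have h7 : |(T ⟨i, (b, a)⟩ : ℝ)| ≤ ((c.card : ℝ) * (16 : ℝ) ^ ((lam + eta) * n)) ^ G := by
        by_cases h : (⟨i, (b, a)⟩ : (_ : ℕ) × (ℕ × ℕ)) ∈ c
        · rw [hT1 _ h]
          have h8 := ht2 ⟨_, h⟩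
          rwa [Fintype.card_coe] at h8
        · rw [hT0 _ h, Int.cast_zero, abs_zero]
          positivity
      refine h7.trans ?_
      have h9 : ((2 * C₁ * (16 : ℝ) ^ (lam + eta)) ^ G) ^ n =
          ((2 * C₁) ^ n * (16 : ℝ) ^ ((lam + eta) * n)) ^ G := by
        rw [← pow_mul, mul_comm G n, pow_mul, mul_pow (2 * C₁), ← pow_mul]
      rw [h9]
      have h10 : 0 ≤ (c.card : ℝ) * (16 : ℝ) ^ ((lam + eta) * n) := by positivity
      exact pow_le_pow_left₀ h10 (mul_le_mul_of_nonneg_right hcc (by positivity)) G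
    · by_cases hs2 : lam * n ≤ s + n * β
      · have hv : (⟨0, (β, s)⟩ : (_ : Fin 1) × (ℕ × ℕ)) ∈ rs := by
          rw [hrs]
          unfold AuxM_rs
          rw [mem_sigma, mem_filter, mem_product, mem_range, mem_range]
          refine ⟨mem_univ _, ⟨?_, ?_⟩, hs, hs2⟩
          · by_contra hlt2
            have h1 : (lam + eta) * n ≤ n * β := by
              rw [mul_comm]
              exact Nat.mul_le_mul_left n (not_lt.1 hlt2)
            omega
          · exact lt_of_le_of_lt (Nat.le_add_right _ _) hs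
        have h1 := hk _ hv
        rw [hc] at h1 hT0
        rw [AuxM_sum T hT0 P hco 0 β s] at h1
        exact h1
      · have hz : ∀ i b a, b ≤ β → a ≤ s → (P i b).coeff a = 0 := by
          intro i b a h5 h6
          rw [hco]
          by_contra h3
          have h4 := (hmem i b a h3).2.2.2.1
          have h7 := Nat.mul_le_mul_left n h5
          omega
        rw [hz 0 β s (le_refl _) (le_refl _), zero_mul, zero_mul, add_zero]
        refine Finset.sum_eq_zero fun b hb => Finset.sum_eq_zero fun a ha => ?_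
        rw [hz 1 b a (Nat.lt_succ_iff.1 (mem_range.1 hb)) (Nat.lt_succ_iff.1 (mem_range.1 ha))]
        ring

end Pool.Agent.GMF
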