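import Pool.Agent.GMF.Defs
import Pool.Agent.NLG.NilEv

/-!
GMF-Br: the branch lemma: `ζ = ((1 - ξ / 2) / (1 - ξ)) ^ (1 / 2) (1 + v) ^ (1 / 2)`.
-/

namespace Pool.Agent.GMF

open Finset Polynomial Pool.Agent.NLG

/-- the product of two truncated series at a nilpotent element -/
private theorem Br_conv {R : Type*} [CommRing R] {N : ℕ} {b : R} (hb : b ^ N = 0) (A B : ℕ → R) :
    (∑ m ∈ range N, A m * b ^ m) * (∑ m ∈ range N, B m * b ^ m) =
      ∑ s ∈ range N, (∑ m ∈ range (s + 1), A m * B (s - m)) * b ^ s := by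
  have hb' : ∀ s, N ≤ s → b ^ s = 0 := by
    intro s hs
    rw [← Nat.sub_add_cancel hs, pow_add, hb, mul_zero]
  have h1 : ∀ m ∈ range N, ∑ m' ∈ range N, A m * b ^ m * (B m' * b ^ m') =
      ∑ s ∈ Ico m N, (A m * B (s - m)) * b ^ s := by
    intro m hm
    have hm' : m < N := mem_range.1 hm
    have e1 : ∑ m' ∈ range N, A m * b ^ m * (B m' * b ^ m') =
        ∑ s ∈ Ico m (m + N), (A m * B (s - m)) * b ^ s := by
      rw [sum_Ico_eq_sum_range, Nat.add_sub_cancel_left]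
      refine sum_congr rfl fun m' _ => ?_
      rw [Nat.add_sub_cancel_left, pow_add]
      ring
    rw [e1, ← sum_Ico_consecutive _ hm'.le (Nat.le_add_left N m)]
    have e2 : ∑ s ∈ Ico N (m + N), (A m * B (s - m)) * b ^ s = 0 := by
      refine sum_eq_zero fun s hs => ?_
      rw [hb' s (mem_Ico.1 hs).1, mul_zero]
    rw [e2, add_zero]
  rw [sum_mul_sum, sum_congr rfl h1, range_eq_Ico, sum_Ico_Ico_comm]
  refine sum_congr rfl fun s _ => ?_
  rw [← sum_mul, range_eq_Ico]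

private theorem Br_sq {R : Type*} [CommRing R] {N : ℕ} (hN : 1 ≤ N) {r a : R} (hr : r * (2 : R) ^ 2 = 1)
    (ha : a ^ N = 0) : ev 2 1 N r a ^ 2 = 1 - a := by
  have hr' : r * ((2 : ℕ) : R) ^ 2 = 1 := by
    rw [Nat.cast_ofNat]
    exact hr
  have h1 := ev_natMul (q := 2) (by norm_num) hN 2 1 r a ha
  rw [mul_one] at h1
  rw [← h1]
  exact ev_self (by norm_num) hN hr' ha

private theorem Br_neg {R : Type*} [CommRing R] {N : ℕ} (hN : 1 ≤ N) {r a : R} (hr : r * (2 : R) ^ 2 = 1)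
    (ha : a ^ N = 0) : ev 2 (-1) N r a ^ 2 * (1 - a) = 1 := by
  have hr' : r * ((2 : ℕ) : R) ^ 2 = 1 := by
    rw [Nat.cast_ofNat]
    exact hr
  exact ev_neg_pow (by norm_num) hN hr' ha

private theorem Br_nil {R : Type*} [CommRing R] {N : ℕ} (hN : 1 ≤ N) (j : ℤ) (r : R) {a : R}
    (ha : a ^ N = 0) : ev 2 j N r a - 1 ∈ nilradical R := by
  obtain ⟨c, hc⟩ := ev_dvd (q := 2) (by norm_num) hN j r a
  rw [hc]
  exact Ideal.mul_mem_right c _ (mem_nilradical.2 ⟨N, ha⟩)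

theorem br_sqrt {R : Type*} [CommRing R] {N : ℕ} (hN : 1 ≤ N) {c ξ v ζ : R} (hc : c * 2 = 1)
    (hξ : ξ ^ N = 0) (hv : v ^ N = 0) (hζ : ζ ^ 2 * (2 * (1 - ξ)) = (2 - ξ) * (1 + v))
    (hu : IsUnit (ζ + 1)) :
    ζ = (∑ s ∈ range N, (gk s : R) * (c ^ 3 * ξ) ^ s) *
      ∑ b ∈ range N, (hk b : R) * (c ^ 2 * v) ^ b := by
  have hr : c ^ 2 * (2 : R) ^ 2 = 1 := by
    rw [← mul_pow, hc, one_pow]
  have hcξ : (c * ξ) ^ N = 0 := by rw [mul_pow, hξ, mul_zero]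
  have hnv : (-v) ^ N = 0 := by rw [neg_pow, hv, mul_zero]
  have h1 := Br_sq hN hr hcξ
  have h2 := Br_neg hN hr hξ
  have h3 := Br_sq hN hr hnv
  have n1 := Br_nil hN 1 (c ^ 2) hcξ
  have n2 := Br_nil hN (-1) (c ^ 2) hξ
  have n3 := Br_nil hN 1 (c ^ 2) hnv
  -- the sums
  have hE12 : ev 2 1 N (c ^ 2) (c * ξ) * ev 2 (-1) N (c ^ 2) ξ =
      ∑ s ∈ range N, (gk s : R) * (c ^ 3 * ξ) ^ s := by
    have hb : (c ^ 3 * ξ) ^ N = 0 := by rw [mul_pow, hξ, mul_zero]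
    have e1 : ev 2 1 N (c ^ 2) (c * ξ) = ∑ m ∈ range N, (KZ 2 1 m : R) * (c ^ 3 * ξ) ^ m := by
      unfold ev
      refine sum_congr rfl fun m _ => ?_
      have e : c ^ 2 * (c * ξ) = c ^ 3 * ξ := by ring
      rw [e]
    have e2 : ev 2 (-1) N (c ^ 2) ξ =
        ∑ m ∈ range N, ((KZ 2 (-1) m : R) * 2 ^ m) * (c ^ 3 * ξ) ^ m := by
      unfold ev
      refine sum_congr rfl fun m _ => ?_
      have e : c ^ 2 * ξ = 2 * (c ^ 3 * ξ) := by
        linear_combination (-(c ^ 2 * ξ)) * hc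
      rw [e, mul_pow, mul_assoc]
    rw [e1, e2, Br_conv hb]
    refine sum_congr rfl fun s _ => ?_
    congr 1
    unfold gk
    push_cast
    refine sum_congr rfl fun m _ => ?_
    ring
  have hE3 : ev 2 1 N (c ^ 2) (-v) = ∑ b ∈ range N, (hk b : R) * (c ^ 2 * v) ^ b := by
    unfold ev hk
    refine sum_congr rfl fun m _ => ?_
    have e : c ^ 2 * -v = (-1) * (c ^ 2 * v) := by ring
    rw [e, mul_pow]
    push_cast
    ring
  rw [← hE12, ← hE3]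
  generalize ev 2 1 N (c ^ 2) (c * ξ) = E1 at h1 n1
  generalize ev 2 (-1) N (c ^ 2) ξ = E2 at h2 n2
  generalize ev 2 1 N (c ^ 2) (-v) = E3 at h3 n3
  obtain ⟨T, hT⟩ : ∃ T, T = E1 * E2 * E3 := ⟨_, rfl⟩
  rw [← hT]
  have hT2 : T ^ 2 * (2 * (1 - ξ)) = (2 - ξ) * (1 + v) := by
    have e1 : T ^ 2 * (2 * (1 - ξ)) = 2 * E1 ^ 2 * (E2 ^ 2 * (1 - ξ)) * E3 ^ 2 := by
      rw [hT]
      ring
    rw [e1, h1, h2, h3]
    linear_combination (-(ξ * (1 + v))) * hc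
  have h2u : IsUnit (2 : R) := IsUnit.of_mul_eq_one c (by rw [mul_comm]; exact hc)
  have hnx : IsNilpotent ξ := ⟨N, hξ⟩
  have hux : IsUnit (2 * (1 - ξ)) := h2u.mul hnx.isUnit_one_sub
  have hsq : ζ ^ 2 = T ^ 2 := by
    have h4 : ζ ^ 2 * (2 * (1 - ξ)) = T ^ 2 * (2 * (1 - ξ)) := by rw [hζ, hT2]
    exact hux.mul_right_cancel h4
  have hT1 : T - 1 ∈ nilradical R := by
    have e1 : T - 1 = (E1 - 1) * (E2 * E3) + ((E2 - 1) * E3 + (E3 - 1)) := by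
      rw [hT]
      ring
    rw [e1]
    exact Ideal.add_mem _ (Ideal.mul_mem_right _ _ n1) (Ideal.add_mem _ (Ideal.mul_mem_right _ _ n2) n3)
  have hT1' : IsNilpotent (T - 1) := mem_nilradical.1 hT1
  have hYT : IsUnit (ζ + T) := by
    have h5 := hT1'.isUnit_add_left_of_commute hu (Commute.all _ _)
    have e1 : ζ + 1 + (T - 1) = ζ + T := by ring
    rwa [e1] at h5
  have hfin : (ζ - T) * (ζ + T) = 0 := by
    linear_combination hsq
  exact sub_eq_zero.1 ((hYT.mul_left_eq_zero).1 hfin)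

end Pool.Agent.GMF
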