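import Pool.Agent.GMF.Defs

/-!
GMF-BrVan: the vanishing conditions make the form vanish at nilpotent arguments.

Evaluation of a two-variable polynomial over `R` whose coefficient of `X ^ s U ^ β` is `c ^ (3 s + 2 β)`
times the left side of `VanM` (for `s + n β < N`).
-/

namespace Pool.Agent.GMF

open Finset Polynomial Pool.Agent.NLG

section two

variable {R : Type*} [CommRing R]

/-- evaluation at `(u, v)` -/
private noncomputable def brPsi (u v : R) : R[X][X] →+* R :=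
  eval₂RingHom (evalRingHom u) v

private theorem brPsi_C (u v : R) (p : R[X]) : brPsi u v (C p) = eval u p := by
  unfold brPsi
  rw [coe_eval₂RingHom, eval₂_C]
  rfl

private theorem brPsi_X (u v : R) : brPsi u v X = v := by
  unfold brPsi
  rw [coe_eval₂RingHom, eval₂_X]

private theorem brPsi_zero {n N : ℕ} {u v : R} (huv : ∀ s β : ℕ, N ≤ s + n * β → u ^ s * v ^ β = 0)
    {F : R[X][X]} (hF : ∀ s β : ℕ, s + n * β < N → (F.coeff β).coeff s = 0) : brPsi u v F = 0 := by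
  unfold brPsi
  rw [coe_eval₂RingHom, eval₂_eq_sum_range]
  refine sum_eq_zero fun β _ => ?_
  have h1 : (evalRingHom u) (F.coeff β) = eval u (F.coeff β) := rfl
  rw [h1, eval_eq_sum_range, sum_mul]
  refine sum_eq_zero fun s _ => ?_
  rw [mul_assoc]
  rcases lt_or_ge (s + n * β) N with h | h
  · rw [hF s β h, zero_mul]
  · rw [huv s β h, mul_zero]

private noncomputable def brA (B : ℕ) (P : ℕ → ℕ → ℤ[X]) (i : ℕ) : R[X][X] :=
  ∑ b ∈ range B, C ((P i b).map (Int.castRingHom R)) * X ^ b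

private noncomputable def brG (N : ℕ) (c : R) : R[X] :=
  ∑ m ∈ range N, C ((gk m : R) * (c ^ 3) ^ m) * X ^ m

private noncomputable def brH (N : ℕ) (c : R) : R[X][X] :=
  ∑ m ∈ range N, C (C ((hk m : R) * (c ^ 2) ^ m)) * X ^ m

private theorem brG_coeff (N : ℕ) (c : R) (m : ℕ) (hm : m < N) :
    (brG N c).coeff m = (gk m : R) * (c ^ 3) ^ m := by
  unfold brG
  rw [finsetSum_coeff]
  simp only [coeff_C_mul_X_pow]
  rw [sum_eq_single m]
  · simp
  · intro b _ hb
    exact if_neg (fun h => hb h.symm)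
  · intro h
    exact absurd (mem_range.mpr hm) h

private theorem brH_coeff (N : ℕ) (c : R) (m : ℕ) (hm : m < N) :
    (brH N c).coeff m = C ((hk m : R) * (c ^ 2) ^ m) := by
  unfold brH
  rw [finsetSum_coeff]
  simp only [coeff_C_mul_X_pow]
  rw [sum_eq_single m]
  · simp
  · intro b _ hb
    exact if_neg (fun h => hb h.symm)
  · intro h
    exact absurd (mem_range.mpr hm) h

private theorem brA_coeff (B : ℕ) (P : ℕ → ℕ → ℤ[X]) (hB : ∀ i b, B ≤ b → P i b = 0) (i b : ℕ) :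
    (brA (R := R) B P i).coeff b = (P i b).map (Int.castRingHom R) := by
  unfold brA
  rw [finsetSum_coeff]
  simp only [coeff_C_mul_X_pow]
  rcases lt_or_ge b B with h | h
  · rw [sum_eq_single b]
    · simp
    · intro b' _ hb
      exact if_neg (fun h => hb h.symm)
    · intro h'
      exact absurd (mem_range.mpr h) h'
  · rw [hB i b h, Polynomial.map_zero]
    refine sum_eq_zero fun b' hb' => if_neg ?_
    rw [mem_range] at hb'
    omega

private theorem brA_coeff2 (B : ℕ) (P : ℕ → ℕ → ℤ[X]) (hB : ∀ i b, B ≤ b → P i b = 0) (i b a : ℕ) :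
    ((brA (R := R) B P i).coeff b).coeff a = ((P i b).coeff a : R) := by
  rw [brA_coeff B P hB, coeff_map]
  simp

private theorem brPsi_brA (B : ℕ) (P : ℕ → ℕ → ℤ[X]) (i : ℕ) (u v : R) :
    brPsi u v (brA B P i) = ∑ b ∈ range B, v ^ b * aeval u (P i b) := by
  unfold brA
  rw [map_sum]
  refine sum_congr rfl fun b _ => ?_
  rw [map_mul, brPsi_C, map_pow (brPsi u v) X b, brPsi_X, eval_map, aeval_def, mul_comm]
  rfl

private theorem brPsi_brG (N : ℕ) (c u v : R) :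
    brPsi u v (C (brG N c)) = ∑ s ∈ range N, (gk s : R) * (c ^ 3 * u) ^ s := by
  unfold brG
  rw [brPsi_C, eval_finsetSum]
  refine sum_congr rfl fun m _ => ?_
  rw [eval_mul, eval_C, eval_pow, eval_X, mul_pow]
  ring

private theorem brPsi_brH (N : ℕ) (c u v : R) :
    brPsi u v (brH N c) = ∑ b ∈ range N, (hk b : R) * (c ^ 2 * v) ^ b := by
  unfold brH
  rw [map_sum]
  refine sum_congr rfl fun m _ => ?_
  rw [map_mul, brPsi_C, eval_C, map_pow (brPsi u v) X m, brPsi_X, mul_pow]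
  ring

end two

private theorem br_pow8 {R : Type*} [CommRing R] {c : R} (hc : c * 2 = 1) {a s : ℕ} (h : a ≤ s) :
    (c ^ 3) ^ (s - a) = (c ^ 3) ^ s * 8 ^ a := by
  obtain ⟨k, rfl⟩ := Nat.exists_eq_add_of_le h
  have h8 : c ^ 3 * 8 = 1 := by
    have : c ^ 3 * 8 = (c * 2) ^ 3 := by ring
    rw [this, hc, one_pow]
  rw [Nat.add_sub_cancel_left, pow_add]
  have h1 : (c ^ 3) ^ a * 8 ^ a = 1 := by rw [← mul_pow, h8, one_pow]
  calc (c ^ 3) ^ k = (c ^ 3) ^ k * 1 := by ring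
    _ = (c ^ 3) ^ k * ((c ^ 3) ^ a * 8 ^ a) := by rw [h1]
    _ = (c ^ 3) ^ a * (c ^ 3) ^ k * 8 ^ a := by ring

private theorem br_pow4 {R : Type*} [CommRing R] {c : R} (hc : c * 2 = 1) {a s : ℕ} (h : a ≤ s) :
    (c ^ 2) ^ (s - a) = (c ^ 2) ^ s * 4 ^ a := by
  obtain ⟨k, rfl⟩ := Nat.exists_eq_add_of_le h
  have h8 : c ^ 2 * 4 = 1 := by
    have : c ^ 2 * 4 = (c * 2) ^ 2 := by ring
    rw [this, hc, one_pow]
  rw [Nat.add_sub_cancel_left, pow_add]
  have h1 : (c ^ 2) ^ a * 4 ^ a = 1 := by rw [← mul_pow, h8, one_pow]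
  calc (c ^ 2) ^ k = (c ^ 2) ^ k * 1 := by ring
    _ = (c ^ 2) ^ k * ((c ^ 2) ^ a * 4 ^ a) := by rw [h1]
    _ = (c ^ 2) ^ a * (c ^ 2) ^ k * 4 ^ a := by ring

theorem br_van {R : Type*} [CommRing R] {n N B : ℕ} (hn : 1 ≤ n) (hN : 1 ≤ N)
    {P : ℕ → ℕ → ℤ[X]} (hB : ∀ i b, B ≤ b → P i b = 0) (hV : VanM n N P) {c ξ v ζ : R}
    (hc : c * 2 = 1) (hnil : ∀ s b, N ≤ s + n * b → ξ ^ s * v ^ b = 0)
    (hζ : ζ = (∑ s ∈ range N, (gk s : R) * (c ^ 3 * ξ) ^ s) *
      ∑ b ∈ range N, (hk b : R) * (c ^ 2 * v) ^ b) :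
    ∑ b ∈ range B, v ^ b * (aeval ξ (P 0 b) + ζ * aeval ξ (P 1 b)) = 0 := by
  have h0 : ∑ b ∈ range B, v ^ b * (aeval ξ (P 0 b) + ζ * aeval ξ (P 1 b)) =
      brPsi ξ v (brA B P 0 + brA B P 1 * (C (brG N c) * brH N c)) := by
    rw [map_add, map_mul, map_mul, brPsi_brA, brPsi_brA, brPsi_brG, brPsi_brH, ← hζ, sum_mul,
      ← sum_add_distrib]
    refine sum_congr rfl fun b _ => ?_
    ring
  rw [h0]
  refine brPsi_zero (n := n) (N := N) hnil ?_
  intro s β h
  have hβ : β < N := by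
    have : β ≤ n * β := Nat.le_mul_of_pos_left β (by omega)
    omega
  have hs : s < N := by omega
  have hcast := congrArg (fun z : ℤ => (c ^ 3) ^ s * (c ^ 2) ^ β * (z : R)) (hV β s h)
  simp only [Int.cast_zero, mul_zero] at hcast
  rw [← hcast, coeff_add, coeff_add, brA_coeff2 B P hB]
  push_cast
  rw [mul_add, add_comm]
  have h8 : c ^ 3 * 8 = 1 := by
    have : c ^ 3 * 8 = (c * 2) ^ 3 := by ring
    rw [this, hc, one_pow]
  have h4 : c ^ 2 * 4 = 1 := by
    have : c ^ 2 * 4 = (c * 2) ^ 2 := by ring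
    rw [this, hc, one_pow]
  congr 1
  · rw [← mul_assoc (brA B P 1), coeff_mul,
      Finset.Nat.sum_antidiagonal_eq_sum_range_succ
        (fun b m' => ((brA (R := R) B P 1 * C (brG N c)).coeff b * (brH N c).coeff m')),
      finsetSum_coeff, mul_sum]
    refine sum_congr rfl fun b hb => ?_
    rw [mem_range] at hb
    rw [brH_coeff N c _ (by omega), coeff_mul_C, coeff_mul_C, coeff_mul,
      Finset.Nat.sum_antidiagonal_eq_sum_range_succ
        (fun a m => ((brA (R := R) B P 1).coeff b).coeff a * (brG N c).coeff m), sum_mul, mul_sum]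
    refine sum_congr rfl fun a ha => ?_
    rw [mem_range] at ha
    rw [brG_coeff N c _ (by omega), brA_coeff2 B P hB, br_pow8 hc (by omega : a ≤ s),
      br_pow4 hc (by omega : b ≤ β)]
    ring
  · have h1 : (c ^ 3) ^ s * 8 ^ s = 1 := by rw [← mul_pow, h8, one_pow]
    have h2 : (c ^ 2) ^ β * 4 ^ β = 1 := by rw [← mul_pow, h4, one_pow]
    calc ((P 0 β).coeff s : R) = ((P 0 β).coeff s : R) * (((c ^ 3) ^ s * 8 ^ s) * ((c ^ 2) ^ β * 4 ^ β)) := by
          rw [h1, h2]; ring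
      _ = _ := by ring

end Pool.Agent.GMF
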