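import Pool.Agent.GMF.Defs

/-!
GMF-CoefX: the coefficients of the powers of the path, and of `zs`.

The `j`-th coefficient of `xs x` is at most `x (4 x) ^ j`; by induction on `a` the `l`-th coefficient of the
power `a` is at most `x ^ a (4 x) ^ l 2 ^ (a + l)`, because the sum of the `2 ^ (a + j)`, `j ≤ l`, is at
most `2 ^ (a + l + 1)`. The coefficients of `zs Z` are `Z KZ 2 (-1) j`.
-/

namespace Pool.Agent.GMF

open Finset Polynomial Pool.Agent.NLG

private theorem CoefX_one {x : ℤ} (hx : 3 ≤ x) (j : ℕ) :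
    |PowerSeries.coeff j (xs x)| ≤ x * (4 * x) ^ j := by
  rw [xs, PowerSeries.coeff_mk]
  rcases Nat.eq_zero_or_pos j with rfl | hj
  · rw [if_pos rfl, pow_zero, mul_one, abs_of_nonneg (by linarith)]
  · rw [if_neg hj.ne']
    obtain ⟨i, rfl⟩ : ∃ i, j = i + 1 := ⟨j - 1, by omega⟩
    rw [Nat.add_sub_cancel]
    have h1 : (0 : ℤ) ≤ 4 * (x - 1) := by linarith
    have h2 : (4 * (x - 1)) ^ i ≤ (4 * x) ^ i := pow_le_pow_left₀ h1 (by linarith) i
    have h3 : (0 : ℤ) ≤ (4 * (x - 1)) ^ i := pow_nonneg h1 i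
    have h4 : (0 : ℤ) ≤ 4 * (x - 1) * (x - 2) := mul_nonneg h1 (by linarith)
    have h5 : 4 * (x - 1) * (x - 2) ≤ 4 * x * x := by nlinarith
    rw [abs_of_nonneg (mul_nonneg h4 h3)]
    calc 4 * (x - 1) * (x - 2) * (4 * (x - 1)) ^ i ≤ (4 * x * x) * (4 * x) ^ i :=
          mul_le_mul h5 h2 h3 (by nlinarith)
      _ = x * (4 * x) ^ (i + 1) := by ring

private theorem CoefX_geom (a l : ℕ) : ∑ j ∈ range (l + 1), (2 : ℤ) ^ (a + j) ≤ 2 ^ (a + 1 + l) := by
  induction l with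
  | zero =>
    rw [zero_add, sum_range_one, add_zero, add_zero, pow_succ]
    have : (0 : ℤ) < 2 ^ a := by positivity
    linarith
  | succ l ih =>
    rw [sum_range_succ]
    have h1 : (2 : ℤ) ^ (a + 1 + (l + 1)) = 2 ^ (a + 1 + l) + 2 ^ (a + (l + 1)) := by
      rw [← add_assoc (a + 1), pow_succ, show a + (l + 1) = a + 1 + l by omega]
      ring
    rw [h1]
    exact add_le_add ih le_rfl

private theorem CoefX_pow {x : ℤ} (hx : 3 ≤ x) (a : ℕ) : ∀ l : ℕ,
    |PowerSeries.coeff l (xs x ^ a)| ≤ x ^ a * (4 * x) ^ l * 2 ^ (a + l) := by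
  induction a with
  | zero =>
    intro l
    rw [pow_zero, PowerSeries.coeff_one]
    split_ifs with h
    · subst h
      norm_num
    · rw [abs_zero]
      have : (0 : ℤ) ≤ 4 * x := by linarith
      positivity
  | succ a ih =>
    intro l
    rw [pow_succ, PowerSeries.coeff_mul]
    have hx0 : (0 : ℤ) ≤ x := by linarith
    have hx4 : (0 : ℤ) ≤ 4 * x := by linarith
    calc |∑ p ∈ antidiagonal l, PowerSeries.coeff p.1 (xs x ^ a) * PowerSeries.coeff p.2 (xs x)|
        ≤ ∑ p ∈ antidiagonal l, |PowerSeries.coeff p.1 (xs x ^ a) * PowerSeries.coeff p.2 (xs x)| :=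
          abs_sum_le_sum_abs _ _
      _ ≤ ∑ p ∈ antidiagonal l, x ^ (a + 1) * (4 * x) ^ l * 2 ^ (a + p.1) := by
          refine sum_le_sum fun p hp => ?_
          rw [Finset.HasAntidiagonal.mem_antidiagonal] at hp
          rw [abs_mul]
          refine le_trans (mul_le_mul (ih p.1) (CoefX_one hx p.2) (abs_nonneg _) (by positivity)) ?_
          rw [← hp, pow_add (4 * x), pow_succ x a]
          exact le_of_eq (by ring)
      _ = x ^ (a + 1) * (4 * x) ^ l * ∑ j ∈ range (l + 1), 2 ^ (a + j) := by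
          rw [← mul_sum]
          congr 1
          exact Finset.Nat.sum_antidiagonal_eq_sum_range_succ (fun i _ => (2 : ℤ) ^ (a + i)) l
      _ ≤ x ^ (a + 1) * (4 * x) ^ l * 2 ^ (a + 1 + l) :=
          mul_le_mul_of_nonneg_left (CoefX_geom a l) (by positivity)

theorem coeff_xs_pow {x : ℤ} (hx : 3 ≤ x) (a l : ℕ) :
    |PowerSeries.coeff l (xs x ^ a)| ≤ x ^ (a + l) * 8 ^ l * 2 ^ a := by
  refine le_trans (CoefX_pow hx a l) (le_of_eq ?_)
  rw [mul_pow, pow_add x, pow_add (2 : ℤ), show (8 : ℤ) = 4 * 2 by norm_num, mul_pow]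
  ring

theorem coeff_zs (Z : ℤ) (j : ℕ) : |PowerSeries.coeff j (zs Z)| ≤ |Z| * 4 ^ j := by
  rw [zs, PowerSeries.coeff_C_mul, ks, PowerSeries.coeff_mk, abs_mul]
  refine mul_le_mul_of_nonneg_left ?_ (abs_nonneg _)
  have h := abs_KZ_le (q := 2) (by norm_num) (j := -1) (by norm_num) j
  rw [pow_mul] at h
  norm_num at h
  exact h

end Pool.Agent.GMF
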