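import Pool.Agent.NLG.Defs2
import Pool.Agent.NLG.Kap

/-!
# GMF: finitely many McFarland parameters (MP_d994c8_co).  Paper proof: /team-store/gmf_proof.md

Definitions.  `gk`, `hk`: the coefficients of `((1 - X / 2) / (1 - X)) ^ (1 / 2)` and `(1 + U) ^ (1 / 2)`;
`VanM`: the vanishing conditions; `xs`, `zs`: the path in `ℤ⟦t⟧`; `Phi`: the form along the path;
`vvQ`: the derivative values of NLG at a rational point; `tp`: the change of variable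
`X = (1 - 2 τ) / (1 - τ)`.
-/

namespace Pool.Agent.GMF

open Finset Polynomial Pool.Agent.NLG

/-- `8 ^ m` times the coefficient of `X ^ m` in `((1 - X / 2) / (1 - X)) ^ (1 / 2)`. -/
noncomputable def gk (m : ℕ) : ℤ :=
  ∑ j ∈ range (m + 1), KZ 2 1 j * KZ 2 (-1) (m - j) * 2 ^ (m - j)

/-- `4 ^ m` times the coefficient of `U ^ m` in `(1 + U) ^ (1 / 2)`. -/
noncomputable def hk (m : ℕ) : ℤ := (-1) ^ m * KZ 2 1 m

/-- The vanishing conditions: `A_0 + A_1 g (1 + U) ^ (1 / 2) = 0` up to monomials `X ^ s U ^ b` with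
`s + n b ≥ N`, where `A_i = ∑ b, P i b (X) U ^ b`. -/
def VanM (n N : ℕ) (P : ℕ → ℕ → ℤ[X]) : Prop :=
  ∀ β s : ℕ, s + n * β < N →
    (∑ b ∈ range (β + 1), ∑ a ∈ range (s + 1),
      (P 1 b).coeff a * 8 ^ a * 4 ^ b * gk (s - a) * hk (β - b)) +
      (P 0 β).coeff s * 8 ^ s * 4 ^ β = 0

/-- The path `X(t) = (x - 8 (x - 1) t) / (1 - 4 (x - 1) t)`. -/
noncomputable def xs (x : ℤ) : PowerSeries ℤ :=
  PowerSeries.mk fun j => if j = 0 then x else 4 * (x - 1) * (x - 2) * (4 * (x - 1)) ^ (j - 1)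

/-- `(1 - 4 t) ^ (j / 2)`. -/
noncomputable def ks (j : ℤ) : PowerSeries ℤ := PowerSeries.mk fun m => KZ 2 j m

/-- `Z (1 - 4 t) ^ (-1 / 2)`. -/
noncomputable def zs (Z : ℤ) : PowerSeries ℤ := PowerSeries.C Z * ks (-1)

/-- The form `∑ b, U ^ b (P 0 b (X) + Y P 1 b (X))` along the path, `U = x ^ n / (x - 2)`, times
`(x - 2) ^ (B - 1)`. -/
noncomputable def Phi (n B : ℕ) (P : ℕ → ℕ → ℤ[X]) (x Z : ℤ) : PowerSeries ℤ :=
  ∑ b ∈ range B, PowerSeries.C (x ^ (n * b) * (x - 2) ^ (B - 1 - b)) *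
    (aeval (xs x) (P 0 b) + zs Z * aeval (xs x) (P 1 b))

/-- `NLG.vv` at a rational point. -/
noncomputable def vvQ (q B : ℕ) (Q : ℕ → ℕ → ℤ[X]) (z w y : ℚ) (l : ℕ) : ℚ :=
  ∑ i ∈ range q, ∑ b ∈ range B, w ^ b * y ^ i *
    (Q i b).sum fun d c => (c : ℚ) * z ^ d * (KZ q ((q : ℤ) * d - i) l : ℚ)

/-- `(1 - τ) ^ R p ((1 - 2 τ) / (1 - τ))`. -/
noncomputable def tp (R : ℕ) (p : ℤ[X]) : ℤ[X] :=
  p.sum fun a c => C c * (1 - 2 * X) ^ a * (1 - X) ^ (R - a)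

end Pool.Agent.GMF
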