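import Pool.Agent.GMF.DivA

/-!
GMF-Div: divisibility of the derivative values.

PLAN.  If N = 0 or l ≥ N trivial.  R = PowerSeries (ZMod m), m = (x ^ N).natAbs (or x.toNat ^ N), x > 0;
φ = (PowerSeries.map (Int.castRingHom (ZMod m))).comp (PowerSeries.rescale x) (rescale x f has the
coefficients x^j f_j).  φ f = 0 says x^N ∣ x^j f_j for all j (ZMod.intCast_zmod_eq_zero_iff_dvd), so
x^(N-l) ∣ f_l for l ≤ N.  Apply phi_zero:
c: constant series of the inverse of 2 in ZMod m (x odd: 2 is a unit mod x^N, ZMod.unitOfCoprime or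
Int.isCoprime → a Bezout relation u 2 + v x^N = 1); e: constant series of the inverse of x - 2 (gcd(x-2, x^N)
= 1 since x is odd).  hnil: xs x has all rescaled coefficients divisible by x: φ (xs x) = C x * ξ' ; φ (C(x^n)) =
C(x^n); so the product is divisible by C (x^(s + n b)) and C (x^N) = 0 in R.  hu: the constant coefficient of
φ (zs Z) + 1 is Z + 1 mod m (KZ_zero_right), gcd(Z + 1, x) = 1 as x ∣ Z - 1 and x odd
(PowerSeries.isUnit_iff_constantCoeff).
-/

namespace Pool.Agent.GMF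

open Finset Polynomial Pool.Agent.NLG

/-- The ring homomorphism. -/
private noncomputable def divPhi (x : ℤ) (m : ℕ) : PowerSeries ℤ →+* PowerSeries (ZMod m) :=
  (PowerSeries.map (Int.castRingHom (ZMod m))).comp (PowerSeries.rescale x)

private theorem div_coeff (x : ℤ) (m : ℕ) (f : PowerSeries ℤ) (j : ℕ) :
    PowerSeries.coeff j (divPhi x m f) = ((x ^ j * PowerSeries.coeff j f : ℤ) : ZMod m) := by
  simp [divPhi, PowerSeries.coeff_rescale]

private theorem div_C (x : ℤ) (m : ℕ) (a : ℤ) :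
    divPhi x m (PowerSeries.C a) = PowerSeries.C (a : ZMod m) := by
  ext j
  rw [div_coeff, PowerSeries.coeff_C, PowerSeries.coeff_C]
  split_ifs with h
  · subst h; simp
  · simp

private theorem div_inv {m : ℕ} {M a : ℤ} (hM : (M : ZMod m) = 0) (h : IsCoprime a M) :
    ∃ u : ZMod m, u * (a : ZMod m) = 1 := by
  obtain ⟨u, v, e⟩ := h
  refine ⟨(u : ZMod m), ?_⟩
  have h2 : ((u * a + v * M : ℤ) : ZMod m) = ((1 : ℤ) : ZMod m) := by rw [e]
  push_cast at h2
  rw [hM, mul_zero, add_zero] at h2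
  exact h2

private theorem div_xs (x : ℤ) (m : ℕ) :
    ∃ ξ : PowerSeries (ZMod m), divPhi x m (xs x) = PowerSeries.C (x : ZMod m) * ξ := by
  refine ⟨PowerSeries.mk fun j =>
    (((if j = 0 then 1 else x ^ (j - 1) * (4 * (x - 1) * (x - 2) * (4 * (x - 1)) ^ (j - 1))) : ℤ) :
      ZMod m), ?_⟩
  ext j
  rw [div_coeff, PowerSeries.coeff_C_mul, PowerSeries.coeff_mk, xs, PowerSeries.coeff_mk,
    ← Int.cast_mul]
  congr 1
  rcases j with _ | j
  · simp
  · simp only [Nat.add_one_ne_zero, if_false, Nat.add_sub_cancel]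
    ring

theorem div_Phi {n N B : ℕ} (hn : 1 ≤ n) {P : ℕ → ℕ → ℤ[X]} (hB : ∀ i b, B ≤ b → P i b = 0)
    (hV : VanM n N P) {x Z : ℤ} (hx : 3 ≤ x) (hodd : Odd x) (hZ : x ∣ Z - 1)
    (he : 2 * (x - 1) * Z ^ 2 = x ^ n + x - 2) (l : ℕ) :
    x ^ (N - l) ∣ PowerSeries.coeff l (Phi n B P x Z) := by
  rcases Nat.lt_or_ge l N with hl | hl
  swap
  · rw [Nat.sub_eq_zero_of_le hl, pow_zero]
    exact one_dvd _
  have hN : 1 ≤ N := by omega
  have hx0 : x ≠ 0 := by omega
  set m : ℕ := (x ^ N).natAbs with hm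
  have hM : ((x ^ N : ℤ) : ZMod m) = 0 := by
    rw [ZMod.intCast_zmod_eq_zero_iff_dvd, hm]
    exact Int.natAbs_dvd.2 (dvd_refl _)
  have h2x : IsCoprime (2 : ℤ) x := by
    obtain ⟨k, hk⟩ := hodd
    exact ⟨-k, 1, by rw [hk]; ring⟩
  have h2N : IsCoprime (2 : ℤ) (x ^ N) := h2x.pow_right
  have hx2 : IsCoprime (x - 2) x := by
    obtain ⟨u, v, e⟩ := h2x
    exact ⟨-u, u + v, by linear_combination e⟩
  have hx2N : IsCoprime (x - 2) (x ^ N) := hx2.pow_right
  have hZx : IsCoprime (Z + 1) x := by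
    obtain ⟨k, hk⟩ := hZ
    obtain ⟨u, v, e⟩ := h2x
    exact ⟨u, v - u * k, by linear_combination e + u * hk⟩
  have hZN : IsCoprime (Z + 1) (x ^ N) := hZx.pow_right
  obtain ⟨c, hc⟩ := div_inv hM h2N
  obtain ⟨e, he2⟩ := div_inv hM hx2N
  obtain ⟨w, hw⟩ := div_inv hM hZN
  have hc' : (PowerSeries.C c : PowerSeries (ZMod m)) * 2 = 1 := by
    have h : (2 : PowerSeries (ZMod m)) = PowerSeries.C ((2 : ℤ) : ZMod m) := by
      rw [Int.cast_ofNat, map_ofNat]
    rw [h, ← map_mul, hc, map_one]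
  have he2' : (PowerSeries.C e : PowerSeries (ZMod m)) * divPhi x m (PowerSeries.C (x - 2)) = 1 := by
    rw [div_C, ← map_mul, he2, map_one]
  have hu : IsUnit (divPhi x m (zs Z) + 1) := by
    rw [PowerSeries.isUnit_iff_constantCoeff, map_add, map_one,
      ← PowerSeries.coeff_zero_eq_constantCoeff_apply, div_coeff, zs, PowerSeries.coeff_C_mul, ks,
      PowerSeries.coeff_mk, KZ_zero_right (by norm_num), pow_zero, one_mul, mul_one]
    refine IsUnit.of_mul_eq_one w ?_
    rw [mul_comm]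
    push_cast at hw
    exact hw
  obtain ⟨ξ, hξ⟩ := div_xs x m
  have hnil : ∀ s b, N ≤ s + n * b → divPhi x m (xs x) ^ s *
      (divPhi x m (PowerSeries.C (x ^ n)) * PowerSeries.C e) ^ b = 0 := by
    intro s b hsb
    have h0 : (PowerSeries.C (x : ZMod m) : PowerSeries (ZMod m)) ^ (s + n * b) = 0 := by
      obtain ⟨t, ht⟩ := Nat.exists_eq_add_of_le hsb
      rw [ht, pow_add, ← map_pow]
      have h1 : ((x : ZMod m)) ^ N = 0 := by
        push_cast at hM
        exact hM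
      rw [h1, map_zero, zero_mul]
    have h3 : divPhi x m (PowerSeries.C (x ^ n)) =
        (PowerSeries.C (x : ZMod m) : PowerSeries (ZMod m)) ^ n := by
      rw [div_C, ← map_pow]
      push_cast
      rfl
    rw [hξ, h3]
    calc (PowerSeries.C (x : ZMod m) * ξ) ^ s * ((PowerSeries.C (x : ZMod m)) ^ n * PowerSeries.C e) ^ b
        = (PowerSeries.C (x : ZMod m) : PowerSeries (ZMod m)) ^ (s + n * b) *
          (ξ ^ s * PowerSeries.C e ^ b) := by ring
      _ = 0 := by rw [h0, zero_mul]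
  have key := phi_zero (divPhi x m) hn hN hB hV he hc' he2' hnil hu
  have h4 := div_coeff x m (Phi n B P x Z) l
  rw [key, map_zero] at h4
  have h5 : (m : ℤ) ∣ x ^ l * PowerSeries.coeff l (Phi n B P x Z) :=
    (ZMod.intCast_zmod_eq_zero_iff_dvd _ _).1 h4.symm
  have h6 : x ^ N ∣ x ^ l * PowerSeries.coeff l (Phi n B P x Z) := by
    rw [hm] at h5
    exact Int.natAbs_dvd.1 h5
  have h7 : x ^ N = x ^ l * x ^ (N - l) := by
    rw [← pow_add]
    congr 1
    omega
  rw [h7] at h6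
  exact (mul_dvd_mul_iff_left (pow_ne_zero _ hx0)).1 h6

end Pool.Agent.GMF
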