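import Pool.Agent.GMF.Defs

/-!
GMF-Path: identities for the path.

PLAN.  xs_mul: coefficientwise (coefficient of t^(j+1) of xs x (1 - C d X) is xs_(j+1) - d xs_j, d = 4 (x-1);
xs_0 = x, xs_1 = 4 (x-1)(x-2), xs_1 - d x = 4 (x-1)(x-2) - 4 (x-1) x = -8 (x-1); later ones 0).
ks_add: KZ_add and PowerSeries.coeff_mul (Finset.Nat.sum_antidiagonal_eq_sum_range_succ).  ks_zero:
KZ_zero_right, KZ_zero_left.  ks_two: KZ_zero_right, KZ_self_one (KZ 2 2 1 = -4), KZ_self.  ks_two_mul:
induction on d.  path_one: (1 - xs x)(1 - C d X) = C (1-x) (1 - C 4 X), path_two: (2 - xs x)(1 - C d X) =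
C (2-x), from xs_mul.  path_eq: zs^2 (1 - 4X) = Z^2 (ks (-1)^2 ks 2 = ks 0 = 1); multiply the claim by
(1 - C d X) (a non zero divisor, PowerSeries ℤ is a domain, constant coefficient 1) :
left: zs^2 2 C(1-x) (1-4X) C(x-2) = C (Z^2 2 (1-x)(x-2)), right: C (2-x) C (x-2+x^n); equal by
2 (x-1) Z^2 = x^n + x - 2.
-/

namespace Pool.Agent.GMF

open Finset Polynomial Pool.Agent.NLG

theorem xs_mul (x : ℤ) : xs x * (1 - PowerSeries.C (4 * (x - 1)) * PowerSeries.X) =
    PowerSeries.C x - PowerSeries.C (8 * (x - 1)) * PowerSeries.X := by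
  have hrw : xs x * (1 - PowerSeries.C (4 * (x - 1)) * PowerSeries.X) =
      xs x - PowerSeries.C (4 * (x - 1)) * (xs x * PowerSeries.X) := by ring
  rw [hrw]
  ext n
  cases n with
  | zero =>
    rw [map_sub, map_sub, PowerSeries.coeff_C_mul, PowerSeries.coeff_C_mul,
      PowerSeries.coeff_zero_mul_X, PowerSeries.coeff_zero_X, PowerSeries.coeff_zero_C]
    simp [xs]
  | succ j =>
    rw [map_sub, map_sub, PowerSeries.coeff_C_mul, PowerSeries.coeff_C_mul,
      PowerSeries.coeff_succ_mul_X, PowerSeries.coeff_X, PowerSeries.coeff_C, if_neg (Nat.succ_ne_zero j)]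
    simp only [xs, PowerSeries.coeff_mk, Nat.succ_ne_zero, if_false, Nat.add_sub_cancel, add_eq_right]
    cases j with
    | zero =>
      simp
      ring
    | succ k =>
      simp only [Nat.succ_ne_zero, if_false, Nat.add_sub_cancel]
      rw [pow_succ]
      ring

theorem ks_add (i j : ℤ) : ks (i + j) = ks i * ks j := by
  ext s
  rw [PowerSeries.coeff_mul,
    Finset.Nat.sum_antidiagonal_eq_sum_range_succ (fun a b => PowerSeries.coeff a (ks i) * PowerSeries.coeff b (ks j))]
  simp only [ks, PowerSeries.coeff_mk]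
  exact KZ_add (by norm_num) i j s

theorem ks_zero : ks 0 = 1 := by
  ext s
  rw [PowerSeries.coeff_one]
  simp only [ks, PowerSeries.coeff_mk]
  split_ifs with h
  · rw [h]
    exact KZ_zero_right (by norm_num) 0
  · exact KZ_zero_left (by norm_num) (by omega)

theorem ks_two : ks 2 = 1 - PowerSeries.C 4 * PowerSeries.X := by
  ext s
  rw [map_sub, PowerSeries.coeff_one, PowerSeries.coeff_C_mul, PowerSeries.coeff_X]
  simp only [ks, PowerSeries.coeff_mk]
  rcases Nat.lt_or_ge s 2 with h | h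
  · have h2 : s = 0 ∨ s = 1 := by omega
    rcases h2 with rfl | rfl
    · rw [KZ_zero_right (by norm_num) 2]
      simp
    · have h3 := KZ_self_one (q := 2) (by norm_num)
      have h4 : ((2 : ℕ) : ℤ) = 2 := rfl
      rw [h4] at h3
      rw [h3]
      simp
  · have h3 := KZ_self (q := 2) (by norm_num) h
    have h4 : ((2 : ℕ) : ℤ) = 2 := rfl
    rw [h4] at h3
    rw [h3, if_neg (by omega), if_neg (by omega)]
    simp

theorem ks_two_mul (d : ℕ) (i : ℤ) :
    ks (2 * (d : ℤ) - i) = (1 - PowerSeries.C 4 * PowerSeries.X) ^ d * ks (-i) := by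
  induction d with
  | zero =>
    rw [pow_zero, one_mul]
    congr 1
    push_cast
    ring
  | succ d ih =>
    have h : (2 * ((d + 1 : ℕ) : ℤ) - i) = 2 + (2 * (d : ℤ) - i) := by
      push_cast
      ring
    rw [h, ks_add, ih, ks_two, pow_succ]
    ring

theorem path_eq {x Z : ℤ} {n : ℕ} (he : 2 * (x - 1) * Z ^ 2 = x ^ n + x - 2) :
    zs Z ^ 2 * (2 * (1 - xs x)) * PowerSeries.C (x - 2) =
      (2 - xs x) * PowerSeries.C (x - 2 + x ^ n) := by
  have hne : (1 - PowerSeries.C (4 * (x - 1)) * PowerSeries.X : PowerSeries ℤ) ≠ 0 := by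
    intro h
    have h1 := congrArg (PowerSeries.coeff 0) h
    rw [map_sub, PowerSeries.coeff_C_mul, PowerSeries.coeff_zero_X, mul_zero, sub_zero,
      PowerSeries.coeff_zero_one, map_zero] at h1
    exact one_ne_zero h1
  have hz : zs Z ^ 2 * (1 - PowerSeries.C 4 * PowerSeries.X) = PowerSeries.C (Z ^ 2) := by
    have h1 : ks (-1) * ks (-1) * ks 2 = 1 := by
      rw [← ks_add, ← ks_add]
      norm_num
      exact ks_zero
    rw [← ks_two]
    unfold zs
    rw [map_pow]
    calc (PowerSeries.C Z * ks (-1)) ^ 2 * ks 2 = PowerSeries.C Z ^ 2 * (ks (-1) * ks (-1) * ks 2) := by ring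
      _ = PowerSeries.C Z ^ 2 := by rw [h1, mul_one]
  have h1 : (1 - xs x) * (1 - PowerSeries.C (4 * (x - 1)) * PowerSeries.X) =
      PowerSeries.C (1 - x) * (1 - PowerSeries.C 4 * PowerSeries.X) := by
    have h := xs_mul x
    have e1 : (PowerSeries.C (4 * (x - 1)) : PowerSeries ℤ) = PowerSeries.C 4 * (PowerSeries.C x - 1) := by
      rw [map_mul, map_sub, map_one]
    have e2 : (PowerSeries.C (8 * (x - 1)) : PowerSeries ℤ) = 2 * (PowerSeries.C 4 * (PowerSeries.C x - 1)) := by
      rw [map_mul, map_sub, map_one, show (8 : ℤ) = 2 * 4 by norm_num, map_mul, map_ofNat]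
      ring
    have e3 : (PowerSeries.C (1 - x) : PowerSeries ℤ) = 1 - PowerSeries.C x := by
      rw [map_sub, map_one]
    rw [sub_mul, h, e1, e2, e3]
    ring
  have h2 : (2 - xs x) * (1 - PowerSeries.C (4 * (x - 1)) * PowerSeries.X) = PowerSeries.C (2 - x) := by
    have h := xs_mul x
    have e1 : (PowerSeries.C (4 * (x - 1)) : PowerSeries ℤ) = PowerSeries.C 4 * (PowerSeries.C x - 1) := by
      rw [map_mul, map_sub, map_one]
    have e2 : (PowerSeries.C (8 * (x - 1)) : PowerSeries ℤ) = 2 * (PowerSeries.C 4 * (PowerSeries.C x - 1)) := by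
      rw [map_mul, map_sub, map_one, show (8 : ℤ) = 2 * 4 by norm_num, map_mul, map_ofNat]
      ring
    have e3 : (PowerSeries.C (2 - x) : PowerSeries ℤ) = 2 - PowerSeries.C x := by
      rw [map_sub, map_ofNat]
    rw [sub_mul, h, e1, e2, e3]
    ring
  have h3 : (2 : PowerSeries ℤ) * PowerSeries.C (Z ^ 2) * PowerSeries.C (1 - x) * PowerSeries.C (x - 2) =
      PowerSeries.C (2 - x) * PowerSeries.C (x - 2 + x ^ n) := by
    have h4 : (2 : PowerSeries ℤ) = PowerSeries.C 2 := by rw [map_ofNat]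
    rw [h4, ← map_mul, ← map_mul, ← map_mul, ← map_mul]
    congr 1
    linear_combination (2 - x) * he
  apply mul_right_cancel₀ hne
  calc zs Z ^ 2 * (2 * (1 - xs x)) * PowerSeries.C (x - 2) *
        (1 - PowerSeries.C (4 * (x - 1)) * PowerSeries.X)
      = zs Z ^ 2 * 2 * ((1 - xs x) * (1 - PowerSeries.C (4 * (x - 1)) * PowerSeries.X)) *
        PowerSeries.C (x - 2) := by ring
    _ = 2 * (zs Z ^ 2 * (1 - PowerSeries.C 4 * PowerSeries.X)) * PowerSeries.C (1 - x) *
        PowerSeries.C (x - 2) := by rw [h1]; ring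
    _ = PowerSeries.C (2 - x) * PowerSeries.C (x - 2 + x ^ n) := by rw [hz, h3]
    _ = (2 - xs x) * (1 - PowerSeries.C (4 * (x - 1)) * PowerSeries.X) *
        PowerSeries.C (x - 2 + x ^ n) := by rw [h2]
    _ = (2 - xs x) * PowerSeries.C (x - 2 + x ^ n) *
        (1 - PowerSeries.C (4 * (x - 1)) * PowerSeries.X) := by ring

end Pool.Agent.GMF
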