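import Pool.Agent.GMF.Br
import Pool.Agent.GMF.BrVan
import Pool.Agent.GMF.Path

/-!
GMF-DivA: a ring homomorphism under which the path is nilpotent kills `Phi`.

The image of the path satisfies the hypotheses of `br_sqrt` and `br_van`, and `φ (Phi)` is
`φ (C (x - 2)) ^ (B - 1)` times the form which vanishes by `br_van`.
-/

namespace Pool.Agent.GMF

open Finset Polynomial Pool.Agent.NLG

private theorem DivA_aeval {R : Type*} [CommRing R] (φ : PowerSeries ℤ →+* R) (t : PowerSeries ℤ) (p : ℤ[X]) :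
    φ (aeval t p) = aeval (φ t) p := by
  rw [Polynomial.aeval_def, Polynomial.aeval_def, Polynomial.hom_eval₂,
    RingHom.ext_int (φ.comp (algebraMap ℤ (PowerSeries ℤ))) (algebraMap ℤ R)]

theorem phi_zero {R : Type*} [CommRing R] (φ : PowerSeries ℤ →+* R) {n N B : ℕ} (hn : 1 ≤ n)
    (hN : 1 ≤ N) {P : ℕ → ℕ → ℤ[X]} (hB : ∀ i b, B ≤ b → P i b = 0) (hV : VanM n N P) {x Z : ℤ}
    (he : 2 * (x - 1) * Z ^ 2 = x ^ n + x - 2) {c e : R} (hc : c * 2 = 1)
    (he2 : e * φ (PowerSeries.C (x - 2)) = 1)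
    (hnil : ∀ s b, N ≤ s + n * b → φ (xs x) ^ s * (φ (PowerSeries.C (x ^ n)) * e) ^ b = 0)
    (hu : IsUnit (φ (zs Z) + 1)) : φ (Phi n B P x Z) = 0 := by
  have hξ : φ (xs x) ^ N = 0 := by
    have h1 := hnil N 0 (by omega)
    rwa [pow_zero, mul_one] at h1
  have hv : (φ (PowerSeries.C (x ^ n)) * e) ^ N = 0 := by
    have h1 := hnil 0 N (by
      have := Nat.le_mul_of_pos_left N hn
      omega)
    rwa [pow_zero, one_mul] at h1
  have hζ : φ (zs Z) ^ 2 * (2 * (1 - φ (xs x))) = (2 - φ (xs x)) * (1 + φ (PowerSeries.C (x ^ n)) * e) := by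
    have h1 := congrArg φ (path_eq he)
    have a1 : φ (2 * (1 - xs x)) = 2 * (1 - φ (xs x)) := by
      rw [map_mul, map_sub, map_one, map_ofNat]
    have a2 : φ (2 - xs x) = 2 - φ (xs x) := by rw [map_sub, map_ofNat]
    have a3 : φ (PowerSeries.C (x - 2 + x ^ n)) = φ (PowerSeries.C (x - 2)) + φ (PowerSeries.C (x ^ n)) := by
      rw [map_add, map_add]
    rw [map_mul φ (zs Z ^ 2 * (2 * (1 - xs x))), map_mul φ (zs Z ^ 2), map_mul φ (2 - xs x), map_pow,
      a1, a2, a3] at h1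
    calc φ (zs Z) ^ 2 * (2 * (1 - φ (xs x)))
        = (φ (zs Z) ^ 2 * (2 * (1 - φ (xs x))) * φ (PowerSeries.C (x - 2))) * e := by
          rw [mul_assoc _ (φ (PowerSeries.C (x - 2))) e, mul_comm (φ (PowerSeries.C (x - 2))) e, he2, mul_one]
      _ = (2 - φ (xs x)) * (e * φ (PowerSeries.C (x - 2)) + φ (PowerSeries.C (x ^ n)) * e) := by
          rw [h1]
          ring
      _ = _ := by rw [he2]
  have hζe := br_sqrt hN hc hξ hv hζ hu
  have h0 := br_van hn hN hB hV hc hnil hζe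
  have h1 : φ (Phi n B P x Z) = φ (PowerSeries.C (x - 2)) ^ (B - 1) *
      ∑ b ∈ range B, (φ (PowerSeries.C (x ^ n)) * e) ^ b *
        (aeval (φ (xs x)) (P 0 b) + φ (zs Z) * aeval (φ (xs x)) (P 1 b)) := by
    rw [Phi, map_sum, mul_sum]
    refine sum_congr rfl fun b hb => ?_
    have hb' : b ≤ B - 1 := by
      have := mem_range.1 hb
      omega
    have b1 : φ (PowerSeries.C (x ^ (n * b) * (x - 2) ^ (B - 1 - b))) =
        φ (PowerSeries.C (x ^ n)) ^ b * φ (PowerSeries.C (x - 2)) ^ (B - 1 - b) := by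
      rw [pow_mul, map_mul, map_mul, map_pow PowerSeries.C (x ^ n), map_pow φ,
        map_pow PowerSeries.C (x - 2), map_pow φ]
    have b2 : φ (aeval (xs x) (P 0 b) + zs Z * aeval (xs x) (P 1 b)) =
        aeval (φ (xs x)) (P 0 b) + φ (zs Z) * aeval (φ (xs x)) (P 1 b) := by
      rw [map_add, map_mul, DivA_aeval, DivA_aeval]
    rw [map_mul, b1, b2]
    have h2 : φ (PowerSeries.C (x - 2)) ^ (B - 1) = φ (PowerSeries.C (x - 2)) ^ (B - 1 - b) *
        φ (PowerSeries.C (x - 2)) ^ b := by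
      rw [← pow_add]
      congr 1
      omega
    have h3 : φ (PowerSeries.C (x - 2)) ^ b * e ^ b = 1 := by
      rw [← mul_pow, mul_comm, he2, one_pow]
    rw [h2, mul_pow]
    calc _ = φ (PowerSeries.C (x ^ n)) ^ b * φ (PowerSeries.C (x - 2)) ^ (B - 1 - b) *
        (φ (PowerSeries.C (x - 2)) ^ b * e ^ b) *
        (aeval (φ (xs x)) (P 0 b) + φ (zs Z) * aeval (φ (xs x)) (P 1 b)) := by rw [h3, mul_one]
      _ = _ := by ring
  rw [h1, h0, mul_zero]

end Pool.Agent.GMF
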