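import Mathlib

/-!
GMF-Red: the parameter `a` of the prime power description is `1` in the three families, and `a = 1` gives a
solution of `(x - 1) 2 ^ c + 2 = x ^ N + x`.
-/

namespace Pool.Agent.GMF

open Finset

/-- `a = 1`. -/
theorem red_one {p r t c b x y : ℕ} (hp : p.Prime) (ht : 1 ≤ t) (htr : 2 * t ≤ r)
    (hab : 1 + b = p ^ t) (hxy : x + y = 2 ^ (c - 1)) (hc : 1 ≤ c) (h1 : x = b * y + 1)
    (h2 : x + b * y = p ^ r) : ∃ N : ℕ, 3 ≤ N ∧ p ^ (r + t) = (p ^ t) ^ N ∧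
      (p ^ t - 1) * 2 ^ c + 2 = (p ^ t) ^ N + p ^ t := by
  have hdvd : p ^ t - 1 ∣ p ^ r - 1 := ⟨2 * y, by
    have : p ^ t - 1 = b := by omega
    rw [this]
    have h3 : b * (2 * y) = 2 * (b * y) := by ring
    omega⟩
  have hp1 : 1 < p := hp.one_lt
  have htr' : t ∣ r := by
    have h3 : p ^ r % (p ^ t - 1) = p ^ (r % t) % (p ^ t - 1) := by
      conv_lhs => rw [← Nat.div_add_mod r t, pow_add, pow_mul]
      have h4 : (p ^ t) ^ (r / t) ≡ 1 [MOD (p ^ t - 1)] := by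
        have h5 : p ^ t ≡ 1 [MOD (p ^ t - 1)] := by
          have h6 : 1 ≤ p ^ t := Nat.one_le_pow _ _ (by omega)
          exact (Nat.modEq_iff_dvd' h6).2 (dvd_refl _) |>.symm
        have h7 := h5.pow (r / t)
        rwa [one_pow] at h7
      have h8 := h4.mul_right (p ^ (r % t))
      rw [one_mul] at h8
      exact h8
    have h9 : p ^ r ≡ 1 [MOD (p ^ t - 1)] := by
      have h6 : 1 ≤ p ^ r := Nat.one_le_pow _ _ (by omega)
      exact ((Nat.modEq_iff_dvd' h6).2 hdvd).symm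
    have h10 : p ^ (r % t) ≡ 1 [MOD (p ^ t - 1)] := by
      have h11 : p ^ r ≡ p ^ (r % t) [MOD (p ^ t - 1)] := h3
      exact h11.symm.trans h9
    have h12 : p ^ t - 1 ∣ p ^ (r % t) - 1 := by
      have h6 : 1 ≤ p ^ (r % t) := Nat.one_le_pow _ _ (by omega)
      exact (Nat.modEq_iff_dvd' h6).1 h10.symm
    have h13 : p ^ (r % t) < p ^ t := Nat.pow_lt_pow_right hp1 (Nat.mod_lt _ (by omega))
    have h14 : p ^ (r % t) - 1 = 0 := by
      refine Nat.eq_zero_of_dvd_of_lt h12 ?_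
      have h6 : 1 ≤ p ^ (r % t) := Nat.one_le_pow _ _ (by omega)
      omega
    have h15 : r % t = 0 := by
      by_contra hne
      have h16 : 1 < p ^ (r % t) := Nat.one_lt_pow hne hp1
      omega
    exact Nat.dvd_of_mod_eq_zero h15
  obtain ⟨s, hs⟩ := htr'
  refine ⟨s + 1, ?_, ?_, ?_⟩
  · by_contra hlt
    have h17 : s ≤ 1 := by omega
    have h18 : t * s ≤ t * 1 := Nat.mul_le_mul_left t h17
    omega
  · rw [← pow_mul, hs, mul_add, mul_one]
  · have h19 : (p ^ t) ^ (s + 1) = p ^ r * p ^ t := by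
      rw [← pow_mul, hs, mul_add, mul_one, pow_add]
    have h20 : 2 ^ c = 2 * 2 ^ (c - 1) := by
      rw [← pow_succ']
      congr 1
      omega
    have h21 : p ^ t - 1 = b := by omega
    rw [h19, h20, h21, ← hab, ← h2, ← hxy, h1]
    ring

/-- If `p ^ t` is a prime, `a = 1`. -/
theorem red_prime {p r t c a b x y : ℕ} (hp : p.Prime) (hp2 : p ≠ 2) (ht : t = 1) (hr : 9 ≤ r ∨ p ≠ 3)
    (hb : p ≠ 3 → (p - 1) ∣ b) (hab : a + b = p ^ t) (hxy : x + y = 2 ^ (c - 1)) (hc : 1 ≤ c)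
    (h1 : a * x = b * y + 1) (h2 : a * x + b * y = p ^ r) : a = 1 := by
  subst ht
  rw [pow_one] at hab
  have ha0 : a ≠ 0 := by
    rintro rfl
    omega
  have hb0 : b ≠ 0 := by
    rintro rfl
    have h3 : a * x = 1 := by omega
    have h4 := Nat.eq_one_of_mul_eq_one_right h3
    have := hp.one_lt
    omega
  by_cases hp3 : p = 3
  · subst hp3
    have hr9 : 9 ≤ r := by
      rcases hr with h | h
      · exact h
      · exact absurd rfl h
    have hcases : a = 1 ∨ (a = 2 ∧ b = 1) := by omega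
    rcases hcases with h | ⟨rfl, rfl⟩
    · exact h
    · exfalso
      have h5 : 3 ^ (r + 1) = 2 ^ (c + 1) + 1 := by
        have h6 : 2 ^ (c + 1) = 4 * 2 ^ (c - 1) := by
          have : c + 1 = (c - 1) + 2 := by omega
          rw [this, pow_add]
          ring
        rw [h6, ← hxy, pow_succ, ← h2]
        omega
      rcases Nat.even_or_odd (r + 1) with hev | hodd
      · obtain ⟨u, hu⟩ := hev
        have hu5 : 5 ≤ u := by omega
        have h7 : (3 ^ u - 1) * (3 ^ u + 1) = 2 ^ (c + 1) := by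
          have h8 : 1 ≤ 3 ^ u := Nat.one_le_pow _ _ (by norm_num)
          have h9 : 3 ^ (r + 1) = 3 ^ u * 3 ^ u := by rw [hu, pow_add]
          zify [h8]
          zify at h5 h9
          linear_combination h5 - h9
        have h10 : 3 ^ u - 1 ∣ 2 ^ (c + 1) := ⟨_, h7.symm⟩
        have h11 : 3 ^ u + 1 ∣ 2 ^ (c + 1) := ⟨3 ^ u - 1, by rw [← h7, mul_comm]⟩
        obtain ⟨i, -, hi⟩ := (Nat.dvd_prime_pow Nat.prime_two).1 h10
        obtain ⟨j, -, hj⟩ := (Nat.dvd_prime_pow Nat.prime_two).1 h11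
        have h12 : 3 ^ 5 ≤ 3 ^ u := Nat.pow_le_pow_right (by norm_num) hu5
        have h13 : 2 ^ j = 2 ^ i + 2 := by omega
        have hi3 : 3 ≤ i := by
          by_contra hlt
          have h14 : 2 ^ i ≤ 2 ^ 2 := Nat.pow_le_pow_right (by norm_num) (by omega)
          omega
        have hj3 : 3 ≤ j := by
          by_contra hlt
          have h14 : 2 ^ j ≤ 2 ^ 2 := Nat.pow_le_pow_right (by norm_num) (by omega)
          omega
        have h15 : 4 ∣ 2 ^ i := (pow_dvd_pow 2 (by omega : 2 ≤ i))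
        have h16 : 4 ∣ 2 ^ j := (pow_dvd_pow 2 (by omega : 2 ≤ j))
        omega
      · obtain ⟨u, hu⟩ := hodd
        have h17 : 3 ^ (r + 1) % 8 = 3 := by
          rw [hu, pow_succ, pow_mul, Nat.mul_mod, Nat.pow_mod]
          norm_num
        have h18 : 2 ≤ c := by
          by_contra hlt
          have h19 : 2 ^ (c + 1) ≤ 2 ^ 2 := Nat.pow_le_pow_right (by norm_num) (by omega)
          have h20 : 3 ^ 10 ≤ 3 ^ (r + 1) := Nat.pow_le_pow_right (by norm_num) (by omega)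
          omega
        have h21 : 8 ∣ 2 ^ (c + 1) := (pow_dvd_pow 2 (by omega : 3 ≤ c + 1))
        omega
  · have h22 := hb hp3
    have h23 := Nat.le_of_dvd (by omega) h22
    have := hp.one_lt
    omega

/-- If `k` or `v - k` is `(2 ^ c - 1) p ^ r`, then `a = 1`. -/
theorem red_k {p r t c a b k : ℕ} (hp : p.Prime) (hc : 2 ≤ c) (hab : a + b = p ^ t)
    (hk : k = p ^ r * (2 ^ c * b + 1) ∨ 2 ^ c * p ^ (r + t) - k = p ^ r * (2 ^ c * b + 1))
    (hkv : k ≤ 2 ^ c * p ^ (r + t))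
    (h : k = (2 ^ c - 1) * p ^ r ∨ 2 ^ c * p ^ (r + t) - k = (2 ^ c - 1) * p ^ r) : a = 1 := by
  have hpr : 0 < p ^ r := pow_pos hp.pos _
  have h2c : 4 ∣ 2 ^ c := (pow_dvd_pow 2 hc)
  have h2c0 : 0 < 2 ^ c := by positivity
  have key1 : ¬ p ^ r * (2 ^ c * b + 1) = (2 ^ c - 1) * p ^ r := by
    intro h3
    have h4 : 2 ^ c * b + 1 = 2 ^ c - 1 := by
      rw [mul_comm] at h3
      exact Nat.eq_of_mul_eq_mul_right hpr h3
    obtain ⟨d, hd⟩ := h2c
    have h5 : 2 ^ c * b = 4 * (d * b) := by rw [hd]; ring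
    omega
  have key2 : 2 ^ c * p ^ (r + t) = p ^ r * (2 ^ c * b + 1) + (2 ^ c - 1) * p ^ r → a = 1 := by
    intro h3
    have h4 : 2 ^ c * p ^ (r + t) = p ^ r * (2 ^ c * (a + b)) := by
      rw [hab, pow_add]
      ring
    rw [h4] at h3
    have h5 : p ^ r * (2 ^ c * (a + b)) = p ^ r * ((2 ^ c * b + 1) + (2 ^ c - 1)) := by
      rw [h3]
      ring
    have h6 := Nat.eq_of_mul_eq_mul_left hpr h5
    have h7 : 2 ^ c * (a + b) = 2 ^ c * (b + 1) := by
      rw [h6, mul_add, mul_one]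
      omega
    have h8 := Nat.eq_of_mul_eq_mul_left h2c0 h7
    omega
  rcases hk with hk | hk <;> rcases h with h | h
  · exact absurd (hk.symm.trans h) key1
  · exact key2 (by omega)
  · exact key2 (by omega)
  · exact absurd (hk.symm.trans h) key1

/-- McFarland's parameters: `1 + q + ... + q ^ s` is `2 ^ c - 1`. -/
theorem red_mcf {p r t c q s : ℕ} (hp : p.Prime) (hp2 : p ≠ 2) (hr : 1 ≤ r) (hs : 1 ≤ s)
    (hn : p ^ (2 * r) = q ^ (2 * s))
    (hv : 2 ^ c * p ^ (r + t) = q ^ (s + 1) * (1 + ∑ i ∈ range (s + 1), q ^ i)) :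
    q = p ^ t ∧ p ^ r = q ^ s ∧ 2 ^ c = 1 + ∑ i ∈ range (s + 1), q ^ i := by
  have h1 : p ^ r = q ^ s := by
    rw [mul_comm 2 r, mul_comm 2 s, pow_mul, pow_mul] at hn
    exact Nat.pow_left_injective (by norm_num) hn
  have hq0 : q ≠ 0 := by
    rintro rfl
    rw [zero_pow (by omega)] at h1
    have := pow_pos hp.pos r
    omega
  have hqp : p ∣ q := by
    have h2 : p ∣ q ^ s := by
      rw [← h1]
      exact dvd_pow_self p (by omega)
    exact hp.dvd_of_dvd_pow h2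
  have hsum : (∑ i ∈ range (s + 1), q ^ i) = 1 + q * ∑ i ∈ range s, q ^ i := by
    rw [sum_range_succ', pow_zero, add_comm, mul_sum]
    congr 1
    refine sum_congr rfl fun i _ => ?_
    rw [pow_succ']
  have hcop : ¬ p ∣ 1 + ∑ i ∈ range (s + 1), q ^ i := by
    rw [hsum]
    intro h3
    have h4 : p ∣ q * ∑ i ∈ range s, q ^ i := hqp.mul_right _
    have h5 : p ∣ 2 := by
      have h6 : 1 + (1 + q * ∑ i ∈ range s, q ^ i) = 2 + q * ∑ i ∈ range s, q ^ i := by ring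
      rw [h6] at h3
      exact (Nat.dvd_add_left h4).1 h3
    exact hp2 ((Nat.prime_dvd_prime_iff_eq hp Nat.prime_two).1 h5)
  have h7 : 2 ^ c * p ^ t = q * (1 + ∑ i ∈ range (s + 1), q ^ i) := by
    have h8 : q ^ s * (2 ^ c * p ^ t) = q ^ s * (q * (1 + ∑ i ∈ range (s + 1), q ^ i)) := by
      rw [← mul_assoc (q ^ s) q, ← pow_succ, ← hv, pow_add, h1]
      ring
    exact Nat.eq_of_mul_eq_mul_left (pow_pos (Nat.pos_of_ne_zero hq0) s) h8
  have hc2 : Nat.Coprime q (2 ^ c) := by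
    have h9 : q ∣ p ^ r := by
      rw [h1]
      exact dvd_pow_self q (by omega)
    refine Nat.Coprime.coprime_dvd_left h9 ?_
    refine Nat.Coprime.pow _ _ ?_
    exact (Nat.coprime_primes hp Nat.prime_two).2 hp2
  have h10 : q ∣ p ^ t := by
    refine hc2.dvd_of_dvd_mul_left ?_
    exact ⟨_, h7⟩
  have h11 : p ^ t ∣ q := by
    have h12 : Nat.Coprime (p ^ t) (1 + ∑ i ∈ range (s + 1), q ^ i) := by
      refine Nat.Coprime.pow_left _ ?_
      exact (Nat.Prime.coprime_iff_not_dvd hp).2 hcop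
    refine h12.dvd_of_dvd_mul_right ?_
    rw [← h7]
    exact Dvd.intro_left _ rfl
  have h13 : q = p ^ t := Nat.dvd_antisymm h10 h11
  refine ⟨h13, h1, ?_⟩
  rw [← h13, mul_comm] at h7
  exact Nat.eq_of_mul_eq_mul_left (Nat.pos_of_ne_zero hq0) h7

/-- The relation between `a`, `b` and the parameters. -/
theorem red_abc {p r t c a b x y : ℕ} (hab : a + b = p ^ t) (hxy : x + y = 2 ^ (c - 1))
    (hc : 1 ≤ c) (h1 : a * x = b * y + 1) (h2 : a * x + b * y = p ^ r) :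
    a * b * 2 ^ c + a = p ^ (r + t) + b := by
  have h20 : 2 ^ c = 2 * 2 ^ (c - 1) := by
    rw [← pow_succ']
    congr 1
    omega
  rw [h20, ← hxy, pow_add, ← h2, ← hab]
  zify at h1 ⊢
  linear_combination ((b : ℤ) - a) * h1

/-- McFarland's parameters: `a = 1`. -/
theorem red_mcf_one {p r t c q s a b x y : ℕ} (hp : p.Prime) (hp2 : p ≠ 2) (hr : 1 ≤ r)
    (hs : 1 ≤ s) (hn : p ^ (2 * r) = q ^ (2 * s))
    (hv : 2 ^ c * p ^ (r + t) = q ^ (s + 1) * (1 + ∑ i ∈ range (s + 1), q ^ i))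
    (hab : a + b = p ^ t) (hxy : x + y = 2 ^ (c - 1)) (hc : 1 ≤ c) (h1 : a * x = b * y + 1)
    (h2 : a * x + b * y = p ^ r) (ha : 1 ≤ a) (hb : 1 ≤ b) : a = 1 := by
  obtain ⟨h3, h4, h5⟩ := red_mcf hp hp2 hr hs hn hv
  have h6 := red_abc hab hxy hc h1 h2
  have h7 : p ^ (r + t) = q ^ (s + 1) := by
    rw [pow_add, h4, ← h3, pow_succ]
  have h9 : (q - 1) * ∑ i ∈ range (s + 1), q ^ i + 1 = q ^ (s + 1) := by
    have h10 := geom_sum_mul_of_one_le (x := q) (by rw [h3, ← hab]; omega) (s + 1)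
    have h11 : 1 ≤ q ^ (s + 1) := Nat.one_le_pow _ _ (by rw [h3, ← hab]; omega)
    rw [mul_comm, h10]
    omega
  rw [h7, ← h9] at h6
  obtain ⟨a', rfl⟩ : ∃ a', a = a' + 1 := ⟨a - 1, by omega⟩
  obtain ⟨b', rfl⟩ : ∃ b', b = b' + 1 := ⟨b - 1, by omega⟩
  have h12 : q - 1 = a' + b' + 1 := by omega
  rw [h12] at h6
  have h13 : ∑ i ∈ range (s + 1), q ^ i = 2 ^ c - 1 := by omega
  have h14 : 1 ≤ 2 ^ c := Nat.one_le_pow _ _ (by norm_num)
  rw [h13] at h6
  zify [h14] at h6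
  have h15 : ((a' : ℤ)) * (2 ^ c * b' + 2) = 0 := by
    linear_combination h6
  rcases mul_eq_zero.1 h15 with h16 | h16
  · have : a' = 0 := by exact_mod_cast h16
    omega
  · exfalso
    have : (0 : ℤ) ≤ 2 ^ c * b' := by positivity
    linarith

end Pool.Agent.GMF
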