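import Pool.Agent.GMF.Goo
import Pool.Agent.GMF.Red
import Pool.Agent.DSP.Main

/-!
GMF-Fin: finitely many parameters.
-/

namespace Pool.Agent.GMF

open Finset

/-- There is a bound for `v` in the three families. -/
theorem bound_v : ∃ B : ℕ, ∀ (G : Type) [AddCommGroup G] [Fintype G] [DecidableEq G]
    (D : Finset G) (v k lam m : ℕ), Fintype.card G = v → D.card = k →
    (∀ g : G, g ≠ 0 → ((D ×ˢ D).filter fun x => x.1 - x.2 = g).card = lam) →
    (∃ a : G, D.image (fun d => -d) = D.image (fun d => d + a)) →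
    1 < k → k < v - 1 → v ≠ 4 * (k - lam) → k - lam = m ^ 2 →
    ((∃ p c, Nat.Prime p ∧ v = 2 ^ c * p * m) ∨
      (∃ c, 2 ^ c ∣ v ∧ ¬ 2 ^ (c + 1) ∣ v ∧ (k = (2 ^ c - 1) * m ∨ v - k = (2 ^ c - 1) * m)) ∨
      (∃ q s, IsPrimePow q ∧ 1 ≤ s ∧ m = q ^ s ∧
        v = q ^ (s + 1) * (1 + ∑ i ∈ range (s + 1), q ^ i))) →
    v ≤ B := by
  obtain ⟨M, hM⟩ := (goo_finite.image fun t : ℕ × ℕ => (t.1 ^ t.2 + t.1) * t.1 ^ t.2).bddAbove
  refine ⟨M + 4000, ?_⟩
  intro G _ _ _ D v k lam m hv hk hD hneg h1 h2 h4n hm hcase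
  rcases Pool.Agent.DSP.main D v k lam (k - lam) hv hk rfl hD hneg h1 h2 with h | h | h | h
  · exact absurd h.1 h4n
  · have := congrArg Prod.fst h
    simp only at this
    omega
  · have := congrArg Prod.fst h
    simp only at this
    omega
  · obtain ⟨p, r, t, c, a, b, x, y, hp, hp2, hn, hvc, hkc, -, hr6, -, ht1, htr, h4p, hpb, -, hp3,
      hab, hxy, hax, haxy, -⟩ := h
    have hm' : m = p ^ r := by
      have h5 : m ^ 2 = (p ^ r) ^ 2 := by
        rw [← hm, hn, ← pow_mul, mul_comm]
      exact Nat.pow_left_injective (by norm_num) h5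
    have hpos : 0 < p ^ (r - t) := pow_pos hp.pos _
    have hc3 : 3 ≤ c := by
      by_contra hlt
      have h6 : 2 ^ c ≤ 2 ^ 2 := Nat.pow_le_pow_right (by norm_num) (by omega)
      omega
    have hcop : Nat.Coprime 2 p := (Nat.coprime_primes Nat.prime_two hp).2 hp2.symm
    have ha : a = 1 := by
      rcases hcase with ⟨q, e, hq, hvq⟩ | ⟨e, he1, he2, hke⟩ | ⟨q, s, hq, hs, hms, hvs⟩
      · have h7 : 2 ^ c * p ^ t = 2 ^ e * q := by
          have h8 : p ^ r * (2 ^ c * p ^ t) = p ^ r * (2 ^ e * q) := by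
            rw [← hm', mul_comm m (2 ^ e * q), ← hvq, hvc, hm', pow_add]
            ring
          exact Nat.eq_of_mul_eq_mul_left (pow_pos hp.pos r) h8
        have h9 : q = p := by
          have h10 : p ∣ 2 ^ e * q := by
            rw [← h7]
            exact Dvd.dvd.mul_left (dvd_pow_self p (by omega)) _
          rcases (Nat.Prime.dvd_mul hp).1 h10 with h11 | h11
          · exact absurd ((Nat.prime_dvd_prime_iff_eq hp Nat.prime_two).1 (hp.dvd_of_dvd_pow h11)) hp2
          · exact ((Nat.prime_dvd_prime_iff_eq hp hq).1 h11).symm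
        have ht : t = 1 := by
          rw [h9] at h7
          have h12 : p ^ t ∣ p := by
            have h13 : p ^ t ∣ 2 ^ e * p := by
              rw [← h7]
              exact Dvd.intro_left _ rfl
            exact Nat.Coprime.dvd_of_dvd_mul_left (Nat.Coprime.pow _ _ hcop.symm) h13
          by_contra hne
          have h14 : p ^ 2 ≤ p ^ t := Nat.pow_le_pow_right hp.pos (by omega)
          have h15 : p ^ t ≤ p := Nat.le_of_dvd hp.pos h12
          have h16 := hp.one_lt
          nlinarith
        refine red_prime hp hp2 ht ?_ (fun h => (hpb h).2) hab hxy (by omega) hax haxy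
        by_cases h3 : p = 3
        · exact Or.inl (hp3 h3)
        · exact Or.inr h3
      · have hec : e = c := by
          have h7 : e ≤ c := by
            have h8 : 2 ^ e ∣ 2 ^ c := by
              rw [hvc] at he1
              exact Nat.Coprime.dvd_of_dvd_mul_right (Nat.Coprime.pow _ _ hcop) he1
            exact (Nat.pow_dvd_pow_iff_le_right (by norm_num)).1 h8
          by_contra hne
          apply he2
          rw [hvc]
          exact (pow_dvd_pow 2 (by omega)).mul_right _
        subst hec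
        refine red_k (r := r) (k := k) (c := e) hp (le_trans (by norm_num) hc3) hab ?_ ?_ ?_
        · rw [← hvc]
          exact hkc
        · rw [← hvc]
          exact (h2.trans_le (Nat.sub_le _ _)).le
        · rw [← hvc, ← hm']
          exact hke
      · have h7 : p ^ (2 * r) = q ^ (2 * s) := by
          rw [mul_comm 2 r, mul_comm 2 s, pow_mul, pow_mul, ← hm', hms]
        have ha1 : 1 ≤ a := by
          rcases Nat.eq_zero_or_pos a with h8 | h8
          · rw [h8, zero_mul] at hax
            exact absurd hax.symm (Nat.succ_ne_zero _)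
          · exact h8
        have hb1 : 1 ≤ b := by
          rcases Nat.eq_zero_or_pos b with h8 | h8
          · rw [h8, zero_mul, zero_add] at hax
            have h9 := Nat.eq_one_of_mul_eq_one_right hax
            rw [h8, h9, add_zero] at hab
            have h10 : 1 < p ^ t := Nat.one_lt_pow (Nat.one_le_iff_ne_zero.1 ht1) hp.one_lt
            rw [← hab] at h10
            exact absurd h10 (lt_irrefl _)
          · exact h8
        exact red_mcf_one hp hp2 (le_trans (by norm_num) hr6) hs h7 (by rw [← hvc, hvs]) hab hxy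
          (le_trans (by norm_num) hc3) hax haxy ha1 hb1
    subst ha
    obtain ⟨N, hN3, hN1, hN2⟩ := red_one hp ht1 htr hab hxy (by omega)
      (by rw [one_mul] at hax; exact hax) (by rw [one_mul] at haxy; exact haxy)
    have hodd : Odd (p ^ t) := (hp.odd_of_ne_two hp2).pow
    have hmem : (p ^ t, N) ∈ {t : ℕ × ℕ | IsPrimePow t.1 ∧ Odd t.1 ∧ 3 ≤ t.2 ∧
        ∃ c : ℕ, (t.1 - 1) * 2 ^ c + 2 = t.1 ^ t.2 + t.1} :=
      ⟨hp.isPrimePow.pow (by omega), hodd, hN3, c, hN2⟩
    have hle := hM (Set.mem_image_of_mem _ hmem)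
    simp only at hle
    have h2le : 2 ^ c ≤ (p ^ t) ^ N + p ^ t := by
      have h8 : 1 ≤ p ^ t - 1 := by
        have : p ^ 1 ≤ p ^ t := Nat.pow_le_pow_right hp.pos ht1
        have := hp.one_lt
        rw [pow_one] at *
        omega
      have h9 : 1 * 2 ^ c ≤ (p ^ t - 1) * 2 ^ c := Nat.mul_le_mul_right _ h8
      omega
    have h10 : v ≤ ((p ^ t) ^ N + p ^ t) * (p ^ t) ^ N := by
      rw [hvc, hN1]
      exact Nat.mul_le_mul_right _ h2le
    omega

end Pool.Agent.GMF
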