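import Pool.Agent.GMF.Defs

/-!
GMF-Kern: the size of the kernels `gk`, `hk`.

The values at 0 follow from `KZ_zero_right`.  `abs_KZ_le` gives `|KZ 2 j m| ≤ 4 ^ m` for `j = 1, -1`, so
`|gk m| ≤ ∑ j ≤ m, 4^j 4^(m-j) 2^(m-j) = 4^m (2^(m+1) - 1) ≤ 2 8^m`.
-/

namespace Pool.Agent.GMF

open Finset Polynomial Pool.Agent.NLG

private theorem Kern_abs {j : ℤ} (hj : |j| ≤ 1) (m : ℕ) : |KZ 2 j m| ≤ 4 ^ m := by
  have h1 : |j| ≤ ((2 : ℕ) : ℤ) := hj.trans (by norm_num)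
  have h2 := abs_KZ_le (q := 2) (by norm_num) h1 m
  have h3 : (((2 : ℕ) : ℤ)) ^ (2 * m) = 4 ^ m := by
    rw [pow_mul]
    norm_num
  rwa [h3] at h2

private theorem Kern_geo (n : ℕ) : ∑ j ∈ range n, (2 : ℤ) ^ j = 2 ^ n - 1 := by
  induction n with
  | zero => simp
  | succ n ih =>
    rw [sum_range_succ, ih, pow_succ]
    ring

theorem gk_zero : gk 0 = 1 := by
  unfold gk
  rw [zero_add, sum_range_one, KZ_zero_right (by norm_num), Nat.sub_self, KZ_zero_right (by norm_num)]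
  norm_num

theorem hk_zero : hk 0 = 1 := by
  unfold hk
  rw [KZ_zero_right (by norm_num)]
  norm_num

theorem abs_gk_le (m : ℕ) : |gk m| ≤ 2 * 8 ^ m := by
  unfold gk
  refine (abs_sum_le_sum_abs _ _).trans ?_
  have h1 : ∀ j ∈ range (m + 1), |KZ 2 1 j * KZ 2 (-1) (m - j) * 2 ^ (m - j)| ≤ 4 ^ m * 2 ^ (m - j) := by
    intro j hj
    have hjm : j ≤ m := Nat.lt_succ_iff.1 (mem_range.1 hj)
    rw [abs_mul, abs_mul]
    have h2 : |(2 : ℤ) ^ (m - j)| = 2 ^ (m - j) := abs_of_nonneg (by positivity)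
    rw [h2]
    refine mul_le_mul_of_nonneg_right ?_ (by positivity)
    calc |KZ 2 1 j| * |KZ 2 (-1) (m - j)| ≤ 4 ^ j * 4 ^ (m - j) :=
          mul_le_mul (Kern_abs (by norm_num) j) (Kern_abs (by norm_num) (m - j)) (abs_nonneg _) (by positivity)
      _ = 4 ^ m := by rw [← pow_add, Nat.add_sub_cancel' hjm]
  refine (sum_le_sum h1).trans ?_
  rw [← mul_sum]
  have h3 : ∑ j ∈ range (m + 1), (2 : ℤ) ^ (m - j) = ∑ j ∈ range (m + 1), (2 : ℤ) ^ j :=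
    sum_range_reflect (fun j => (2 : ℤ) ^ j) (m + 1)
  rw [h3, Kern_geo]
  have h4 : (8 : ℤ) ^ m = 4 ^ m * 2 ^ m := by
    rw [← mul_pow]
    norm_num
  rw [h4, pow_succ]
  have h5 : (0 : ℤ) < 4 ^ m := by positivity
  nlinarith

theorem abs_hk_le (m : ℕ) : |hk m| ≤ 4 ^ m := by
  unfold hk
  rw [abs_mul, abs_pow, abs_neg, abs_one, one_pow, one_mul]
  exact Kern_abs (by norm_num) m

end Pool.Agent.GMF
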