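import Pool.Agent.GMF.Br
import Pool.Agent.GMF.Kern

/-!
GMF-FnA: the Taylor congruence modulo x^k.

PLAN.  R = ZMod (x^k) (x ≥ 3, k ≥ 1).  br_sqrt with N = k, ξ = x, v = 0, ζ = Z, c = inverse of 2 (x odd):
ζ^2 (2 (1-ξ)) = (2-ξ)(1+0): from he, x^n = 0 in R as k ≤ n.  hu: Z + 1 is a unit mod x^k (x ∣ Z - 1, x odd:
gcd(Z+1, x) ∣ 2).  The second factor is hk 0 = 1 (all terms b ≥ 1 vanish; k ≥ 1).  So
Z = ∑ (s < k) gk s (c^3 x)^s in R; multiply by 8^k: 8^k c^(3 s) = 8^(k-s).  ZMod.intCast_zmod_eq_zero_iff_dvd.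
-/

namespace Pool.Agent.GMF

open Finset Polynomial Pool.Agent.NLG

theorem taylor_cong {x n k : ℕ} (hx : 3 ≤ x) (hodd : Odd x) (hk : 1 ≤ k) (hkn : k ≤ n) {Z : ℤ}
    (hZ : (x : ℤ) ∣ Z - 1) (he : 2 * ((x : ℤ) - 1) * Z ^ 2 = (x : ℤ) ^ n + x - 2) :
    (x : ℤ) ^ k ∣ 8 ^ k * Z - ∑ s ∈ range k, gk s * 8 ^ (k - s) * (x : ℤ) ^ s := by
  have _hx := hx
  -- the inverse of `2`
  have hcop : Nat.Coprime 2 (x ^ k) := (Nat.coprime_two_left.2 hodd).pow_right k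
  obtain ⟨c, hc⟩ : ∃ c : ZMod (x ^ k), c * 2 = 1 := by
    have h1 := ZMod.coe_mul_inv_eq_one 2 hcop
    refine ⟨((2 : ℕ) : ZMod (x ^ k))⁻¹, ?_⟩
    rw [mul_comm]
    exact_mod_cast h1
  have hξ : ((x : ℕ) : ZMod (x ^ k)) ^ k = 0 := by
    rw [← Nat.cast_pow]
    exact ZMod.natCast_self _
  have hξn : ((x : ℕ) : ZMod (x ^ k)) ^ n = 0 := by
    rw [← Nat.sub_add_cancel hkn, pow_add, hξ, mul_zero]
  have hζ : ((Z : ℤ) : ZMod (x ^ k)) ^ 2 * (2 * (1 - ((x : ℕ) : ZMod (x ^ k)))) =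
      (2 - ((x : ℕ) : ZMod (x ^ k))) * (1 + 0) := by
    have h1 := congrArg (Int.cast : ℤ → ZMod (x ^ k)) he
    push_cast at h1
    rw [hξn] at h1
    linear_combination -h1
  have hu : IsUnit (((Z : ℤ) : ZMod (x ^ k)) + 1) := by
    have h2u : IsUnit (2 : ZMod (x ^ k)) := IsUnit.of_mul_eq_one c (by rw [mul_comm]; exact hc)
    have hnil : IsNilpotent (((Z : ℤ) : ZMod (x ^ k)) - 1) := by
      refine ⟨k, ?_⟩
      obtain ⟨d, hd⟩ := hZ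
      have h1 := congrArg (Int.cast : ℤ → ZMod (x ^ k)) hd
      push_cast at h1
      rw [h1, mul_pow, hξ, zero_mul]
    have h3 := hnil.isUnit_add_left_of_commute h2u (Commute.all _ _)
    have e1 : (2 : ZMod (x ^ k)) + (((Z : ℤ) : ZMod (x ^ k)) - 1) = ((Z : ℤ) : ZMod (x ^ k)) + 1 := by ring
    rwa [e1] at h3
  have hbr := br_sqrt hk hc hξ (zero_pow (by omega : k ≠ 0)) hζ hu
  have hone : ∑ b ∈ range k, (Pool.Agent.GMF.hk b : ZMod (x ^ k)) * (c ^ 2 * 0) ^ b = 1 := by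
    have h1 : ∀ b ∈ range k, b ≠ 0 → (Pool.Agent.GMF.hk b : ZMod (x ^ k)) * (c ^ 2 * 0) ^ b = 0 := by
      intro b _ hb
      rw [mul_zero, zero_pow hb, mul_zero]
    rw [sum_eq_single_of_mem 0 (mem_range.2 hk) h1, hk_zero]
    simp
  rw [hone, mul_one] at hbr
  have h8 : c ^ 3 * 8 = 1 := by
    have e1 : c ^ 3 * 8 = (c * 2) ^ 3 := by ring
    rw [e1, hc, one_pow]
  have hfin : (8 : ZMod (x ^ k)) ^ k * ((Z : ℤ) : ZMod (x ^ k)) =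
      ∑ s ∈ range k, (gk s : ZMod (x ^ k)) * 8 ^ (k - s) * ((x : ℕ) : ZMod (x ^ k)) ^ s := by
    rw [hbr, mul_sum]
    refine sum_congr rfl fun s hs => ?_
    have hs' : s ≤ k := (mem_range.1 hs).le
    have e1 : (8 : ZMod (x ^ k)) ^ k = 8 ^ (k - s) * 8 ^ s := by
      rw [← pow_add, Nat.sub_add_cancel hs']
    have e2 : (c ^ 3) ^ s * (8 : ZMod (x ^ k)) ^ s = 1 := by
      rw [← mul_pow, h8, one_pow]
    rw [e1, mul_pow]
    linear_combination ((gk s : ZMod (x ^ k)) * 8 ^ (k - s) * ((x : ℕ) : ZMod (x ^ k)) ^ s) * e2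
  have hdvd := (ZMod.intCast_zmod_eq_zero_iff_dvd
    (8 ^ k * Z - ∑ s ∈ range k, gk s * 8 ^ (k - s) * (x : ℤ) ^ s) (x ^ k)).1 (by
      push_cast
      rw [hfin, sub_self])
  rwa [Nat.cast_pow] at hdvd

end Pool.Agent.GMF
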