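import Pool.Agent.GMF.Defs

/-!
GMF-GkPos: the coefficients of `((1 - X / 2) / (1 - X)) ^ (1 / 2)` are positive.

In `ℤ⟦t⟧` let A = ∑ KZ 2 1 m t^m = (1-4t)^(1/2), B = ∑ KZ 2 (-1) m 2^m t^m = (1-8t)^(-1/2); G = A B = ∑ gk m t^m.
(1-4t) A' = -2 A, (1-8t) B' = 4 B, so (1-4t)(1-8t) G' = 2 G: (m+1) gk (m+1) = (12 m + 2) gk m - 32 (m-1) gk (m-1)
for m ≥ 1.  gk 0 = 1, gk 1 = 2 and by induction gk (m+1) ≥ 4 gk m > 0 for m ≥ 1.
-/

namespace Pool.Agent.GMF

open Finset Polynomial Pool.Agent.NLG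

private theorem GkPos_rec (j : ℤ) (m : ℕ) : ((m : ℤ) + 1) * KZ 2 j (m + 1) = (4 * m - 2 * j) * KZ 2 j m := by
  have h1 := KZ_cast (q := 2) (by norm_num) j (m + 1)
  have h2 := KZ_cast (q := 2) (by norm_num) j m
  have h3 := kap_succ ((j : ℚ) / (2 : ℕ)) m
  have h4 : (((m : ℤ) + 1) * KZ 2 j (m + 1) : ℚ) = ((4 * m - 2 * j) * KZ 2 j m : ℚ) := by
    rw [h1, h2, mul_add, pow_add]
    push_cast at h3 ⊢
    linear_combination ((2 : ℚ) ^ (2 * m) * 4) * h3
  exact_mod_cast h4

private noncomputable def GkPos_A : PowerSeries ℤ := PowerSeries.mk fun m => KZ 2 1 m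

private noncomputable def GkPos_B : PowerSeries ℤ := PowerSeries.mk fun m => KZ 2 (-1) m * 2 ^ m

private theorem GkPos_coeff (m : ℕ) : PowerSeries.coeff m (GkPos_A * GkPos_B) = gk m := by
  rw [PowerSeries.coeff_mul, Finset.Nat.sum_antidiagonal_eq_sum_range_succ
    (fun a b => PowerSeries.coeff a GkPos_A * PowerSeries.coeff b GkPos_B)]
  unfold gk
  refine sum_congr rfl fun j _ => ?_
  unfold GkPos_A GkPos_B
  rw [PowerSeries.coeff_mk, PowerSeries.coeff_mk]
  ring

private theorem GkPos_dA : (1 - PowerSeries.C 4 * PowerSeries.X) * PowerSeries.derivative (R := ℤ) GkPos_A =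
    PowerSeries.C (-2) * GkPos_A := by
  ext m
  rw [sub_mul, one_mul, map_sub, mul_assoc, PowerSeries.coeff_C_mul, PowerSeries.coeff_C_mul]
  rcases m with _ | m
  · rw [PowerSeries.coeff_zero_X_mul, PowerSeries.coeff_derivative]
    unfold GkPos_A
    rw [PowerSeries.coeff_mk, PowerSeries.coeff_mk]
    have h := GkPos_rec 1 0
    push_cast at h ⊢
    linear_combination h
  · rw [PowerSeries.coeff_succ_X_mul, PowerSeries.coeff_derivative, PowerSeries.coeff_derivative]
    unfold GkPos_A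
    rw [PowerSeries.coeff_mk, PowerSeries.coeff_mk]
    have h := GkPos_rec 1 (m + 1)
    push_cast at h ⊢
    linear_combination h

private theorem GkPos_dB : (1 - PowerSeries.C 8 * PowerSeries.X) * PowerSeries.derivative (R := ℤ) GkPos_B =
    PowerSeries.C 4 * GkPos_B := by
  ext m
  rw [sub_mul, one_mul, map_sub, mul_assoc, PowerSeries.coeff_C_mul, PowerSeries.coeff_C_mul]
  rcases m with _ | m
  · rw [PowerSeries.coeff_zero_X_mul, PowerSeries.coeff_derivative]
    unfold GkPos_B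
    rw [PowerSeries.coeff_mk, PowerSeries.coeff_mk]
    have h := GkPos_rec (-1) 0
    push_cast at h ⊢
    linear_combination 2 * h
  · rw [PowerSeries.coeff_succ_X_mul, PowerSeries.coeff_derivative, PowerSeries.coeff_derivative]
    unfold GkPos_B
    rw [PowerSeries.coeff_mk, PowerSeries.coeff_mk]
    have h := GkPos_rec (-1) (m + 1)
    push_cast at h ⊢
    linear_combination (2 * 2 ^ (m + 1)) * h

private theorem GkPos_dG : (1 - PowerSeries.C 12 * PowerSeries.X + PowerSeries.C 32 * (PowerSeries.X * PowerSeries.X)) *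
    PowerSeries.derivative (R := ℤ) (GkPos_A * GkPos_B) = PowerSeries.C 2 * (GkPos_A * GkPos_B) := by
  have h1 : (1 - PowerSeries.C 12 * PowerSeries.X + PowerSeries.C 32 * (PowerSeries.X * PowerSeries.X) : PowerSeries ℤ) =
      (1 - PowerSeries.C 4 * PowerSeries.X) * (1 - PowerSeries.C 8 * PowerSeries.X) := by
    have e1 : (PowerSeries.C 12 : PowerSeries ℤ) = PowerSeries.C 4 + PowerSeries.C 8 := by
      rw [← map_add]
      norm_num
    have e2 : (PowerSeries.C 32 : PowerSeries ℤ) = PowerSeries.C 4 * PowerSeries.C 8 := by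
      rw [← map_mul]
      norm_num
    rw [e1, e2]
    ring
  rw [h1, Derivation.leibniz, smul_eq_mul, smul_eq_mul]
  have e3 : (PowerSeries.C 2 : PowerSeries ℤ) = (1 - PowerSeries.C 4 * PowerSeries.X) * PowerSeries.C 4 +
      (1 - PowerSeries.C 8 * PowerSeries.X) * PowerSeries.C (-2) := by
    have e4 : (PowerSeries.C 2 : PowerSeries ℤ) = 2 := rfl
    have e5 : (PowerSeries.C 4 : PowerSeries ℤ) = 4 := rfl
    have e6 : (PowerSeries.C 8 : PowerSeries ℤ) = 8 := rfl
    have e7 : (PowerSeries.C (-2) : PowerSeries ℤ) = -2 := by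
      rw [map_neg, e4]
    rw [e4, e5, e6, e7]
    ring
  rw [e3]
  linear_combination ((1 - PowerSeries.C 4 * PowerSeries.X) * GkPos_A) * GkPos_dB +
    ((1 - PowerSeries.C 8 * PowerSeries.X) * GkPos_B) * GkPos_dA

private theorem GkPos_zero : gk 0 = 1 := by
  unfold gk
  rw [Finset.sum_range_one, KZ_zero_right (by norm_num), Nat.sub_zero, KZ_zero_right (by norm_num)]
  norm_num

private theorem GkPos_one : gk 1 = 2 := by
  have h := congrArg (PowerSeries.coeff 0) GkPos_dG
  rw [add_mul, sub_mul, one_mul, map_add, map_sub, mul_assoc, mul_assoc, mul_assoc, PowerSeries.coeff_C_mul,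
    PowerSeries.coeff_C_mul, PowerSeries.coeff_C_mul, PowerSeries.coeff_zero_X_mul, PowerSeries.coeff_zero_X_mul,
    PowerSeries.coeff_derivative, GkPos_coeff, GkPos_coeff, GkPos_zero] at h
  push_cast at h
  linarith

private theorem GkPos_rec2 (m : ℕ) :
    ((m : ℤ) + 2) * gk (m + 2) = (12 * (m + 1) + 2) * gk (m + 1) - 32 * m * gk m := by
  have h := congrArg (PowerSeries.coeff (m + 1)) GkPos_dG
  rw [add_mul, sub_mul, one_mul, map_add, map_sub, mul_assoc, mul_assoc, mul_assoc, PowerSeries.coeff_C_mul,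
    PowerSeries.coeff_C_mul, PowerSeries.coeff_C_mul, PowerSeries.coeff_succ_X_mul, PowerSeries.coeff_succ_X_mul,
    PowerSeries.coeff_derivative, PowerSeries.coeff_derivative, GkPos_coeff, GkPos_coeff] at h
  rcases m with _ | m
  · rw [PowerSeries.coeff_zero_X_mul] at h
    push_cast at h ⊢
    linarith
  · rw [PowerSeries.coeff_succ_X_mul, PowerSeries.coeff_derivative, GkPos_coeff] at h
    push_cast at h ⊢
    linarith

private theorem GkPos_ind (m : ℕ) : 0 < gk (m + 1) ∧ 4 * gk (m + 1) ≤ gk (m + 2) := by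
  induction m with
  | zero =>
    have h := GkPos_rec2 0
    rw [zero_add] at h ⊢
    rw [GkPos_one] at h ⊢
    push_cast at h
    constructor
    · norm_num
    · linarith
  | succ m ih =>
    obtain ⟨h1, h2⟩ := ih
    have h3 := GkPos_rec2 (m + 1)
    push_cast at h3
    have h4 : 0 < gk (m + 2) := by linarith
    refine ⟨h4, ?_⟩
    have hm : (0 : ℤ) ≤ m := Int.natCast_nonneg m
    have h5 : 32 * ((m : ℤ) + 1) * gk (m + 1) ≤ 8 * ((m : ℤ) + 1) * gk (m + 2) := by
      have h6 : 8 * ((m : ℤ) + 1) * (4 * gk (m + 1)) ≤ 8 * ((m : ℤ) + 1) * gk (m + 2) :=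
        mul_le_mul_of_nonneg_left h2 (by positivity)
      linarith
    have h7 : ((m : ℤ) + 1 + 2) * (4 * gk (m + 2)) ≤ ((m : ℤ) + 1 + 2) * gk (m + 1 + 2) := by
      rw [h3]
      have h8 : gk (m + 1 + 1) = gk (m + 2) := rfl
      rw [h8]
      nlinarith
    exact le_of_mul_le_mul_left h7 (by positivity)

theorem gk_pos (m : ℕ) : 0 < gk m := by
  rcases m with _ | m
  · rw [GkPos_zero]
    norm_num
  · exact (GkPos_ind m).1

end Pool.Agent.GMF
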