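import Pool.Agent.GMF.FnA
import Pool.Agent.GMF.GkPos

/-!
GMF-FnB: for each fixed length n = 2 h + 1 the base is bounded.

`|Z| ≤ x^h` and the Taylor congruences modulo `x^(h+1)` and `x^(h+2)` are equalities for large `x` (`FnB_eq`); their
difference is `8 gk (h+1) x^(h+1)`, which is not zero by `gk_pos`.
-/

namespace Pool.Agent.GMF

open Finset Polynomial Pool.Agent.NLG

private theorem FnB_sum {x : ℤ} (hx : 1 ≤ x) (k : ℕ) :
    |∑ s ∈ range k, gk s * 8 ^ (k - s) * x ^ s| ≤ 2 * 8 ^ k * k * x ^ (k - 1) := by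
  refine (abs_sum_le_sum_abs _ _).trans ?_
  have h1 : ∀ s ∈ range k, |gk s * 8 ^ (k - s) * x ^ s| ≤ 2 * 8 ^ k * x ^ (k - 1) := by
    intro s hs
    have hs' : s < k := mem_range.1 hs
    have h2 : |(8 : ℤ) ^ (k - s)| = 8 ^ (k - s) := abs_of_nonneg (by positivity)
    have h3 : |x ^ s| = x ^ s := abs_of_nonneg (by positivity)
    rw [abs_mul, abs_mul, h2, h3]
    have h4 : (8 : ℤ) ^ k = 8 ^ s * 8 ^ (k - s) := by
      rw [← pow_add, Nat.add_sub_cancel' hs'.le]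
    have h5 : x ^ s ≤ x ^ (k - 1) := pow_le_pow_right₀ hx (by omega)
    have h6 : |gk s| * 8 ^ (k - s) ≤ 2 * 8 ^ k := by
      rw [h4, ← mul_assoc]
      exact mul_le_mul_of_nonneg_right (abs_gk_le s) (by positivity)
    exact mul_le_mul h6 h5 (by positivity) (by positivity)
  refine (sum_le_sum h1).trans ?_
  rw [sum_const, card_range, nsmul_eq_mul]
  exact le_of_eq (by ring)

private theorem FnB_eq {x : ℤ} (k : ℕ) (hx : 8 ^ (k + 1) * (2 * (k : ℤ) + 3) < x) {Z : ℤ} (hZ : |Z| ≤ x ^ k)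
    (hd : x ^ (k + 1) ∣ 8 ^ (k + 1) * Z - ∑ s ∈ range (k + 1), gk s * 8 ^ (k + 1 - s) * x ^ s) :
    8 ^ (k + 1) * Z = ∑ s ∈ range (k + 1), gk s * 8 ^ (k + 1 - s) * x ^ s := by
  have h8 : (1 : ℤ) ≤ 8 ^ (k + 1) := one_le_pow₀ (by norm_num)
  have hk : (0 : ℤ) ≤ k := Int.natCast_nonneg k
  have hx1 : 1 ≤ x := by nlinarith
  have h1 := FnB_sum hx1 (k + 1)
  rw [Nat.add_sub_cancel] at h1
  push_cast at h1
  have h2 : |8 ^ (k + 1) * Z| ≤ 8 ^ (k + 1) * x ^ k := by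
    rw [abs_mul, abs_of_nonneg (by positivity : (0 : ℤ) ≤ 8 ^ (k + 1))]
    exact mul_le_mul_of_nonneg_left hZ (by positivity)
  have h3 := abs_sub (8 ^ (k + 1) * Z) (∑ s ∈ range (k + 1), gk s * 8 ^ (k + 1 - s) * x ^ s)
  have h4 : |8 ^ (k + 1) * Z - ∑ s ∈ range (k + 1), gk s * 8 ^ (k + 1 - s) * x ^ s| < x ^ (k + 1) := by
    refine lt_of_le_of_lt (h3.trans (add_le_add h2 h1)) ?_
    have hp : (0 : ℤ) < x ^ k := by positivity
    have h5 : 8 ^ (k + 1) * (2 * (k : ℤ) + 3) * x ^ k < x * x ^ k := mul_lt_mul_of_pos_right hx hp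
    have h6 : x ^ (k + 1) = x * x ^ k := by ring
    rw [h6]
    refine lt_of_le_of_lt (le_of_eq ?_) h5
    ring
  have h5 := Int.eq_zero_of_abs_lt_dvd hd h4
  linarith

theorem fixed_h (h : ℕ) (hh : 1 ≤ h) : ∃ X0 : ℕ, ∀ x : ℕ, X0 ≤ x → Odd x → ∀ Z : ℤ,
    (x : ℤ) ∣ Z - 1 → 2 * ((x : ℤ) - 1) * Z ^ 2 ≠ (x : ℤ) ^ (2 * h + 1) + x - 2 := by
  refine ⟨8 ^ (h + 2) * (2 * h + 5) + 3, fun x hX hodd Z hZ he => ?_⟩
  have hx3 : 3 ≤ x := by omega
  have hX' : (8 : ℤ) ^ (h + 2) * (2 * h + 5) + 3 ≤ x := by exact_mod_cast hX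
  have hx3' : (3 : ℤ) ≤ x := by exact_mod_cast hx3
  have t1 := taylor_cong hx3 hodd (k := h + 1) (by omega) (by omega) hZ he
  have t2 := taylor_cong hx3 hodd (k := h + 2) (by omega) (by omega) hZ he
  have hg := gk_pos (h + 1)
  generalize hxx : ((x : ℕ) : ℤ) = y at *
  have hh0 : (0 : ℤ) ≤ h := Int.natCast_nonneg h
  -- the size of `Z`
  have hZ2 : Z ^ 2 ≤ (y ^ h) ^ 2 := by
    have h1 : y ^ (2 * h + 1) = y * (y ^ h) ^ 2 := by
      rw [pow_succ, pow_mul']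
      ring
    have h2 : y ≤ y ^ h := by
      calc y = y ^ 1 := (pow_one y).symm
        _ ≤ y ^ h := pow_le_pow_right₀ (by linarith) hh
    have h3 : y ^ h ≤ (y ^ h) ^ 2 := by nlinarith
    rw [h1] at he
    have h4 : 2 * (y - 1) * Z ^ 2 ≤ 2 * (y - 1) * (y ^ h) ^ 2 := by
      rw [he]
      nlinarith
    exact le_of_mul_le_mul_left h4 (by linarith)
  have hp : (0 : ℤ) < y ^ h := by positivity
  have hZa : |Z| ≤ y ^ h := abs_le_of_sq_le_sq hZ2 hp.le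
  have hZb : |Z| ≤ y ^ (h + 1) := by
    refine hZa.trans (pow_le_pow_right₀ (by linarith) (by omega))
  have h8 : (0 : ℤ) < 8 ^ (h + 1) := by positivity
  have h82 : (8 : ℤ) ^ (h + 2) = 8 * 8 ^ (h + 1) := by ring
  have e1 := FnB_eq h (by rw [h82] at hX'; nlinarith) hZa t1
  have e2 := FnB_eq (h + 1) (by push_cast; linarith) hZb t2
  rw [sum_range_succ] at e2
  have e3 : ∑ s ∈ range (h + 1), gk s * 8 ^ (h + 1 + 1 - s) * y ^ s =
      8 * ∑ s ∈ range (h + 1), gk s * 8 ^ (h + 1 - s) * y ^ s := by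
    rw [mul_sum]
    refine sum_congr rfl fun s hs => ?_
    have h1 : h + 1 + 1 - s = (h + 1 - s) + 1 := by
      have := mem_range.1 hs
      omega
    rw [h1, pow_succ]
    ring
  rw [e3, ← e1] at e2
  have e4 : h + 1 + 1 - (h + 1) = 1 := by omega
  rw [e4] at e2
  have e5 : gk (h + 1) * 8 ^ 1 * y ^ (h + 1) = 0 := by
    have e6 : (8 : ℤ) ^ (h + 1 + 1) = 8 * 8 ^ (h + 1) := by ring
    rw [e6] at e2
    linarith
  have e7 : (0 : ℤ) < gk (h + 1) * 8 ^ 1 * y ^ (h + 1) := by positivity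
  linarith

end Pool.Agent.GMF
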