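import Mathlib

/-!
GMF-FxA: the real estimate for one index N (fixed base), following FixB_zero in NLG/FixB.lean (q = 3).

g1 = (1 - m/B1)^(1/3), g2 = (1 - m/B2)^(1/3); W g1 = Y g2, hence a W - b Y = (a - g1 b) W + b Y (g2 - 1), and both terms
are smaller than 1/2 in absolute value.
-/

namespace Pool.Agent.GMF

open Finset

theorem fxA {m W Y N : ℕ} {B1 B2 X1 X2 : ℕ} {D : ℝ} (hm : 1 ≤ m) (hB1 : B1 = X1 + m)
    (hB2 : B2 = X2 + m) (h1 : 2 * m ≤ B1) (h12 : B1 ≤ B2) (hX : X2 = X1 * W ^ 3)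
    (hY : B2 = B1 * Y ^ 3) (hD : 1 ≤ D)
    (hi : 8 * D ^ (3 * N + 3) * (B2 : ℝ) < (B1 : ℝ) ^ (3 * N + 3))
    (hii : 8 * (m : ℝ) ^ 3 * D ^ (3 * N + 3) * (B1 : ℝ) ^ (3 * N) < (B2 : ℝ) ^ 2) {a b : ℤ}
    (hb : |(b : ℝ)| ≤ D ^ (N + 1) * (B1 : ℝ) ^ N)
    (hab : |(a : ℝ) - (1 - (m : ℝ) / (B1 : ℝ)) ^ ((1 : ℝ) / (3 : ℕ)) * (b : ℝ)| ≤
      D ^ (N + 1) / (B1 : ℝ) ^ (N + 1)) : a * W = b * Y := by
  have hW3 : W ^ 3 ≤ B2 := by
    have h3 : 1 ≤ X1 := by omega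
    calc W ^ 3 = 1 * W ^ 3 := (one_mul _).symm
      _ ≤ X1 * W ^ 3 := Nat.mul_le_mul_right _ h3
      _ ≤ B2 := by omega
  have hY3 : Y ^ 3 ≤ B2 := by
    have h3 : 1 ≤ B1 := by omega
    calc Y ^ 3 = 1 * Y ^ 3 := (one_mul _).symm
      _ ≤ B1 * Y ^ 3 := Nat.mul_le_mul_right _ h3
      _ = B2 := hY.symm
  have eB1 : (B1 : ℝ) = X1 + m := by exact_mod_cast hB1
  have eB2 : (B2 : ℝ) = X2 + m := by exact_mod_cast hB2
  have eX : (X2 : ℝ) = X1 * (W : ℝ) ^ 3 := by exact_mod_cast hX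
  have eY : (B2 : ℝ) = B1 * (Y : ℝ) ^ 3 := by exact_mod_cast hY
  have rW : (W : ℝ) ^ 3 ≤ B2 := by exact_mod_cast hW3
  have rY : (Y : ℝ) ^ 3 ≤ B2 := by exact_mod_cast hY3
  have r1 : 2 * (m : ℝ) ≤ B1 := by exact_mod_cast h1
  have r12 : (B1 : ℝ) ≤ B2 := by exact_mod_cast h12
  have rm : (1 : ℝ) ≤ m := by exact_mod_cast hm
  have hW0 : (0 : ℝ) ≤ W := Nat.cast_nonneg _
  have hY0 : (0 : ℝ) ≤ Y := Nat.cast_nonneg _
  have hB1p : (0 : ℝ) < B1 := by linarith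
  have hB2p : (0 : ℝ) < B2 := by linarith
  have hDp : 0 < D := by linarith
  set g1 : ℝ := (1 - (m : ℝ) / (B1 : ℝ)) ^ ((1 : ℝ) / (3 : ℕ)) with hg1
  set g2 : ℝ := (1 - (m : ℝ) / (B2 : ℝ)) ^ ((1 : ℝ) / (3 : ℕ)) with hg2
  have hi1 : (m : ℝ) / B1 ≤ 1 := by
    rw [div_le_one hB1p]
    linarith
  have hi2 : (m : ℝ) / B2 ≤ 1 := by
    rw [div_le_one hB2p]
    linarith
  have hi2p : 0 ≤ (m : ℝ) / B2 := by positivity
  have hb1 : 0 ≤ 1 - (m : ℝ) / B1 := by linarith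
  have hb2 : 0 ≤ 1 - (m : ℝ) / B2 := by linarith
  have hg10 : 0 ≤ g1 := Real.rpow_nonneg hb1 _
  have hg20 : 0 ≤ g2 := Real.rpow_nonneg hb2 _
  have h30 : (3 : ℕ) ≠ 0 := by norm_num
  have hinv : (1 : ℝ) / (3 : ℕ) = ((3 : ℕ) : ℝ)⁻¹ := one_div _
  have hg1q : g1 ^ 3 = 1 - (m : ℝ) / B1 := by rw [hg1, hinv, Real.rpow_inv_natCast_pow hb1 h30]
  have hg2q : g2 ^ 3 = 1 - (m : ℝ) / B2 := by rw [hg2, hinv, Real.rpow_inv_natCast_pow hb2 h30]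
  have hg2le : g2 ≤ 1 := by
    refine le_of_pow_le_pow_left₀ h30 zero_le_one ?_
    rw [hg2q, one_pow]
    linarith
  have hg2ge : 1 - (m : ℝ) / B2 ≤ g2 := by
    refine le_of_pow_le_pow_left₀ h30 hg20 ?_
    rw [hg2q]
    exact pow_le_of_le_one hb2 (by linarith) h30
  have heq : (W : ℝ) * g1 = Y * g2 := by
    have h3 : ((W : ℝ) * g1) ^ 3 = ((Y : ℝ) * g2) ^ 3 := by
      have e1 : ((W : ℝ) * g1) ^ 3 * B1 = X2 := by
        rw [mul_pow, hg1q, eX]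
        have e2 : (1 - (m : ℝ) / B1) * B1 = X1 := by
          rw [sub_mul, one_mul, div_mul_cancel₀ _ hB1p.ne', eB1]
          ring
        linear_combination (W : ℝ) ^ 3 * e2
      have e3 : ((Y : ℝ) * g2) ^ 3 * B1 = X2 := by
        rw [mul_pow, hg2q]
        have e2 : (1 - (m : ℝ) / B2) * B2 = X2 := by
          rw [sub_mul, one_mul, div_mul_cancel₀ _ hB2p.ne', eB2]
          ring
        calc (Y : ℝ) ^ 3 * (1 - (m : ℝ) / B2) * (B1 : ℝ) = (1 - (m : ℝ) / B2) * ((B1 : ℝ) * (Y : ℝ) ^ 3) := by ring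
          _ = (X2 : ℝ) := by rw [← eY, e2]
      exact mul_right_cancel₀ hB1p.ne' (e1.trans e3.symm)
    exact (pow_left_inj₀ (mul_nonneg hW0 hg10) (mul_nonneg hY0 hg20) h30).1 h3
  have hdiff : |(W : ℝ) * g1 - Y| ≤ Y * m / B2 := by
    have h3 : (W : ℝ) * g1 - Y = -(Y * (1 - g2)) := by rw [heq]; ring
    rw [h3, abs_neg, abs_of_nonneg (mul_nonneg hY0 (by linarith)), mul_div_assoc]
    exact mul_le_mul_of_nonneg_left (by linarith) hY0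
  have hA : 2 * D ^ (N + 1) * W < (B1 : ℝ) ^ (N + 1) := by
    refine lt_of_pow_lt_pow_left₀ 3 (by positivity) ?_
    have h3 : (2 * D ^ (N + 1) * (W : ℝ)) ^ 3 = 8 * D ^ (3 * N + 3) * (W : ℝ) ^ 3 := by
      have e1 : 3 * N + 3 = (N + 1) * 3 := by ring
      rw [mul_pow, mul_pow, e1, pow_mul]
      norm_num
    have h4 : ((B1 : ℝ) ^ (N + 1)) ^ 3 = (B1 : ℝ) ^ (3 * N + 3) := by
      rw [← pow_mul]; congr 1; ring
    rw [h3, h4]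
    exact lt_of_le_of_lt (mul_le_mul_of_nonneg_left rW (by positivity)) hi
  have hB : 2 * (D ^ (N + 1) * (B1 : ℝ) ^ N * (Y * m)) < B2 := by
    refine lt_of_pow_lt_pow_left₀ 3 hB2p.le ?_
    have h3 : (2 * (D ^ (N + 1) * (B1 : ℝ) ^ N * (Y * m))) ^ 3 =
        8 * (m : ℝ) ^ 3 * D ^ (3 * N + 3) * (B1 : ℝ) ^ (3 * N) * (Y : ℝ) ^ 3 := by
      have e1 : 3 * N + 3 = (N + 1) * 3 := by ring
      have e2 : 3 * N = N * 3 := by ring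
      rw [e1, e2, pow_mul, pow_mul]
      ring
    rw [h3]
    calc 8 * (m : ℝ) ^ 3 * D ^ (3 * N + 3) * (B1 : ℝ) ^ (3 * N) * (Y : ℝ) ^ 3
        ≤ 8 * (m : ℝ) ^ 3 * D ^ (3 * N + 3) * (B1 : ℝ) ^ (3 * N) * B2 :=
          mul_le_mul_of_nonneg_left rY (by positivity)
      _ < (B2 : ℝ) ^ 2 * B2 := mul_lt_mul_of_pos_right hii hB2p
      _ = (B2 : ℝ) ^ 3 := by ring
  have hT1 : |(W : ℝ) * ((a : ℝ) - g1 * b)| < 1 / 2 := by
    rw [abs_mul, abs_of_nonneg hW0]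
    have h3 : (W : ℝ) * |(a : ℝ) - g1 * b| ≤ W * (D ^ (N + 1) / (B1 : ℝ) ^ (N + 1)) :=
      mul_le_mul_of_nonneg_left hab hW0
    have h4 : (W : ℝ) * (D ^ (N + 1) / (B1 : ℝ) ^ (N + 1)) = (D ^ (N + 1) * W) / (B1 : ℝ) ^ (N + 1) := by ring
    have h5 : (D ^ (N + 1) * W) / (B1 : ℝ) ^ (N + 1) < 1 / 2 := by
      rw [div_lt_iff₀ (by positivity)]
      linarith
    linarith
  have hT2 : |(b : ℝ) * ((W : ℝ) * g1 - Y)| < 1 / 2 := by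
    rw [abs_mul]
    have h3 : |(b : ℝ)| * |(W : ℝ) * g1 - Y| ≤ (D ^ (N + 1) * (B1 : ℝ) ^ N) * (Y * m / B2) :=
      mul_le_mul hb hdiff (abs_nonneg _) (by positivity)
    have h4 : (D ^ (N + 1) * (B1 : ℝ) ^ N) * (Y * m / B2) = (D ^ (N + 1) * (B1 : ℝ) ^ N * (Y * m)) / B2 := by ring
    have h5 : (D ^ (N + 1) * (B1 : ℝ) ^ N * (Y * m)) / B2 < 1 / 2 := by
      rw [div_lt_iff₀ hB2p]
      linarith
    linarith
  have hDl : |((a * W - b * Y : ℤ) : ℝ)| < 1 := by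
    push_cast
    have h3 : (a : ℝ) * W - b * Y = (W : ℝ) * ((a : ℝ) - g1 * b) + (b : ℝ) * ((W : ℝ) * g1 - Y) := by
      ring
    rw [h3]
    have h4 := abs_add_le ((W : ℝ) * ((a : ℝ) - g1 * b)) ((b : ℝ) * ((W : ℝ) * g1 - Y))
    linarith
  have hD2 : |a * W - b * Y| < 1 := by exact_mod_cast hDl
  have hD3 := Int.abs_lt_one_iff.1 hD2
  linarith

end Pool.Agent.GMF
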