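import Pool.Agent.GMF.FxA
import Pool.Agent.GMF.PadeM

/-!
GMF-FxB: for a fixed base only finitely many lengths.

PLAN.  Model: fixed_base in NLG/FixB.lean.  m = x - 2 ≥ 1.  Suppose the set is infinite; for each n in it choose
c(n), (x-1) 2^(c n) + 2 = x^n + x, i.e. B(n) := (x-1) 2^(c n) = x^n + m.  Pigeonhole: infinitely many n with
n % 3 = r, c n % 3 = s.  D = max C 4 from pade_existsM 3 m.  Choose n1 in the set large and then n2 ≥ 12 n1 + 12 in the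
set, B1 = B n1, B2 = B n2; c is monotone: c n1 ≤ c n2; W = x^((n2-n1)/3), Y = 2^((c2-c1)/3), X_i = x^(n_i).
X_i ≤ B_i ≤ 2 X_i (n1 ≥ 1, m ≤ x ≤ X_i).  Apply fxA with N = n2 / (2 n1) (natural division) and N + 1:
N ≤ n2/(2 n1) < N + 1.  hi: B2 ≤ 2 X2, X2 = X1^(n2/n1) < X1^(2N+2), so B2 < 2 X1^(2N+2) and
B1^(3N+3) ≥ X1^(N+1) X1^(2N+2): need 16 D^(3N+3) ≤ X1^(N+1): X1 ≥ 16 D^3.  For N + 1 the same.  hii for N+1:
8 m^3 D^(3N+6) B1^(3N+3) < B2^2: B1^(3N+3) ≤ 2^(3N+3) X1^(3N+3), X2^2 = X1^(2 n2/n1) ≥ X1^(4N) (2N ≤ n2/n1), N ≥ 6: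
3 N + 3 ≤ 4 N - N/2..: X1^(4N - 3N - 3) = X1^(N-3) ≥ X1^(N/2) for N ≥ 6: need 8 m^3 D^(3N+6) 2^(3N+3) < X1^(N/2):
X1 large in terms of m, D (e.g. X1 ≥ (64 m^3 D^6)^4...); for N the estimate is easier.
Both give a_N W = b_N Y and a_(N+1) W = b_(N+1) Y with W, Y ≠ 0, so a_N b_(N+1) = a_(N+1) b_N: contradiction with
the last statement of pade_existsM.
-/

namespace Pool.Agent.GMF

open Finset

private theorem FxB_split {a b r : ℕ} (hab : a ≤ b) (ha : a % 3 = r) (hb : b % 3 = r) :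
    ∃ k, b = a + 3 * k := by
  refine ⟨b / 3 - a / 3, ?_⟩
  omega

private theorem FxB_class {S : Set ℕ} (hS : S.Infinite) (c : ℕ → ℕ) :
    ∃ r s : ℕ, (S ∩ {n | n % 3 = r ∧ c n % 3 = s}).Infinite := by
  by_contra hcon
  push Not at hcon
  apply hS
  refine ((Set.finite_lt_nat 3).biUnion fun r _ =>
    (Set.finite_lt_nat 3).biUnion fun s _ => hcon r s).subset ?_
  intro n hn
  simp only [Set.mem_iUnion]
  exact ⟨n % 3, Nat.mod_lt _ (by omega), c n % 3, Nat.mod_lt _ (by omega), hn, rfl, rfl⟩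

theorem fixed_x {x : ℕ} (hx : 3 ≤ x) : {n : ℕ | ∃ c : ℕ, (x - 1) * 2 ^ c + 2 = x ^ n + x}.Finite := by
  by_contra hfin
  obtain ⟨m, hm, hm1⟩ : ∃ m : ℕ, x = m + 2 ∧ 1 ≤ m := ⟨x - 2, by omega, by omega⟩
  obtain ⟨C, hC1, a, b, hab, hind⟩ := pade_existsM 3 (by omega) m hm1
  set D : ℝ := max C (max 4 (m : ℝ)) with hD
  have hCD : C ≤ D := le_max_left _ _
  have hD4 : 4 ≤ D := (le_max_left _ _).trans (le_max_right _ _)
  have hDm : (m : ℝ) ≤ D := (le_max_right _ _).trans (le_max_right _ _)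
  -- the exponents of two
  have hex : ∀ n : ℕ, ∃ c : ℕ, (∃ c : ℕ, (x - 1) * 2 ^ c + 2 = x ^ n + x) →
      (x - 1) * 2 ^ c + 2 = x ^ n + x := by
    intro n
    by_cases h : ∃ c : ℕ, (x - 1) * 2 ^ c + 2 = x ^ n + x
    · obtain ⟨c, hc⟩ := h
      exact ⟨c, fun _ => hc⟩
    · exact ⟨0, fun h' => absurd h' h⟩
  choose c hc using hex
  obtain ⟨r, s, hr⟩ := FxB_class hfin c
  have hx2 : (3 : ℝ) ≤ x := by exact_mod_cast hx
  have hx1 : (1 : ℝ) ≤ x := by linarith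
  obtain ⟨e, he⟩ : ∃ e : ℕ, D ^ 18 ≤ (x : ℝ) ^ e := by
    obtain ⟨e, he⟩ := pow_unbounded_of_one_lt (D ^ 18) (by linarith : (1 : ℝ) < x)
    exact ⟨e, he.le⟩
  obtain ⟨n1, ⟨hs1, hn1r, hc1r⟩, hn1⟩ := hr.exists_gt e
  obtain ⟨n2, ⟨hs2, hn2r, hc2r⟩, hn2⟩ := hr.exists_gt (12 * n1)
  have hB1 : (x - 1) * 2 ^ c n1 = x ^ n1 + m := by
    have := hc n1 hs1
    omega
  have hB2 : (x - 1) * 2 ^ c n2 = x ^ n2 + m := by
    have := hc n2 hs2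
    omega
  have hn1p : 1 ≤ n1 := by omega
  have hn12 : n1 ≤ n2 := by omega
  have hxx : x ^ n1 ≤ x ^ n2 := Nat.pow_le_pow_right (by omega) hn12
  have hcc : c n1 ≤ c n2 := by
    have h1 : (x - 1) * 2 ^ c n1 ≤ (x - 1) * 2 ^ c n2 := by omega
    have h2 : 2 ^ c n1 ≤ 2 ^ c n2 := Nat.le_of_mul_le_mul_left h1 (by omega)
    exact (Nat.pow_le_pow_iff_right (by norm_num)).1 h2
  obtain ⟨k, hk⟩ := FxB_split hn12 hn1r hn2r
  obtain ⟨l, hl⟩ := FxB_split hcc hc1r hc2r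
  have hxn1 : x ≤ x ^ n1 := by
    calc x = x ^ 1 := (pow_one x).symm
      _ ≤ x ^ n1 := Nat.pow_le_pow_right (by omega) hn1p
  set N0 : ℕ := n2 / (2 * n1) with hN0
  have hN06 : 6 ≤ N0 := by
    rw [hN0, Nat.le_div_iff_mul_le (by omega)]
    omega
  have hlow : 2 * n1 * N0 ≤ n2 := Nat.mul_div_le _ _
  have hupp : n2 < 2 * n1 * (N0 + 1) := Nat.lt_mul_div_succ _ (by omega)
  set B1 : ℕ := (x - 1) * 2 ^ c n1 with hB1d
  set B2 : ℕ := (x - 1) * 2 ^ c n2 with hB2d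
  have hBm : 2 * m ≤ B1 := by omega
  have hB12 : B1 ≤ B2 := by omega
  set X1 : ℝ := (x : ℝ) ^ n1 with hX1
  set X2 : ℝ := (x : ℝ) ^ n2 with hX2
  have rB1 : (B1 : ℝ) = X1 + m := by
    rw [hX1]
    exact_mod_cast hB1
  have rB2 : (B2 : ℝ) = X2 + m := by
    rw [hX2]
    exact_mod_cast hB2
  have rm : (1 : ℝ) ≤ m := by exact_mod_cast hm1
  have hX1D : D ^ 18 ≤ X1 := he.trans (pow_le_pow_right₀ hx1 hn1.le)
  have hX10 : 0 < X1 := by positivity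
  have hX20 : 0 < X2 := by positivity
  have hD0 : 0 < D := by linarith
  have hD1 : 1 ≤ D := by linarith
  have hmX1 : (m : ℝ) ≤ X1 := by
    have h1 : m ≤ x ^ n1 := by omega
    rw [hX1]
    exact_mod_cast h1
  have hmX2 : (m : ℝ) ≤ X2 := by
    have h1 : m ≤ x ^ n2 := by omega
    rw [hX2]
    exact_mod_cast h1
  have hXlow : X1 ^ (2 * N0) ≤ X2 := by
    rw [hX1, ← pow_mul]
    exact pow_le_pow_right₀ hx1 (by nlinarith)
  have hXupp : X2 ≤ X1 ^ (2 * N0 + 2) := by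
    rw [hX1, ← pow_mul]
    exact pow_le_pow_right₀ hx1 (by nlinarith)
  have hpowX : ∀ e : ℕ, D ^ (18 * e) ≤ X1 ^ e := fun e => by
    rw [pow_mul]
    exact pow_le_pow_left₀ (by positivity) hX1D e
  have h16 : (16 : ℝ) ≤ D ^ 2 := by nlinarith
  have hI : ∀ N : ℕ, N0 ≤ N → N ≤ N0 + 1 →
      8 * D ^ (3 * N + 3) * (B2 : ℝ) < (B1 : ℝ) ^ (3 * N + 3) := by
    intro N h1 h2
    have e1 : X1 ^ (3 * N + 3) = X1 ^ (3 * N + 1 - 2 * N0) * X1 ^ (2 * N0 + 2) := by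
      rw [← pow_add]; congr 1; omega
    have e2 : X1 ^ (3 * N + 3) ≤ (B1 : ℝ) ^ (3 * N + 3) :=
      pow_le_pow_left₀ hX10.le (by linarith) _
    have e3 : (B2 : ℝ) ≤ 2 * X1 ^ (2 * N0 + 2) := by linarith
    have e4 : D ^ 2 * D ^ (3 * N + 3) < X1 ^ (3 * N + 1 - 2 * N0) := by
      calc D ^ 2 * D ^ (3 * N + 3) = D ^ (2 + (3 * N + 3)) := (pow_add _ _ _).symm
        _ < D ^ (18 * (3 * N + 1 - 2 * N0)) := pow_lt_pow_right₀ (by linarith) (by omega)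
        _ ≤ _ := hpowX _
    calc 8 * D ^ (3 * N + 3) * (B2 : ℝ) ≤ 8 * D ^ (3 * N + 3) * (2 * X1 ^ (2 * N0 + 2)) :=
          mul_le_mul_of_nonneg_left e3 (by positivity)
      _ = (16 * D ^ (3 * N + 3)) * X1 ^ (2 * N0 + 2) := by ring
      _ ≤ (D ^ 2 * D ^ (3 * N + 3)) * X1 ^ (2 * N0 + 2) := by gcongr
      _ < X1 ^ (3 * N + 1 - 2 * N0) * X1 ^ (2 * N0 + 2) :=
          mul_lt_mul_of_pos_right e4 (by positivity)
      _ = X1 ^ (3 * N + 3) := e1.symm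
      _ ≤ _ := e2
  have h8m : 8 * (m : ℝ) ^ 3 ≤ D ^ 5 := by
    have h1 : (m : ℝ) ^ 3 ≤ D ^ 3 := pow_le_pow_left₀ (by linarith) hDm 3
    calc 8 * (m : ℝ) ^ 3 ≤ D ^ 2 * D ^ 3 := mul_le_mul (by linarith) h1 (by positivity) (by positivity)
      _ = D ^ 5 := by ring
  have hII : ∀ N : ℕ, N0 ≤ N → N ≤ N0 + 1 →
      8 * (m : ℝ) ^ 3 * D ^ (3 * N + 3) * (B1 : ℝ) ^ (3 * N) < (B2 : ℝ) ^ 2 := by
    intro N h1 h2
    have e1 : X1 ^ (4 * N0) ≤ X2 ^ 2 := by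
      have e2 : X1 ^ (4 * N0) = (X1 ^ (2 * N0)) ^ 2 := by
        rw [← pow_mul X1 (2 * N0) 2]; congr 1; ring
      rw [e2]
      exact pow_le_pow_left₀ (by positivity) hXlow 2
    have e2 : X2 ^ 2 < (B2 : ℝ) ^ 2 := pow_lt_pow_left₀ (by linarith) hX20.le (by norm_num)
    refine lt_of_le_of_lt (le_trans ?_ e1) e2
    have e3 : X1 ^ (4 * N0) = X1 ^ (4 * N0 - 3 * N) * X1 ^ (3 * N) := by
      rw [← pow_add]; congr 1; omega
    have e4 : (B1 : ℝ) ^ (3 * N) ≤ D ^ (3 * N) * X1 ^ (3 * N) := by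
      rw [← mul_pow]
      refine pow_le_pow_left₀ (by positivity) ?_ _
      rw [rB1]
      nlinarith
    rw [e3]
    calc 8 * (m : ℝ) ^ 3 * D ^ (3 * N + 3) * (B1 : ℝ) ^ (3 * N)
        ≤ D ^ 5 * D ^ (3 * N + 3) * (D ^ (3 * N) * X1 ^ (3 * N)) := by
          refine mul_le_mul ?_ e4 (by positivity) (by positivity)
          exact mul_le_mul_of_nonneg_right h8m (by positivity)
      _ = D ^ (5 + (3 * N + 3) + 3 * N) * X1 ^ (3 * N) := by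
          rw [pow_add, pow_add]; ring
      _ ≤ D ^ (18 * (4 * N0 - 3 * N)) * X1 ^ (3 * N) := by
          refine mul_le_mul_of_nonneg_right ?_ (by positivity)
          exact pow_le_pow_right₀ hD1 (by omega)
      _ ≤ _ := mul_le_mul_of_nonneg_right (hpowX _) (by positivity)
  have hpow : ∀ N : ℕ, C ^ (N + 1) ≤ D ^ (N + 1) := fun N =>
    pow_le_pow_left₀ (by linarith) hCD _
  have hb : ∀ N : ℕ, |(b N B1 : ℝ)| ≤ D ^ (N + 1) * (B1 : ℝ) ^ N := fun N =>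
    ((hab N B1 hBm).1).trans (mul_le_mul_of_nonneg_right (hpow N) (by positivity))
  have ha : ∀ N : ℕ, |(a N B1 : ℝ) - (1 - (m : ℝ) / (B1 : ℝ)) ^ ((1 : ℝ) / (3 : ℕ)) *
      (b N B1 : ℝ)| ≤ D ^ (N + 1) / (B1 : ℝ) ^ (N + 1) := fun N =>
    ((hab N B1 hBm).2).trans (div_le_div_of_nonneg_right (hpow N) (by positivity))
  have hXW : x ^ n2 = x ^ n1 * (x ^ k) ^ 3 := by
    rw [hk, pow_add, ← pow_mul, mul_comm k 3]
  have hBY : B2 = B1 * (2 ^ l) ^ 3 := by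
    rw [hB2d, hB1d, hl, pow_add, ← pow_mul, mul_comm l 3, mul_assoc]
  have e0 := fxA (N := N0) hm1 hB1 hB2 hBm hB12 hXW hBY hD1 (hI _ le_rfl (by omega))
    (hII _ le_rfl (by omega)) (hb _) (ha _)
  have e1 := fxA (N := N0 + 1) hm1 hB1 hB2 hBm hB12 hXW hBY hD1 (hI _ (by omega) le_rfl)
    (hII _ (by omega) le_rfl) (hb _) (ha _)
  apply hind N0 B1 hBm
  have hW : ((x ^ k : ℕ) : ℤ) ≠ 0 := by
    have : x ^ k ≠ 0 := pow_ne_zero _ (by omega)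
    exact_mod_cast this
  have h3 : ((x ^ k : ℕ) : ℤ) * (a N0 B1 * b (N0 + 1) B1) =
      ((x ^ k : ℕ) : ℤ) * (a (N0 + 1) B1 * b N0 B1) := by
    linear_combination (b (N0 + 1) B1) * e0 - (b N0 B1) * e1
  exact mul_left_cancel₀ hW h3

end Pool.Agent.GMF
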