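import Pool.Agent.NLG.Gau

/-!
GMF-GauQ: Gauss's lemma for a rational root of high multiplicity (descent to the rational numbers, then to the
integers by primitivity of the linear factor; the trailing coefficients give the bound).
-/

namespace Pool.Agent.GMF

open Finset Polynomial Pool.Agent.NLG

private lemma gauQ_coeff_zero (α β : ℤ) : (C β * X - C α : ℤ[X]).coeff 0 = -α := by simp

private lemma gauQ_coeff_one (α β : ℤ) : (C β * X - C α : ℤ[X]).coeff 1 = β := by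
  rw [coeff_sub, coeff_C_mul, coeff_X_one, mul_one, coeff_C_of_ne_zero one_ne_zero, sub_zero]

private lemma gauQ_trailing_lin {α : ℤ} (β : ℤ) (hα : α ≠ 0) :
    (C β * X - C α : ℤ[X]).trailingCoeff = -α := by
  have h0 := gauQ_coeff_zero α β
  have h1 : (C β * X - C α : ℤ[X]).natTrailingDegree = 0 := by
    apply natTrailingDegree_eq_zero_of_constantCoeff_ne_zero
    rw [constantCoeff_apply, h0]
    exact neg_ne_zero.mpr hα
  rw [trailingCoeff, h1, h0]

private lemma gauQ_trailing_pow {α : ℤ} (β : ℤ) (hα : α ≠ 0) (m : ℕ) :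
    ((C β * X - C α : ℤ[X]) ^ m).trailingCoeff = (-α) ^ m := by
  induction m with
  | zero =>
    rw [pow_zero, pow_zero, ← C_1, ← monomial_zero_left, trailingCoeff, natTrailingDegree_monomial one_ne_zero,
      coeff_monomial, if_pos rfl]
  | succ m ih =>
    rw [pow_succ, trailingCoeff_mul, ih, gauQ_trailing_lin β hα, pow_succ]

private lemma gauQ_prim {α β : ℤ} (hc : IsCoprime α β) : (C β * X - C α : ℤ[X]).IsPrimitive := by
  intro r hr
  have h0 : r ∣ -α := by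
    rw [← gauQ_coeff_zero α β]
    exact (C_dvd_iff_dvd_coeff r _).mp hr 0
  have h1 : r ∣ β := by
    have := (C_dvd_iff_dvd_coeff r _).mp hr 1
    rwa [gauQ_coeff_one α β] at this
  exact hc.isUnit_of_dvd' ((dvd_neg).mp h0) h1

private lemma gauQ_prim_pow {α β : ℤ} (hc : IsCoprime α β) (m : ℕ) :
    ((C β * X - C α : ℤ[X]) ^ m).IsPrimitive := by
  induction m with
  | zero => rw [pow_zero]; exact isPrimitive_one
  | succ m ih => rw [pow_succ]; exact ih.mul (gauQ_prim hc)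

private lemma gauQ_dvd {W : ℤ[X]} {α β : ℤ} (hc : IsCoprime α β) (hβ : β ≠ 0)
    {m : ℕ} (h : (X - C ((α : ℂ) / β)) ^ m ∣ W.map (Int.castRingHom ℂ)) :
    (C β * X - C α : ℤ[X]) ^ m ∣ W := by
  have hβQ : (β : ℚ) ≠ 0 := by exact_mod_cast hβ
  have hinj : Function.Injective (algebraMap ℚ ℂ) := (algebraMap ℚ ℂ).injective
  have hm : ((X - C ((α : ℚ) / β) : ℚ[X]) ^ m).Monic := (monic_X_sub_C _).pow m
  have he : ((X - C ((α : ℚ) / β) : ℚ[X]) ^ m).map (algebraMap ℚ ℂ) = (X - C ((α : ℂ) / β)) ^ m := by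
    simp
  have hW : W.map (Int.castRingHom ℂ) = (W.map (Int.castRingHom ℚ)).map (algebraMap ℚ ℂ) := by
    rw [Polynomial.map_map]
    congr 1
  rw [← he, hW] at h
  have h2 : (X - C ((α : ℚ) / β) : ℚ[X]) ^ m ∣ W.map (Int.castRingHom ℚ) :=
    (map_dvd_map (algebraMap ℚ ℂ) hinj hm).mp h
  rw [IsPrimitive.Int.dvd_iff_map_cast_dvd_map_cast _ _ (gauQ_prim_pow hc m)]
  have h3 : (C β * X - C α : ℤ[X]).map (Int.castRingHom ℚ) = C (β : ℚ) * (X - C ((α : ℚ) / β)) := by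
    rw [mul_sub, ← C_mul, mul_div_cancel₀ _ hβQ]
    simp
  rw [Polynomial.map_pow, h3, mul_pow]
  have hu : IsUnit ((C (β : ℚ) : ℚ[X]) ^ m) := (isUnit_C.mpr (isUnit_iff_ne_zero.mpr hβQ)).pow m
  exact hu.mul_left_dvd.mpr h2

theorem gaussQ {W : ℤ[X]} (hW : W ≠ 0) {α β : ℤ} (hc : IsCoprime α β) (hα : α ≠ 0) (hβ : β ≠ 0)
    {m : ℕ} (h : (X - C ((α : ℂ) / β)) ^ m ∣ W.map (Int.castRingHom ℂ)) {K : ℤ}
    (hK : ∀ d, |W.coeff d| ≤ K) : |α| ^ m ≤ K := by
  obtain ⟨V, rfl⟩ := gauQ_dvd hc hβ h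
  have hV : V ≠ 0 := by
    rintro rfl
    exact hW (mul_zero _)
  have h1 : (((C β * X - C α : ℤ[X]) ^ m) * V).trailingCoeff = (-α) ^ m * V.trailingCoeff := by
    rw [trailingCoeff_mul, gauQ_trailing_pow β hα]
  have h2 : V.trailingCoeff ≠ 0 := trailingCoeff_nonzero_iff_nonzero.mpr hV
  have h3 : (1 : ℤ) ≤ |V.trailingCoeff| := Int.one_le_abs h2
  have h4 := hK (((C β * X - C α : ℤ[X]) ^ m) * V).natTrailingDegree
  have h5 : (((C β * X - C α : ℤ[X]) ^ m) * V).coeff (((C β * X - C α : ℤ[X]) ^ m) * V).natTrailingDegree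
      = (-α) ^ m * V.trailingCoeff := h1
  rw [h5, abs_mul, abs_pow, abs_neg] at h4
  have h6 : |α| ^ m * 1 ≤ |α| ^ m * |V.trailingCoeff| :=
    mul_le_mul_of_nonneg_left h3 (pow_nonneg (abs_nonneg α) m)
  rw [mul_one] at h6
  exact le_trans h6 h4

end Pool.Agent.GMF
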