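import Mathlib

/-!
GMF-Par: the length is odd, and the sign of the square root.

PLAN.  n_odd: x^n + x - 2 = (x-1) (1 + ∑ i < n, x^i) (Nat.geomSum_eq / geom_sum_mul), so 2^c = 1 + ∑ i < n, x^i.
If n is even, the sum of n odd numbers is even, so 2^c is odd, c = 0 and the sum is 0: but it is ≥ 1 (n ≥ 1).
sign_Z: c = 2 e + 1, Z0 = 2^e: 2 (x-1) Z0^2 = x^n + x - 2 (integers), so x ∣ 2 (Z0^2 - 1) (n ≥ 1), x odd:
x ∣ (Z0 - 1)(Z0 + 1); x = p^k is a prime power, p odd cannot divide both factors (difference 2), so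
x ∣ Z0 - 1 or x ∣ Z0 + 1: Z = Z0 or Z = -Z0.
-/

namespace Pool.Agent.GMF

theorem n_odd {x n c : ℕ} (hx : 3 ≤ x) (hodd : Odd x) (hn : 1 ≤ n)
    (he : (x - 1) * 2 ^ c + 2 = x ^ n + x) : Odd n := by
  obtain ⟨y, rfl⟩ : ∃ y, x = y + 1 := ⟨x - 1, by omega⟩
  have hy : 0 < y := by omega
  have hgeo : y * (∑ i ∈ Finset.range n, (y + 1) ^ i) + 1 = (y + 1) ^ n := by
    have h := Commute.geom_sum₂_mul (Commute.one_right ((y : ℤ) + 1)) n
    have h2 := geom_sum_mul ((y : ℤ) + 1) n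
    have h3 : (y : ℤ) * (∑ i ∈ Finset.range n, ((y : ℤ) + 1) ^ i) + 1 = ((y : ℤ) + 1) ^ n := by
      have : (∑ i ∈ Finset.range n, ((y : ℤ) + 1) ^ i) * ((y : ℤ) + 1 - 1) =
        ((y : ℤ) + 1) ^ n - 1 := h2
      linarith [mul_comm (y : ℤ) (∑ i ∈ Finset.range n, ((y : ℤ) + 1) ^ i), this,
        show (∑ i ∈ Finset.range n, ((y : ℤ) + 1) ^ i) * ((y : ℤ) + 1 - 1) =
          (∑ i ∈ Finset.range n, ((y : ℤ) + 1) ^ i) * (y : ℤ) by ring]
    exact_mod_cast h3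
  have hsub : y + 1 - 1 = y := by omega
  rw [hsub] at he
  have h2c : 2 ^ c = (∑ i ∈ Finset.range n, (y + 1) ^ i) + 1 := by
    apply Nat.eq_of_mul_eq_mul_left hy
    rw [mul_add, mul_one]
    omega
  have hone : 1 ≤ ∑ i ∈ Finset.range n, (y + 1) ^ i := by
    have : (y + 1) ^ 0 ≤ ∑ i ∈ Finset.range n, (y + 1) ^ i :=
      Finset.single_le_sum (f := fun i => (y + 1) ^ i) (fun i _ => Nat.zero_le _)
        (Finset.mem_range.mpr (by omega))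
    simpa using this
  have hc : c ≠ 0 := by
    rintro rfl
    rw [pow_zero] at h2c
    omega
  have heven : Even (2 ^ c) := (Nat.even_pow' hc).mpr (by decide)
  have hso : Odd (∑ i ∈ Finset.range n, (y + 1) ^ i) := by
    rw [h2c] at heven
    rcases Nat.even_or_odd (∑ i ∈ Finset.range n, (y + 1) ^ i) with h | h
    · exfalso
      exact (Nat.not_even_iff_odd.mpr h.add_one) heven
    · exact h
  rw [Finset.odd_sum_iff_odd_card_odd] at hso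
  have hf : (Finset.range n).filter (fun i => Odd ((y + 1) ^ i)) = Finset.range n := by
    apply Finset.filter_true_of_mem
    intro i _
    exact hodd.pow
  rw [hf, Finset.card_range] at hso
  exact hso

theorem sign_Z {x n c : ℕ} (hx : 3 ≤ x) (hodd : Odd x) (hpp : IsPrimePow x) (hn : 1 ≤ n)
    (hc : Odd c) (he : (x - 1) * 2 ^ c + 2 = x ^ n + x) : ∃ Z : ℤ, (x : ℤ) ∣ Z - 1 ∧
    2 * ((x : ℤ) - 1) * Z ^ 2 = (x : ℤ) ^ n + x - 2 := by
  obtain ⟨e, rfl⟩ := hc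
  have heZ : ((x : ℤ) - 1) * 2 ^ (2 * e + 1) + 2 = (x : ℤ) ^ n + x := by
    have h1 : ((x - 1 : ℕ) : ℤ) = (x : ℤ) - 1 := by
      rw [Nat.cast_sub (by omega)]; simp
    have h2 := congrArg (fun t : ℕ => (t : ℤ)) he
    push_cast at h2
    rw [h1] at h2
    exact h2
  set Z0 : ℤ := 2 ^ e with hZ0
  have hpow : (2 : ℤ) ^ (2 * e + 1) = 2 * Z0 ^ 2 := by
    rw [hZ0, pow_succ, pow_mul]
    rw [← pow_mul, ← pow_mul, mul_comm 2 e]
    ring
  have hmain : 2 * ((x : ℤ) - 1) * Z0 ^ 2 = (x : ℤ) ^ n + x - 2 := by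
    rw [hpow] at heZ
    linarith [show 2 * ((x : ℤ) - 1) * Z0 ^ 2 = ((x : ℤ) - 1) * (2 * Z0 ^ 2) by ring]
  have hdvd : (x : ℤ) ∣ 2 * ((Z0 - 1) * (Z0 + 1)) := by
    have hxn : (x : ℤ) ∣ (x : ℤ) ^ n := dvd_pow_self _ (by omega)
    obtain ⟨k, hk⟩ := hxn
    refine ⟨2 * Z0 ^ 2 - k - 1, ?_⟩
    rw [hk] at hmain
    linarith [show 2 * ((Z0 - 1) * (Z0 + 1)) = 2 * Z0 ^ 2 - 2 by ring,
      show (x : ℤ) * (2 * Z0 ^ 2 - k - 1) = 2 * ((x : ℤ) - 1) * Z0 ^ 2 + 2 * Z0 ^ 2 - x * k - x by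
        ring]
  have hcop2 : IsCoprime (x : ℤ) 2 := by
    have : Nat.Coprime x 2 := (Nat.coprime_two_right).mpr hodd
    exact_mod_cast Nat.isCoprime_iff_coprime.mpr this
  have hdvd2 : (x : ℤ) ∣ (Z0 - 1) * (Z0 + 1) := hcop2.dvd_of_dvd_mul_left hdvd
  obtain ⟨p, k, hp, hk, hpk⟩ := hpp
  have hpP : Nat.Prime p := hp.nat_prime
  have hpZ : Prime (p : ℤ) := Nat.prime_iff_prime_int.mp hpP
  have hxp : (x : ℤ) = (p : ℤ) ^ k := by exact_mod_cast hpk.symm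
  have hpx : p ∣ x := by rw [← hpk]; exact dvd_pow_self _ (by omega)
  have hpodd : p ≠ 2 := by
    rintro rfl
    exact (Nat.not_even_iff_odd.mpr hodd) (even_iff_two_dvd.mpr hpx)
  by_cases h : (p : ℤ) ∣ Z0 + 1
  · have h' : ¬ (p : ℤ) ∣ Z0 - 1 := by
      intro h1
      have h2 : (p : ℤ) ∣ 2 := by
        have := dvd_sub h h1
        have e2 : Z0 + 1 - (Z0 - 1) = 2 := by ring
        rwa [e2] at this
      have h3 : p ∣ 2 := by exact_mod_cast h2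
      exact hpodd ((Nat.prime_dvd_prime_iff_eq hpP Nat.prime_two).mp h3)
    have hc1 : IsCoprime (x : ℤ) (Z0 - 1) := by
      rw [hxp]
      exact IsCoprime.pow_left ((hpZ.coprime_iff_not_dvd).mpr h')
    refine ⟨-Z0, ?_, ?_⟩
    · have h4 : (x : ℤ) ∣ Z0 + 1 := hc1.dvd_of_dvd_mul_left hdvd2
      have e3 : -Z0 - 1 = -(Z0 + 1) := by ring
      rw [e3]
      exact (dvd_neg).mpr h4
    · rw [neg_sq]; exact hmain
  · have hc1 : IsCoprime (x : ℤ) (Z0 + 1) := by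
      rw [hxp]
      exact IsCoprime.pow_left ((hpZ.coprime_iff_not_dvd).mpr h)
    exact ⟨Z0, hc1.dvd_of_dvd_mul_right hdvd2, hmain⟩

end Pool.Agent.GMF
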