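import Mathlib

/-!
GMF-Pell: the exponent of 2 is odd.  If c = 2 e, n = 2 h + 1 then Z = 2^e, R = x^h satisfy (x-1) Z^2 = x R^2 + (x-2); this
equation has no solution in positive integers for x ≥ 3 (descent with the automorphism of the form (x-1) Z^2 - x R^2).
-/

namespace Pool.Agent.GMF

private theorem Pell_nosol (x : ℤ) (hx : 3 ≤ x) (N : ℕ) :
    ∀ Z R : ℤ, Z.toNat = N → 0 < Z → 0 < R → (x - 1) * Z ^ 2 = x * R ^ 2 + (x - 2) → False := by
  induction N using Nat.strong_induction_on with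
  | _ N ih =>
    intro Z R hN hZ hR he
    have hpos : 0 < ((2 * x - 1) * Z) ^ 2 - (2 * x * R) ^ 2 := by
      have h1 : (x - 1) * (((2 * x - 1) * Z) ^ 2 - (2 * x * R) ^ 2) = x * R ^ 2 + (x - 2) * (2 * x - 1) ^ 2 := by
        linear_combination ((2 * x - 1) ^ 2) * he
      have h2 : 0 < x * R ^ 2 + (x - 2) * (2 * x - 1) ^ 2 := by
        have h3 : 0 < x * R ^ 2 := by positivity
        have h4 : 0 ≤ (x - 2) * (2 * x - 1) ^ 2 := mul_nonneg (by linarith) (sq_nonneg _)
        linarith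
      rw [← h1] at h2
      exact (mul_pos_iff_of_pos_left (by linarith)).1 h2
    have hZ' : 0 < (2 * x - 1) * Z - 2 * x * R := by
      have h1 : 2 * x * R < (2 * x - 1) * Z := by
        apply lt_of_pow_lt_pow_left₀ 2
        · exact mul_nonneg (by linarith) hZ.le
        · linarith
      linarith
    have he' : (x - 1) * ((2 * x - 1) * Z - 2 * x * R) ^ 2 = x * ((2 * x - 1) * R - 2 * (x - 1) * Z) ^ 2 + (x - 2) := by
      linear_combination he
    have hR' : (2 * x - 1) * R - 2 * (x - 1) * Z ≠ 0 := by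
      intro h0
      rw [h0] at he'
      have h1 : 1 ≤ ((2 * x - 1) * Z - 2 * x * R) ^ 2 := by
        have : 0 < ((2 * x - 1) * Z - 2 * x * R) ^ 2 := by positivity
        linarith
      nlinarith
    by_cases hlt : (2 * x - 1) * Z - 2 * x * R < Z
    · refine ih ((2 * x - 1) * Z - 2 * x * R).toNat ?_ ((2 * x - 1) * Z - 2 * x * R) |(2 * x - 1) * R - 2 * (x - 1) * Z| rfl hZ'
        (abs_pos.2 hR') ?_
      · omega
      · rw [sq_abs]
        exact he'
    · rw [not_lt] at hlt
      have h1 : x * R ≤ (x - 1) * Z := by linarith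
      have h2 : (x * R) ^ 2 ≤ ((x - 1) * Z) ^ 2 := by
        apply pow_le_pow_left₀ (by positivity) h1
      have h3 : x * R ^ 2 ≤ (x - 1) * (x - 2) := by
        have : ((x - 1) * Z) ^ 2 = (x - 1) * (x * R ^ 2 + (x - 2)) := by
          rw [← he]
          ring
        nlinarith
      have h4 : Z ^ 2 < x := by
        by_contra hc
        rw [not_lt] at hc
        have h5 : (x - 1) * x ≤ (x - 1) * Z ^ 2 := mul_le_mul_of_nonneg_left hc (by linarith)
        nlinarith
      have h5 : Z ^ 2 - 2 = x * (Z ^ 2 - R ^ 2 - 1) := by linear_combination -he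
      have h6 : 1 ≤ Z ^ 2 := by
        have : 0 < Z ^ 2 := by positivity
        linarith
      have h7 : Z ^ 2 - R ^ 2 - 1 = 0 := by
        have h8 : Z ^ 2 - R ^ 2 - 1 < 1 := by
          by_contra hc
          rw [not_lt] at hc
          nlinarith
        have h9 : -1 < Z ^ 2 - R ^ 2 - 1 := by
          by_contra hc
          rw [not_lt] at hc
          nlinarith
        omega
      rw [h7] at h5
      have h8 : Z ^ 2 = 2 := by linarith
      have h9 : Z < 2 := by nlinarith
      have h10 : Z = 1 := by omega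
      rw [h10] at h8
      norm_num at h8

theorem c_odd {x n c : ℕ} (hx : 3 ≤ x) (hn : Odd n) (he : (x - 1) * 2 ^ c + 2 = x ^ n + x) :
    Odd c := by
  by_contra hc
  rw [Nat.not_odd_iff_even] at hc
  obtain ⟨e, rfl⟩ := hc
  obtain ⟨h, rfl⟩ := hn
  refine Pell_nosol (x : ℤ) (by exact_mod_cast hx) _ ((2 : ℤ) ^ e) ((x : ℤ) ^ h) rfl (by positivity) (by positivity) ?_
  have h1 : (((x - 1 : ℕ)) : ℤ) = (x : ℤ) - 1 := by
    rw [Nat.cast_sub (by omega)]
    simp
  have h2 : (((x - 1) * 2 ^ (e + e) + 2 : ℕ) : ℤ) = ((x ^ (2 * h + 1) + x : ℕ) : ℤ) := by rw [he]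
  push_cast at h2
  rw [h1] at h2
  have h3 : ((2 : ℤ) ^ e) ^ 2 = 2 ^ (e + e) := by
    rw [← pow_mul]
    congr 1
    ring
  have h4 : (x : ℤ) ^ (2 * h + 1) = x * ((x : ℤ) ^ h) ^ 2 := by
    rw [← pow_mul]
    rw [pow_succ]
    ring
  rw [h3]
  rw [h4] at h2
  linarith

end Pool.Agent.GMF
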