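import Pool.Agent.GMF.TS
import Pool.Agent.GMF.FnB
import Pool.Agent.GMF.FxB
import Pool.Agent.GMF.Pell
import Pool.Agent.GMF.Par

/-!
GMF-Goo: the equation `(x - 1) 2 ^ c + 2 = x ^ n + x`, `x` an odd prime power, `n ≥ 3`, has finitely many
solutions.
-/

namespace Pool.Agent.GMF

/-- `2 ^ c - 1 = (x ^ n - 1) / (x - 1)` for only finitely many pairs of an odd prime power `x` and
`n ≥ 3`. -/
theorem goo_finite : {t : ℕ × ℕ | IsPrimePow t.1 ∧ Odd t.1 ∧ 3 ≤ t.2 ∧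
    ∃ c : ℕ, (t.1 - 1) * 2 ^ c + 2 = t.1 ^ t.2 + t.1}.Finite := by
  obtain ⟨n0, X1, hTS⟩ := ts_main
  have hfix : ∀ h : ℕ, ∃ X0 : ℕ, 1 ≤ h → ∀ x : ℕ, X0 ≤ x → Odd x → ∀ Z : ℤ,
      (x : ℤ) ∣ Z - 1 → 2 * ((x : ℤ) - 1) * Z ^ 2 ≠ (x : ℤ) ^ (2 * h + 1) + x - 2 := by
    intro h
    by_cases hh : 1 ≤ h
    · obtain ⟨X0, hX⟩ := fixed_h h hh
      exact ⟨X0, fun _ => hX⟩
    · exact ⟨0, fun h1 => absurd h1 hh⟩
  choose X0 hX0 using hfix
  have hA : (⋃ x ∈ {x : ℕ | x < X1 ∧ 3 ≤ x}, (fun n : ℕ => (x, n)) ''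
      {n : ℕ | ∃ c : ℕ, (x - 1) * 2 ^ c + 2 = x ^ n + x}).Finite := by
    refine Set.Finite.biUnion ((Set.finite_lt_nat X1).subset fun x hx => hx.1) ?_
    intro x hx
    exact (fixed_x hx.2).image _
  have hB : (⋃ h ∈ {h : ℕ | h < n0}, (fun x : ℕ => (x, 2 * h + 1)) '' {x : ℕ | x < X0 h}).Finite := by
    refine Set.Finite.biUnion (Set.finite_lt_nat n0) ?_
    intro h _
    exact (Set.finite_lt_nat (X0 h)).image _
  refine (hA.union hB).subset ?_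
  rintro ⟨x, n⟩ ⟨hpp, hodd, hn, c, hc⟩
  simp only at hpp hodd hn hc
  have hx3 : 3 ≤ x := by
    obtain ⟨k, hk⟩ := hodd
    have := hpp.one_lt
    omega
  have hno : Odd n := n_odd hx3 hodd (by omega) hc
  have hco : Odd c := c_odd hx3 hno hc
  obtain ⟨Z, hZ, hZe⟩ := sign_Z hx3 hodd hpp (by omega) hco hc
  obtain ⟨h, hh⟩ := hno
  by_cases hxs : x < X1
  · left
    simp only [Set.mem_iUnion, Set.mem_image]
    exact ⟨x, ⟨hxs, hx3⟩, n, ⟨c, hc⟩, rfl⟩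
  · right
    simp only [Set.mem_iUnion, Set.mem_image]
    have hn0 : n < n0 := by
      by_contra hge
      exact hTS n (by omega) x (by omega) hodd Z hZ hZe
    refine ⟨h, by simp only [Set.mem_setOf_eq]; omega, x, ?_, by rw [← hh]⟩
    by_contra hge
    simp only [Set.mem_setOf_eq, not_lt] at hge
    refine hX0 h (by omega) x hge hodd Z hZ ?_
    rw [← hh]
    exact hZe

end Pool.Agent.GMF
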