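import Pool.Agent.GMF.Defs
import Pool.Agent.NLG.Thet

/-!
GMF-SelQ: selection of a maximal independent family, rational point.
-/

namespace Pool.Agent.GMF

open Finset Polynomial Pool.Agent.NLG

private theorem SelQ_fq_sum (q i : ℕ) (P : ℤ[X]) :
    fq q i P = ∑ d ∈ P.support, monomial (q * d + (q - 1 - i)) ((P.coeff d : ℤ) : ℚ) := by
  unfold fq
  conv_lhs => rw [P.as_sum_support]
  rw [Polynomial.map_sum, Polynomial.sum_comp, sum_mul]
  refine sum_congr rfl fun d _ => ?_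
  rw [Polynomial.map_monomial, Polynomial.monomial_comp, ← Polynomial.C_mul_X_pow_eq_monomial,
    mul_assoc, ← pow_mul, ← pow_add]
  rfl

private theorem SelQ_fq_coeff_self {q i : ℕ} (hq : 1 ≤ q) (P : ℤ[X]) (d : ℕ) :
    (fq q i P).coeff (q * d + (q - 1 - i)) = ((P.coeff d : ℤ) : ℚ) := by
  rw [SelQ_fq_sum, Polynomial.finsetSum_coeff]
  rw [sum_eq_single d]
  · rw [coeff_monomial, if_pos rfl]
  · intro d' _ hd'
    rw [coeff_monomial, if_neg]
    intro h
    apply hd'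
    have h2 : q * d' = q * d := by omega
    exact Nat.eq_of_mul_eq_mul_left (by omega) h2
  · intro hd
    rw [Polynomial.notMem_support_iff] at hd
    rw [hd, Int.cast_zero, map_zero, coeff_zero]

private theorem SelQ_fq_coeff_ne {q i j : ℕ} (hi : i < q) (hj : j < q) (hij : i ≠ j) (P : ℤ[X]) (d : ℕ) :
    (fq q i P).coeff (q * d + (q - 1 - j)) = 0 := by
  rw [SelQ_fq_sum, Polynomial.finsetSum_coeff]
  refine sum_eq_zero fun d' _ => ?_
  rw [coeff_monomial, if_neg]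
  intro h
  have h1 : (q * d' + (q - 1 - i)) % q = (q * d + (q - 1 - j)) % q := by rw [h]
  rw [Nat.mul_add_mod, Nat.mul_add_mod, Nat.mod_eq_of_lt (by omega), Nat.mod_eq_of_lt (by omega)] at h1
  omega

private theorem SelQ_top {w : ℚ} {H : ℕ} (hw : (H : ℚ) + 1 < |w|) {c : ℕ → ℤ} (hc : ∀ b, |c b| ≤ H) (B : ℕ) :
    |∑ b ∈ range B, w ^ b * (c b : ℚ)| < |w| ^ B := by
  induction B with
  | zero => simp
  | succ B ih =>
    rw [sum_range_succ, pow_succ]
    have h1 := abs_add_le (∑ b ∈ range B, w ^ b * (c b : ℚ)) (w ^ B * (c B : ℚ))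
    have hcB : |(c B : ℚ)| ≤ (H : ℚ) := by
      have h := hc B
      exact_mod_cast h
    have h2 : |w ^ B * (c B : ℚ)| ≤ |w| ^ B * H := by
      rw [abs_mul, abs_pow]
      exact mul_le_mul_of_nonneg_left hcB (by positivity)
    have h3 : (0 : ℚ) ≤ |w| ^ B := by positivity
    nlinarith

private theorem SelQ_all_zero {w : ℚ} {H : ℕ} (hw : (H : ℚ) + 1 < |w|) {c : ℕ → ℤ} (hc : ∀ b, |c b| ≤ H)
    (B : ℕ) (h0 : ∑ b ∈ range B, w ^ b * (c b : ℚ) = 0) : ∀ b < B, c b = 0 := by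
  induction B with
  | zero => intro b hb; omega
  | succ B ih =>
    have hB : c B = 0 := by
      by_contra hne
      have h1 := SelQ_top hw hc B
      rw [sum_range_succ] at h0
      have h2 : ∑ b ∈ range B, w ^ b * (c b : ℚ) = -(w ^ B * (c B : ℚ)) := by linarith
      rw [h2, abs_neg, abs_mul, abs_pow] at h1
      have h3 : (1 : ℚ) ≤ |(c B : ℚ)| := by
        have h := Int.one_le_abs hne
        exact_mod_cast h
      have h4 : (0 : ℚ) ≤ |w| ^ B := by positivity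
      nlinarith
    intro b hb
    rcases Nat.lt_succ_iff_lt_or_eq.mp hb with h | h
    · refine ih ?_ b h
      rw [sum_range_succ, hB, Int.cast_zero, mul_zero, add_zero] at h0
      exact h0
    · rw [h]; exact hB

private noncomputable def SelQ_F (q B : ℕ) (Q : ℕ → ℕ → ℤ[X]) (w y : ℚ) : ℚ[X] :=
  ∑ i ∈ range q, ∑ b ∈ range B, (w ^ b * y ^ i) • fq q i (Q i b)

private noncomputable def SelQ_Psi (q B : ℕ) (Q : ℕ → ℕ → ℤ[X]) (z w y : ℚ) : ℚ[X] →ₗ[ℚ] ℚ :=
  ∑ i ∈ range q, ∑ b ∈ range B, (w ^ b * y ^ i) •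
    ∑ d ∈ (Q i b).support, (((Q i b).coeff d : ℚ) * z ^ d) • leval ((q : ℚ) * d - i)

private theorem SelQ_Psi_apply (q B : ℕ) (Q : ℕ → ℕ → ℤ[X]) (z w y : ℚ) (F : ℚ[X]) :
    SelQ_Psi q B Q z w y F = ∑ i ∈ range q, ∑ b ∈ range B, (w ^ b * y ^ i) *
      ∑ d ∈ (Q i b).support, (((Q i b).coeff d : ℚ) * z ^ d) * F.eval ((q : ℚ) * d - i) := by
  unfold SelQ_Psi
  simp only [LinearMap.sum_apply, LinearMap.smul_apply, smul_eq_mul, leval_apply]

private noncomputable def SelQ_Lam (q m : ℕ) (z : ℚ) : ℚ[X] →ₗ[ℚ] ℚ :=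
  Polynomial.lsum fun e => (z ^ (e / q) * (e : ℚ) ^ m) • LinearMap.id

private theorem SelQ_Lam_fq {q i : ℕ} (hi : i < q) (m : ℕ) (z : ℚ) (P : ℤ[X]) :
    SelQ_Lam q m z (fq q i P) = P.sum fun d c => (c : ℚ) * z ^ d *
      ((q * d + (q - 1 - i) : ℕ) : ℚ) ^ m := by
  rw [SelQ_fq_sum, map_sum, Polynomial.sum_def]
  refine sum_congr rfl fun d _ => ?_
  unfold SelQ_Lam
  rw [Polynomial.lsum_apply, Polynomial.sum_monomial_index]
  · have h1 : (q * d + (q - 1 - i)) / q = d := by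
      rw [Nat.mul_add_div (by omega), Nat.div_eq_of_lt (by omega), add_zero]
    rw [LinearMap.smul_apply, LinearMap.id_apply, h1, smul_eq_mul]
    ring
  · simp

private theorem SelQ_Psi_zero {q B M : ℕ} (hq : 1 ≤ q) {Q : ℕ → ℕ → ℤ[X]} {z w y : ℚ}
    (hM : ∀ l < M, vvQ q B Q z w y l = 0) (n : ℕ) (hn : n ≤ M) (F : ℚ[X]) (hF : F.degree < n) :
    SelQ_Psi q B Q z w y F = 0 := by
  induction n generalizing F with
  | zero =>
    have : F = 0 := by
      rw [← Polynomial.degree_eq_bot]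
      exact Nat.WithBot.lt_zero_iff.mp (by exact_mod_cast hF)
    rw [this, map_zero]
  | succ n ih =>
    obtain ⟨f, hfd, hf0, hf⟩ := KZ_poly hq n
    have hlc : f.coeff n ≠ 0 := by
      rw [← hfd]
      exact Polynomial.leadingCoeff_ne_zero.mpr hf0
    have h1 : SelQ_Psi q B Q z w y f = 0 := by
      have h2 := hM n (by omega)
      have h3 : SelQ_Psi q B Q z w y f = vvQ q B Q z w y n := by
        rw [SelQ_Psi_apply]
        unfold vvQ
        refine sum_congr rfl fun i _ => ?_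
        refine sum_congr rfl fun b _ => ?_
        rw [Polynomial.sum_def]
        congr 1
        refine sum_congr rfl fun d _ => ?_
        rw [hf]
        push_cast
        ring
      rw [h3, h2]
    have h4 : F = (F - (F.coeff n / f.coeff n) • f) + (F.coeff n / f.coeff n) • f := by ring
    rw [h4, map_add, map_smul, h1, smul_zero, add_zero]
    refine ih (by omega) _ ?_
    rw [Polynomial.degree_lt_iff_coeff_zero]
    intro m hm
    rw [coeff_sub, coeff_smul, smul_eq_mul]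
    rcases Nat.eq_or_lt_of_le hm with h | h
    · rw [← h]
      field_simp
      ring
    · have h5 : F.coeff m = 0 := Polynomial.coeff_eq_zero_of_degree_lt
        (lt_of_lt_of_le hF (by exact_mod_cast h))
      have h6 : f.coeff m = 0 := Polynomial.coeff_eq_zero_of_natDegree_lt (by omega)
      rw [h5, h6, mul_zero, sub_zero]

private theorem SelQ_Lam_F {q B M : ℕ} (hq : 1 ≤ q) {Q : ℕ → ℕ → ℤ[X]} {z w y : ℚ}
    (hM : ∀ l < M, vvQ q B Q z w y l = 0) (m : ℕ) (hm : m < M) :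
    SelQ_Lam q m z (SelQ_F q B Q w y) = 0 := by
  have h1 : SelQ_Psi q B Q z w y ((X + C ((q : ℚ) - 1)) ^ m) = 0 := by
    refine SelQ_Psi_zero hq hM M le_rfl _ ?_
    refine lt_of_le_of_lt (Polynomial.degree_pow_le _ _) ?_
    rw [Polynomial.degree_X_add_C, nsmul_eq_mul, mul_one]
    exact_mod_cast hm
  rw [← h1]
  rw [SelQ_Psi_apply]
  unfold SelQ_F
  rw [map_sum]
  refine sum_congr rfl fun i hi => ?_
  have hi' : i < q := mem_range.mp hi
  rw [map_sum]
  refine sum_congr rfl fun b _ => ?_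
  rw [map_smul, SelQ_Lam_fq hi', Polynomial.sum_def, smul_eq_mul]
  congr 1
  refine sum_congr rfl fun d _ => ?_
  rw [eval_pow, eval_add, eval_X, eval_C]
  congr 2
  have h2 : ((q - 1 - i : ℕ) : ℚ) = (q : ℚ) - 1 - i := by
    rw [Nat.cast_sub (by omega), Nat.cast_sub hq]
    simp
  rw [Nat.cast_add, h2]
  push_cast
  ring

private theorem SelQ_F_ne {q B H : ℕ} (hq : 1 ≤ q) {Q : ℕ → ℕ → ℤ[X]}
    (hH : ∀ i b d, |(Q i b).coeff d| ≤ H) (hne : ∃ i b, i < q ∧ b < B ∧ Q i b ≠ 0) {w y : ℚ}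
    (hw : (H : ℚ) + 1 < |w|) (hy : y ≠ 0) : SelQ_F q B Q w y ≠ 0 := by
  obtain ⟨i, b, hi, hb, hQ⟩ := hne
  intro h0
  obtain ⟨d, hd⟩ : ∃ d, (Q i b).coeff d ≠ 0 := by
    by_contra hcon
    push Not at hcon
    exact hQ (Polynomial.ext fun n => by rw [hcon n, coeff_zero])
  apply hd
  refine SelQ_all_zero hw (c := fun b => (Q i b).coeff d) (fun b => hH i b d) B ?_ b hb
  have h1 : (SelQ_F q B Q w y).coeff (q * d + (q - 1 - i)) = 0 := by rw [h0, coeff_zero]
  unfold SelQ_F at h1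
  rw [Polynomial.finsetSum_coeff, sum_eq_single i] at h1
  · rw [Polynomial.finsetSum_coeff] at h1
    have h2 : y ^ i * (∑ b ∈ range B, w ^ b * (((Q i b).coeff d : ℤ) : ℚ)) = 0 := by
      rw [← h1, mul_sum]
      refine sum_congr rfl fun b _ => ?_
      rw [coeff_smul, SelQ_fq_coeff_self hq, smul_eq_mul]
      ring
    rcases mul_eq_zero.mp h2 with h3 | h3
    · exact absurd h3 (pow_ne_zero _ hy)
    · exact h3
  · intro j hj hji
    rw [Polynomial.finsetSum_coeff]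
    refine sum_eq_zero fun b _ => ?_
    rw [coeff_smul, SelQ_fq_coeff_ne (mem_range.mp hj) hi hji, smul_zero]
  · intro h
    exact absurd (mem_range.mpr hi) h

theorem selectQ {q B M H : ℕ} (hq : 1 ≤ q) {Q : ℕ → ℕ → ℤ[X]}
    (hH : ∀ i b d, |(Q i b).coeff d| ≤ H) (hne : ∃ i b, i < q ∧ b < B ∧ Q i b ≠ 0) {z w y : ℚ}
    (hw : (H : ℚ) + 1 < |w|) (hy : y ≠ 0) (hM : ∀ l < M, vvQ q B Q z w y l = 0) :
    ∃ L : ℕ, L ≤ q * B ∧ ∃ (ty : Fin L → ℕ) (P : Fin L → ℤ[X]) (γ : Fin L → ℚ),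
      (∀ k, ty k < q ∧ ∃ b < B, P k = Q (ty k) b) ∧
      LinearIndependent ℚ (fun k => fq q (ty k) (P k)) ∧ (∃ k, γ k ≠ 0) ∧
      ∀ m < M, ∑ k, γ k * (P k).sum (fun d c => (c : ℚ) * z ^ d *
        ((q * d + (q - 1 - ty k) : ℕ) : ℚ) ^ m) = 0 := by
  obtain ⟨κ, a, hinj, hspan, hli⟩ := exists_linearIndependent' ℚ
    (fun p : Fin q × Fin B => fq q p.1 (Q p.1 p.2))
  have hfin : Finite κ := Finite.of_injective a hinj
  let hft : Fintype κ := Fintype.ofFinite κ
  let e := Fintype.equivFin κ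
  have hcard : Fintype.card κ ≤ q * B := by
    have h := Fintype.card_le_of_injective a hinj
    rwa [Fintype.card_prod, Fintype.card_fin, Fintype.card_fin] at h
  have hmem : SelQ_F q B Q w y ∈ Submodule.span ℚ
      (Set.range (fun p : Fin q × Fin B => fq q p.1 (Q p.1 p.2))) := by
    unfold SelQ_F
    refine Submodule.sum_mem _ fun i hi => Submodule.sum_mem _ fun b hb => ?_
    refine Submodule.smul_mem _ _ (Submodule.subset_span ?_)
    exact ⟨(⟨i, mem_range.mp hi⟩, ⟨b, mem_range.mp hb⟩), rfl⟩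
  have hmem2 : SelQ_F q B Q w y ∈ Submodule.span ℚ
      (Set.range (fun k : Fin (Fintype.card κ) =>
        fq q (a (e.symm k)).1 (Q (a (e.symm k)).1 (a (e.symm k)).2))) := by
    have h1 : Set.range (fun k : Fin (Fintype.card κ) =>
        fq q (a (e.symm k)).1 (Q (a (e.symm k)).1 (a (e.symm k)).2)) =
        Set.range ((fun p : Fin q × Fin B => fq q p.1 (Q p.1 p.2)) ∘ a) :=
      e.symm.surjective.range_comp ((fun p : Fin q × Fin B => fq q p.1 (Q p.1 p.2)) ∘ a)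
    rw [h1, hspan]
    exact hmem
  rw [Submodule.mem_span_range_iff_exists_fun] at hmem2
  obtain ⟨γ, hγ⟩ := hmem2
  refine ⟨Fintype.card κ, hcard, fun k => (a (e.symm k)).1,
    fun k => Q (a (e.symm k)).1 (a (e.symm k)).2, γ, fun k => ⟨(a (e.symm k)).1.2,
      (a (e.symm k)).2, (a (e.symm k)).2.2, rfl⟩, ?_, ?_, ?_⟩
  · exact hli.comp e.symm e.symm.injective
  · by_contra hcon
    push Not at hcon
    apply SelQ_F_ne hq hH hne hw hy
    rw [← hγ]
    exact sum_eq_zero fun k _ => by rw [hcon k, zero_smul]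
  · intro m hm
    have h1 := SelQ_Lam_F (z := z) hq hM m hm
    rw [← hγ, map_sum] at h1
    rw [← h1]
    refine sum_congr rfl fun k _ => ?_
    rw [map_smul, SelQ_Lam_fq (a (e.symm k)).1.2, smul_eq_mul]

end Pool.Agent.GMF
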