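import Pool.Agent.GMF.CoefX

/-!
GMF-SizeM: the size of the derivative values.

As `sizeG_vv` in NLG/SizeG.lean.  From `2 (x - 1) Z ^ 2 = x ^ n + x - 2 ≤ 2 (x - 1) x ^ n` one gets
`|Z| ≤ x ^ (n / 2)`.  The coefficient `j` of `p (xs x)` is at most `x ^ j 8 ^ j 2 ^ M S p`, where `M` bounds
the degree of `p` and `S p = ∑ a, |p_a| x ^ a`; the coefficient `l` of `zs Z * p (xs x)` is at most
`(l + 1) |Z| x ^ l 8 ^ l 2 ^ M S p`.  By hypothesis `x ^ (n b) |Z| ^ i S (P i b)` is at most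
`(δ n + 1) C ^ n x ^ (δ n)`, and all the remaining constants are at most `D ^ n`.
-/

namespace Pool.Agent.GMF

open Finset Polynomial Pool.Agent.NLG

private theorem SizeM_natDegree {n : ℕ} {δ : ℝ} {P : ℕ → ℕ → ℤ[X]}
    (hP : ∀ i b a, (P i b).coeff a ≠ 0 →
      i < 2 ∧ (a : ℝ) + (n : ℝ) * b + (i : ℝ) * n / (2 : ℕ) ≤ δ * n) (i b : ℕ) :
    (P i b).natDegree ≤ ⌊δ * n⌋₊ := by
  rw [natDegree_le_iff_coeff_eq_zero]
  intro a ha
  by_contra h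
  have h1 := (hP i b a h).2
  have h2 : (a : ℝ) ≤ δ * n := by
    have h3 : 0 ≤ (n : ℝ) * b := by positivity
    have h4 : 0 ≤ (i : ℝ) * n / (2 : ℕ) := by positivity
    linarith
  have h3 := Nat.le_floor h2
  omega

private theorem SizeM_two_pow {δ : ℝ} (hδ : 0 ≤ δ) (n : ℕ) :
    (2 : ℝ) ^ ⌊δ * n⌋₊ ≤ ((2 : ℝ) ^ δ) ^ n := by
  rw [← Real.rpow_natCast ((2 : ℝ) ^ δ) n, ← Real.rpow_mul (by norm_num), ← Real.rpow_natCast]
  exact Real.rpow_le_rpow_of_exponent_le (by norm_num) (Nat.floor_le (by positivity))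

private theorem SizeM_count {δ : ℝ} (hδ : 0 ≤ δ) {n : ℕ} (hn : 1 ≤ n) :
    ((⌊δ * n⌋₊ : ℕ) : ℝ) + 1 ≤ (2 * (δ + 1)) ^ n := by
  have h1 : ((⌊δ * n⌋₊ : ℕ) : ℝ) ≤ δ * n := Nat.floor_le (by positivity)
  have hn' : (1 : ℝ) ≤ n := by exact_mod_cast hn
  have h2 : (n : ℝ) ≤ 2 ^ n := by exact_mod_cast (Nat.lt_two_pow_self (n := n)).le
  have h3 : δ + 1 ≤ (δ + 1) ^ n := by
    calc δ + 1 = (δ + 1) ^ 1 := (pow_one _).symm
      _ ≤ (δ + 1) ^ n := pow_le_pow_right₀ (by linarith) hn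
  calc ((⌊δ * n⌋₊ : ℕ) : ℝ) + 1 ≤ n * (δ + 1) := by nlinarith
    _ ≤ 2 ^ n * (δ + 1) ^ n := by
        apply mul_le_mul h2 h3 (by linarith) (by positivity)
    _ = (2 * (δ + 1)) ^ n := (mul_pow _ _ _).symm

private theorem SizeM_Z {n x : ℕ} {Z : ℤ} (hn : 1 ≤ n) (hx : 3 ≤ x)
    (h : 2 * ((x : ℤ) - 1) * Z ^ 2 = (x : ℤ) ^ n + x - 2) :
    |(Z : ℝ)| ≤ (x : ℝ) ^ ((n : ℝ) / (2 : ℕ)) := by
  have hx3 : (3 : ℤ) ≤ x := by exact_mod_cast hx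
  have h1 : (x : ℤ) ≤ (x : ℤ) ^ n := by
    calc (x : ℤ) = (x : ℤ) ^ 1 := (pow_one _).symm
      _ ≤ (x : ℤ) ^ n := pow_le_pow_right₀ (by linarith) hn
  have h2 : Z ^ 2 ≤ (x : ℤ) ^ n := by
    have h3 : 0 < 2 * ((x : ℤ) - 1) := by linarith
    have h4 : 2 * ((x : ℤ) - 1) * Z ^ 2 ≤ 2 * ((x : ℤ) - 1) * (x : ℤ) ^ n := by
      rw [h]
      nlinarith
    exact le_of_mul_le_mul_left h4 h3
  have h5 : |(Z : ℝ)| ^ 2 ≤ (x : ℝ) ^ n := by
    rw [sq_abs]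
    exact_mod_cast h2
  calc |(Z : ℝ)| = (|(Z : ℝ)| ^ 2) ^ ((((2 : ℕ) : ℝ))⁻¹) :=
        (Real.pow_rpow_inv_natCast (abs_nonneg _) (by omega)).symm
    _ ≤ ((x : ℝ) ^ n) ^ ((((2 : ℕ) : ℝ))⁻¹) :=
        Real.rpow_le_rpow (by positivity) h5 (by positivity)
    _ = (x : ℝ) ^ ((n : ℝ) / (2 : ℕ)) := by
        rw [← Real.rpow_natCast, ← Real.rpow_mul (by positivity), div_eq_mul_inv]

private theorem SizeM_term {x n a b i : ℕ} {δ y : ℝ} (hx : 1 ≤ x) (hy0 : 0 ≤ y)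
    (hy : y ≤ (x : ℝ) ^ ((n : ℝ) / (2 : ℕ)))
    (h : (a : ℝ) + (n : ℝ) * b + (i : ℝ) * n / (2 : ℕ) ≤ δ * n) :
    (x : ℝ) ^ a * ((x : ℝ) ^ (n * b) * y ^ i) ≤ (x : ℝ) ^ (δ * n) := by
  have hx1 : (1 : ℝ) ≤ x := by exact_mod_cast hx
  have hx0 : (0 : ℝ) < x := by linarith
  have h1 : y ^ i ≤ (x : ℝ) ^ ((i : ℝ) * n / (2 : ℕ)) := by
    calc y ^ i ≤ ((x : ℝ) ^ ((n : ℝ) / (2 : ℕ))) ^ i := pow_le_pow_left₀ hy0 hy i
      _ = (x : ℝ) ^ ((i : ℝ) * n / (2 : ℕ)) := by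
          rw [← Real.rpow_natCast ((x : ℝ) ^ ((n : ℝ) / (2 : ℕ))) i, ← Real.rpow_mul hx0.le]
          congr 1
          ring
  have h2 : (x : ℝ) ^ a * (x : ℝ) ^ (n * b) = (x : ℝ) ^ ((a : ℝ) + (n : ℝ) * b) := by
    rw [← pow_add, ← Real.rpow_natCast]
    congr 1
    push_cast
    ring
  calc (x : ℝ) ^ a * ((x : ℝ) ^ (n * b) * y ^ i)
      = (x : ℝ) ^ a * (x : ℝ) ^ (n * b) * y ^ i := by ring
    _ ≤ (x : ℝ) ^ a * (x : ℝ) ^ (n * b) * (x : ℝ) ^ ((i : ℝ) * n / (2 : ℕ)) :=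
        mul_le_mul_of_nonneg_left h1 (by positivity)
    _ = (x : ℝ) ^ ((a : ℝ) + (n : ℝ) * b + (i : ℝ) * n / (2 : ℕ)) := by
        rw [h2, ← Real.rpow_add hx0]
    _ ≤ (x : ℝ) ^ (δ * n) := Real.rpow_le_rpow_of_exponent_le hx1 h

private theorem SizeM_coeff_aeval (x : ℤ) (p : ℤ[X]) {M : ℕ} (hM : p.natDegree ≤ M) (j : ℕ) :
    PowerSeries.coeff j (aeval (xs x) p) =
      ∑ a ∈ range (M + 1), p.coeff a * PowerSeries.coeff j (xs x ^ a) := by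
  rw [aeval_eq_sum_range' (by omega : p.natDegree < M + 1), map_sum]
  refine sum_congr rfl fun a _ => ?_
  rw [PowerSeries.coeff_smul, smul_eq_mul]

private theorem SizeM_aeval {x : ℕ} (hx : 3 ≤ x) (p : ℤ[X]) {M : ℕ} (hM : p.natDegree ≤ M) (j : ℕ) :
    |((PowerSeries.coeff j (aeval (xs (x : ℤ)) p) : ℤ) : ℝ)| ≤
      (x : ℝ) ^ j * 8 ^ j * 2 ^ M * ∑ a ∈ range (M + 1), |(p.coeff a : ℝ)| * (x : ℝ) ^ a := by
  have hx3 : (3 : ℤ) ≤ x := by exact_mod_cast hx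
  rw [SizeM_coeff_aeval (x : ℤ) p hM j]
  push_cast
  refine (abs_sum_le_sum_abs _ _).trans ?_
  rw [mul_sum]
  refine sum_le_sum fun a ha => ?_
  have haM : a ≤ M := by
    have := mem_range.1 ha
    omega
  have h1 : |((PowerSeries.coeff j (xs (x : ℤ) ^ a) : ℤ) : ℝ)| ≤ (x : ℝ) ^ (a + j) * 8 ^ j * 2 ^ a := by
    exact_mod_cast coeff_xs_pow hx3 a j
  have h2 : (2 : ℝ) ^ a ≤ 2 ^ M := pow_le_pow_right₀ (by norm_num) haM
  rw [abs_mul]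
  calc |(p.coeff a : ℝ)| * |((PowerSeries.coeff j (xs (x : ℤ) ^ a) : ℤ) : ℝ)|
      ≤ |(p.coeff a : ℝ)| * ((x : ℝ) ^ (a + j) * 8 ^ j * 2 ^ M) := by
        refine mul_le_mul_of_nonneg_left (h1.trans ?_) (abs_nonneg _)
        exact mul_le_mul_of_nonneg_left h2 (by positivity)
    _ = (x : ℝ) ^ j * 8 ^ j * 2 ^ M * (|(p.coeff a : ℝ)| * (x : ℝ) ^ a) := by
        rw [pow_add]
        ring

private theorem SizeM_zs_aeval {x : ℕ} (hx : 3 ≤ x) (Z : ℤ) (p : ℤ[X]) {M : ℕ}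
    (hM : p.natDegree ≤ M) (l : ℕ) :
    |((PowerSeries.coeff l (zs Z * aeval (xs (x : ℤ)) p) : ℤ) : ℝ)| ≤
      ((l : ℝ) + 1) * ((x : ℝ) ^ l * 8 ^ l * 2 ^ M *
        (|(Z : ℝ)| * ∑ a ∈ range (M + 1), |(p.coeff a : ℝ)| * (x : ℝ) ^ a)) := by
  have hx1 : (1 : ℝ) ≤ x := by exact_mod_cast (by omega : 1 ≤ x)
  have hS : 0 ≤ ∑ a ∈ range (M + 1), |(p.coeff a : ℝ)| * (x : ℝ) ^ a :=
    sum_nonneg fun a _ => by positivity
  rw [PowerSeries.coeff_mul]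
  push_cast
  refine (abs_sum_le_sum_abs _ _).trans ?_
  calc ∑ u ∈ antidiagonal l, |((PowerSeries.coeff u.1 (zs Z) : ℤ) : ℝ) *
        ((PowerSeries.coeff u.2 (aeval (xs (x : ℤ)) p) : ℤ) : ℝ)|
      ≤ ∑ u ∈ antidiagonal l, (x : ℝ) ^ l * 8 ^ l * 2 ^ M *
        (|(Z : ℝ)| * ∑ a ∈ range (M + 1), |(p.coeff a : ℝ)| * (x : ℝ) ^ a) := by
        refine sum_le_sum fun u hu => ?_
        rw [Finset.HasAntidiagonal.mem_antidiagonal] at hu
        have h1 : |((PowerSeries.coeff u.1 (zs Z) : ℤ) : ℝ)| ≤ |(Z : ℝ)| * 4 ^ u.1 := by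
          exact_mod_cast coeff_zs Z u.1
        have h2 := SizeM_aeval hx p hM u.2
        have h3 : (4 : ℝ) ^ u.1 ≤ (x : ℝ) ^ u.1 * 8 ^ u.1 := by
          have h4 : (1 : ℝ) ≤ (x : ℝ) ^ u.1 := one_le_pow₀ hx1
          have h5 : (4 : ℝ) ^ u.1 ≤ 8 ^ u.1 := pow_le_pow_left₀ (by norm_num) (by norm_num) _
          calc (4 : ℝ) ^ u.1 ≤ 1 * 8 ^ u.1 := by rw [one_mul]; exact h5
            _ ≤ (x : ℝ) ^ u.1 * 8 ^ u.1 := mul_le_mul_of_nonneg_right h4 (by positivity)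
        rw [abs_mul]
        calc |((PowerSeries.coeff u.1 (zs Z) : ℤ) : ℝ)| *
              |((PowerSeries.coeff u.2 (aeval (xs (x : ℤ)) p) : ℤ) : ℝ)|
            ≤ (|(Z : ℝ)| * ((x : ℝ) ^ u.1 * 8 ^ u.1)) * ((x : ℝ) ^ u.2 * 8 ^ u.2 * 2 ^ M *
              ∑ a ∈ range (M + 1), |(p.coeff a : ℝ)| * (x : ℝ) ^ a) := by
              refine mul_le_mul (h1.trans ?_) h2 (abs_nonneg _) (by positivity)
              exact mul_le_mul_of_nonneg_left h3 (abs_nonneg _)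
          _ = (x : ℝ) ^ l * 8 ^ l * 2 ^ M *
              (|(Z : ℝ)| * ∑ a ∈ range (M + 1), |(p.coeff a : ℝ)| * (x : ℝ) ^ a) := by
              rw [← hu, pow_add, pow_add]
              ring
    _ = _ := by
        rw [sum_const, Nat.card_antidiagonal, nsmul_eq_mul]
        push_cast
        ring

theorem size_Phi {B : ℕ} {δ C : ℝ} (hδ : 1 ≤ δ) (hC : 1 ≤ C) : ∃ D : ℝ, 1 ≤ D ∧
    ∀ n : ℕ, 1 ≤ n → ∀ P : ℕ → ℕ → ℤ[X],
      (∀ i b a, (P i b).coeff a ≠ 0 → i < 2 ∧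
        (a : ℝ) + (n : ℝ) * b + (i : ℝ) * n / (2 : ℕ) ≤ δ * n) →
      (∀ i b a, |((P i b).coeff a : ℝ)| ≤ C ^ n) →
      ∀ x : ℕ, 3 ≤ x → ∀ Z : ℤ, 2 * ((x : ℤ) - 1) * Z ^ 2 = (x : ℤ) ^ n + x - 2 →
      ∀ l : ℕ, l ≤ 2 * n →
        |((PowerSeries.coeff l (Phi n B P x Z) : ℤ) : ℝ)| ≤ D ^ n * (x : ℝ) ^ (δ * n + l + B) := by
  have h2δ : (1 : ℝ) ≤ (2 : ℝ) ^ δ := Real.one_le_rpow (by norm_num) (by linarith)
  have hB : (1 : ℝ) ≤ 2 * B + 1 := by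
    have : (0 : ℝ) ≤ 2 * B := by positivity
    linarith
  have hd1 : (1 : ℝ) ≤ 2 * (δ + 1) := by linarith
  refine ⟨(2 * B + 1) * ((2 * (δ + 1)) * (256 * ((2 : ℝ) ^ δ * C))), ?_, ?_⟩
  · exact one_le_mul_of_one_le_of_one_le hB (one_le_mul_of_one_le_of_one_le hd1
      (one_le_mul_of_one_le_of_one_le (by norm_num) (one_le_mul_of_one_le_of_one_le h2δ hC)))
  · intro n hn P hP hC' x hx Z hZ l hl
    have hx1 : (1 : ℝ) ≤ x := by exact_mod_cast (by omega : 1 ≤ x)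
    have hx0 : (0 : ℝ) < x := by linarith
    have hx3 : (3 : ℝ) ≤ x := by exact_mod_cast hx
    have hZ' := SizeM_Z hn hx hZ
    set M : ℕ := ⌊δ * n⌋₊ with hM
    set T : ℝ := (2 * (δ + 1)) ^ n * (C ^ n * (x : ℝ) ^ (δ * n)) with hT
    have hT0 : 0 ≤ T := by positivity
    -- the weighted sums of the coefficients
    have hsum : ∀ i b : ℕ, (x : ℝ) ^ (n * b) * |(Z : ℝ)| ^ i *
        ∑ a ∈ range (M + 1), |((P i b).coeff a : ℝ)| * (x : ℝ) ^ a ≤ T := by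
      intro i b
      rw [mul_sum]
      calc ∑ a ∈ range (M + 1), (x : ℝ) ^ (n * b) * |(Z : ℝ)| ^ i *
            (|((P i b).coeff a : ℝ)| * (x : ℝ) ^ a)
          ≤ ∑ a ∈ range (M + 1), C ^ n * (x : ℝ) ^ (δ * n) := by
            refine sum_le_sum fun a _ => ?_
            by_cases h0 : (P i b).coeff a = 0
            · rw [h0]
              simp only [Int.cast_zero, abs_zero, zero_mul, mul_zero]
              positivity
            · have ht := SizeM_term (by omega : 1 ≤ x) (abs_nonneg (Z : ℝ)) hZ' (hP i b a h0).2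
              calc (x : ℝ) ^ (n * b) * |(Z : ℝ)| ^ i * (|((P i b).coeff a : ℝ)| * (x : ℝ) ^ a)
                  = |((P i b).coeff a : ℝ)| *
                    ((x : ℝ) ^ a * ((x : ℝ) ^ (n * b) * |(Z : ℝ)| ^ i)) := by ring
                _ ≤ C ^ n * (x : ℝ) ^ (δ * n) :=
                    mul_le_mul (hC' i b a) ht (by positivity) (by positivity)
        _ = ((M : ℝ) + 1) * (C ^ n * (x : ℝ) ^ (δ * n)) := by
            rw [sum_const, card_range, nsmul_eq_mul]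
            push_cast
            ring
        _ ≤ T := mul_le_mul_of_nonneg_right (SizeM_count (by linarith) hn) (by positivity)
    set W : ℝ := (x : ℝ) ^ B * (((l : ℝ) + 1) * ((x : ℝ) ^ l * 8 ^ l * 2 ^ M)) with hW
    have hW0 : 0 ≤ W := by positivity
    have key : ∀ b ∈ range B,
        |((PowerSeries.coeff l (PowerSeries.C ((x : ℤ) ^ (n * b) * ((x : ℤ) - 2) ^ (B - 1 - b)) *
          (aeval (xs (x : ℤ)) (P 0 b) + zs Z * aeval (xs (x : ℤ)) (P 1 b))) : ℤ) : ℝ)| ≤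
        2 * (W * T) := by
      intro b hb
      rw [PowerSeries.coeff_C_mul, map_add]
      push_cast
      rw [abs_mul, abs_mul]
      have h1 := SizeM_aeval hx (P 0 b) (SizeM_natDegree hP 0 b) l
      have h2 := SizeM_zs_aeval hx Z (P 1 b) (SizeM_natDegree hP 1 b) l
      have h3 : |((x : ℝ) - 2) ^ (B - 1 - b)| ≤ (x : ℝ) ^ B := by
        rw [abs_pow, abs_of_nonneg (by linarith : (0 : ℝ) ≤ (x : ℝ) - 2)]
        calc ((x : ℝ) - 2) ^ (B - 1 - b) ≤ (x : ℝ) ^ (B - 1 - b) :=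
              pow_le_pow_left₀ (by linarith) (by linarith) _
          _ ≤ (x : ℝ) ^ B := pow_le_pow_right₀ hx1 (by omega)
      have h4 : |(x : ℝ) ^ (n * b)| = (x : ℝ) ^ (n * b) := abs_of_nonneg (by positivity)
      have hs0 := hsum 0 b
      have hs1 := hsum 1 b
      rw [pow_zero, mul_one] at hs0
      rw [pow_one] at hs1
      rw [← hM] at h1 h2
      set S0 : ℝ := ∑ a ∈ range (M + 1), |((P 0 b).coeff a : ℝ)| * (x : ℝ) ^ a with hS0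
      set S1 : ℝ := ∑ a ∈ range (M + 1), |((P 1 b).coeff a : ℝ)| * (x : ℝ) ^ a with hS1
      have hS0n : 0 ≤ S0 := sum_nonneg fun a _ => by positivity
      have hS1n : 0 ≤ S1 := sum_nonneg fun a _ => by positivity
      set E : ℝ := (x : ℝ) ^ l * 8 ^ l * 2 ^ M with hE
      have hE0 : 0 ≤ E := by positivity
      have hl0 : (0 : ℝ) ≤ l := Nat.cast_nonneg l
      have h5 : |((PowerSeries.coeff l (aeval (xs (x : ℤ)) (P 0 b)) : ℤ) : ℝ) +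
          ((PowerSeries.coeff l (zs Z * aeval (xs (x : ℤ)) (P 1 b)) : ℤ) : ℝ)| ≤
          ((l : ℝ) + 1) * (E * (S0 + |(Z : ℝ)| * S1)) := by
        refine (abs_add_le _ _).trans ((add_le_add h1 h2).trans ?_)
        have h6 : E * S0 ≤ ((l : ℝ) + 1) * (E * S0) := by
          have : 0 ≤ E * S0 := mul_nonneg hE0 hS0n
          nlinarith
        calc E * S0 + ((l : ℝ) + 1) * (E * (|(Z : ℝ)| * S1))
            ≤ ((l : ℝ) + 1) * (E * S0) + ((l : ℝ) + 1) * (E * (|(Z : ℝ)| * S1)) := by linarith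
          _ = ((l : ℝ) + 1) * (E * (S0 + |(Z : ℝ)| * S1)) := by ring
      rw [h4]
      calc (x : ℝ) ^ (n * b) * |((x : ℝ) - 2) ^ (B - 1 - b)| *
            |((PowerSeries.coeff l (aeval (xs (x : ℤ)) (P 0 b)) : ℤ) : ℝ) +
              ((PowerSeries.coeff l (zs Z * aeval (xs (x : ℤ)) (P 1 b)) : ℤ) : ℝ)|
          ≤ (x : ℝ) ^ (n * b) * (x : ℝ) ^ B * (((l : ℝ) + 1) * (E * (S0 + |(Z : ℝ)| * S1))) := by
            refine mul_le_mul (mul_le_mul_of_nonneg_left h3 (by positivity)) h5 (abs_nonneg _)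
              (by positivity)
        _ = W * ((x : ℝ) ^ (n * b) * S0 + (x : ℝ) ^ (n * b) * |(Z : ℝ)| * S1) := by
            rw [hW]
            ring
        _ ≤ W * (T + T) := mul_le_mul_of_nonneg_left (add_le_add hs0 hs1) hW0
        _ = 2 * (W * T) := by ring
    have htot : |((PowerSeries.coeff l (Phi n B P x Z) : ℤ) : ℝ)| ≤ (B : ℝ) * (2 * (W * T)) := by
      unfold Phi
      rw [map_sum, Int.cast_sum]
      refine (abs_sum_le_sum_abs _ _).trans ((sum_le_sum key).trans (le_of_eq ?_))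
      rw [sum_const, card_range, nsmul_eq_mul]
    refine htot.trans ?_
    have h5 : 2 * (B : ℝ) ≤ (2 * B + 1) ^ n := by
      calc 2 * (B : ℝ) ≤ 2 * B + 1 := by linarith
        _ = (2 * (B : ℝ) + 1) ^ 1 := (pow_one _).symm
        _ ≤ (2 * B + 1) ^ n := pow_le_pow_right₀ hB hn
    have h6 : ((l : ℝ) + 1) * 8 ^ l ≤ 256 ^ n := by
      have h7 : ((l : ℝ) + 1) ≤ 2 ^ l := by exact_mod_cast (Nat.lt_two_pow_self (n := l))
      calc ((l : ℝ) + 1) * 8 ^ l ≤ 2 ^ l * 8 ^ l := mul_le_mul_of_nonneg_right h7 (by positivity)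
        _ = 16 ^ l := by rw [← mul_pow]; norm_num
        _ ≤ 16 ^ (2 * n) := pow_le_pow_right₀ (by norm_num) hl
        _ = 256 ^ n := by rw [pow_mul]; norm_num
    have h7 : (2 : ℝ) ^ M ≤ ((2 : ℝ) ^ δ) ^ n := SizeM_two_pow (by linarith) n
    have h8 : (x : ℝ) ^ (δ * n + l + B) = (x : ℝ) ^ (δ * n) * (x : ℝ) ^ l * (x : ℝ) ^ B := by
      rw [Real.rpow_add hx0, Real.rpow_add hx0, Real.rpow_natCast, Real.rpow_natCast]
    rw [h8]
    calc (B : ℝ) * (2 * (W * T))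
        = (2 * (B : ℝ)) * ((((l : ℝ) + 1) * 8 ^ l) * (2 : ℝ) ^ M) *
          ((2 * (δ + 1)) ^ n * C ^ n * ((x : ℝ) ^ (δ * n) * (x : ℝ) ^ l * (x : ℝ) ^ B)) := by
          rw [hW, hT]
          ring
      _ ≤ (2 * B + 1) ^ n * (256 ^ n * ((2 : ℝ) ^ δ) ^ n) *
          ((2 * (δ + 1)) ^ n * C ^ n * ((x : ℝ) ^ (δ * n) * (x : ℝ) ^ l * (x : ℝ) ^ B)) := by
          refine mul_le_mul_of_nonneg_right ?_ (by positivity)
          refine mul_le_mul h5 ?_ (by positivity) (by positivity)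
          exact mul_le_mul h6 h7 (by positivity) (by positivity)
      _ = ((2 * B + 1) * ((2 * (δ + 1)) * (256 * ((2 : ℝ) ^ δ * C)))) ^ n *
          ((x : ℝ) ^ (δ * n) * (x : ℝ) ^ l * (x : ℝ) ^ B) := by
          simp only [mul_pow]
          ring

end Pool.Agent.GMF
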