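import Pool.Agent.GMF.SelQ
import Pool.Agent.GMF.GauQ
import Pool.Agent.NLG.EWr
import Pool.Agent.NLG.Mult

/-!
GMF-ZLemQ: the zero estimate at a rational point.

PLAN.  Copy NLG/ZLem.lean (all private lemmas; ZLem_sum_cast with z : ℚ) with z = α / β : ℚ, selectQ instead
of select, and gaussQ instead of dvd_int_of_complex + gauss: (X - C ((α/β : ℚ) : ℂ))^(M+1-L) ∣ W over ℂ
(v^q = ((α/β : ℚ) : ℂ) = (α : ℂ) / β), so |α|^(M+1-L) ≤ the bound of det_coeff_le.
-/

namespace Pool.Agent.GMF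

open Finset Polynomial Pool.Agent.NLG

private theorem ZLemQ_thet_add {R : Type*} [CommRing R] (l : ℕ) (F G : R[X]) :
    thet l (F + G) = thet l F + thet l G := by
  unfold thet
  refine Polynomial.sum_add_index F G _ (fun e => ?_) (fun e a b => ?_)
  · rw [zero_mul, monomial_zero_right]
  · rw [add_mul, map_add]

private theorem ZLemQ_thet_monomial {R : Type*} [CommRing R] (l e : ℕ) (c : R) :
    thet l (monomial e c) = monomial e (c * (e : R) ^ l) := by
  unfold thet
  rw [Polynomial.sum_monomial_index]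
  rw [zero_mul, monomial_zero_right]

private theorem ZLemQ_went_add (q i l : ℕ) (P Q : ℤ[X]) :
    went q i l (P + Q) = went q i l P + went q i l Q := by
  unfold went
  refine Polynomial.sum_add_index P Q _ (fun e => ?_) (fun e a b => ?_)
  · rw [zero_mul, monomial_zero_right]
  · rw [add_mul, map_add]

private theorem ZLemQ_went_monomial (q i l d : ℕ) (c : ℤ) :
    went q i l (monomial d c) = monomial d (c * ((q * d + (q - 1 - i) : ℕ) : ℤ) ^ l) := by
  unfold went
  rw [Polynomial.sum_monomial_index]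
  rw [zero_mul, monomial_zero_right]

private theorem ZLemQ_fq_add (q i : ℕ) (P Q : ℤ[X]) : fq q i (P + Q) = fq q i P + fq q i Q := by
  unfold fq
  rw [Polynomial.map_add, add_comp, add_mul]

private theorem ZLemQ_fq_monomial (q i d : ℕ) (c : ℤ) :
    fq q i (monomial d c) = monomial (q * d + (q - 1 - i)) (c : ℚ) := by
  unfold fq
  rw [Polynomial.map_monomial, monomial_comp, ← pow_mul, mul_assoc, ← pow_add,
    ← C_mul_X_pow_eq_monomial]
  rfl

private theorem ZLemQ_went_coeff (q i l : ℕ) (P : ℤ[X]) (d : ℕ) :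
    (went q i l P).coeff d = P.coeff d * ((q * d + (q - 1 - i) : ℕ) : ℤ) ^ l := by
  induction P using Polynomial.induction_on' with
  | add p p' h h' => rw [ZLemQ_went_add, coeff_add, coeff_add, h, h', add_mul]
  | monomial n a =>
    rw [ZLemQ_went_monomial, coeff_monomial, coeff_monomial]
    split_ifs with h
    · rw [h]
    · rw [zero_mul]

private theorem ZLemQ_thet_fq (q i l : ℕ) (P : ℤ[X]) :
    thet l (fq q i P) =
      X ^ (q - 1 - i) * ((went q i l P).map (Int.castRingHom ℚ)).comp (X ^ q) := by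
  induction P using Polynomial.induction_on' with
  | add p p' h h' =>
    rw [ZLemQ_fq_add, ZLemQ_thet_add, h, h', ZLemQ_went_add, Polynomial.map_add, add_comp, mul_add]
  | monomial n a =>
    rw [ZLemQ_fq_monomial, ZLemQ_thet_monomial, ZLemQ_went_monomial, Polynomial.map_monomial,
      monomial_comp, ← pow_mul, mul_left_comm, ← pow_add, ← C_mul_X_pow_eq_monomial]
    congr 2
    · simp
    · ring

private theorem ZLemQ_thet_map (l : ℕ) (F : ℚ[X]) :
    thet l (F.map (algebraMap ℚ ℂ)) = (thet l F).map (algebraMap ℚ ℂ) := by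
  induction F using Polynomial.induction_on' with
  | add p p' h h' =>
    rw [Polynomial.map_add, ZLemQ_thet_add, h, h', ZLemQ_thet_add, Polynomial.map_add]
  | monomial n a =>
    rw [Polynomial.map_monomial, ZLemQ_thet_monomial, ZLemQ_thet_monomial, Polynomial.map_monomial]
    simp

private theorem ZLemQ_sum (q i m : ℕ) (v : ℂ) (P : ℤ[X]) :
    ((fq q i P).map (algebraMap ℚ ℂ)).sum (fun e c => c * v ^ e * (e : ℂ) ^ m) =
      v ^ (q - 1 - i) * P.sum (fun d c => (c : ℂ) * (v ^ q) ^ d *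
        ((q * d + (q - 1 - i) : ℕ) : ℂ) ^ m) := by
  induction P using Polynomial.induction_on' with
  | add p p' h h' =>
    rw [ZLemQ_fq_add, Polynomial.map_add]
    rw [Polynomial.sum_add_index _ _ _ (fun e => by ring) (fun e a b => by ring), h, h',
      Polynomial.sum_add_index p p' _ (fun e => by push_cast; ring)
        (fun e a b => by push_cast; ring)]
    ring
  | monomial n a =>
    rw [ZLemQ_fq_monomial, Polynomial.map_monomial, Polynomial.sum_monomial_index _ _ (by ring),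
      Polynomial.sum_monomial_index _ _ (by push_cast; ring)]
    rw [pow_add, pow_mul]
    simp only [eq_ratCast, Rat.cast_intCast]
    ring

private theorem ZLemQ_sum_cast (q i m : ℕ) (z : ℚ) (P : ℤ[X]) :
    (((P.sum fun d c => (c : ℚ) * z ^ d * ((q * d + (q - 1 - i) : ℕ) : ℚ) ^ m) : ℚ) : ℂ) =
      P.sum (fun d c => (c : ℂ) * (z : ℂ) ^ d * ((q * d + (q - 1 - i) : ℕ) : ℂ) ^ m) := by
  rw [Polynomial.sum, Polynomial.sum, Rat.cast_sum]
  refine Finset.sum_congr rfl fun d _ => ?_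
  push_cast
  rfl

private theorem ZLemQ_det {L q : ℕ} (ty : Fin L → ℕ) (P : Fin L → ℤ[X]) :
    (Matrix.of fun l k : Fin L => thet (l : ℕ) (fq q (ty k) (P k))).det =
      X ^ (∑ k, (q - 1 - ty k)) *
        (((Matrix.of fun l k : Fin L => went q (ty k) (l : ℕ) (P k)).det).map
          (Int.castRingHom ℚ)).comp (X ^ q) := by
  have h1 : (Matrix.of fun l k : Fin L => thet (l : ℕ) (fq q (ty k) (P k))) =
      Matrix.of fun l k : Fin L => (X : ℚ[X]) ^ (q - 1 - ty k) *
        (((compRingHom ((X : ℚ[X]) ^ q)).comp (mapRingHom (Int.castRingHom ℚ))).mapMatrix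
          (Matrix.of fun l k : Fin L => went q (ty k) (l : ℕ) (P k))) l k := by
    ext1 l k
    rw [Matrix.of_apply, Matrix.of_apply, ZLemQ_thet_fq]
    rfl
  rw [h1, Matrix.det_mul_row, ← RingHom.map_det, Finset.prod_pow_eq_pow_sum]
  rfl

theorem zero_lemmaQ {q B R M H : ℕ} (hq : 1 ≤ q) {Q : ℕ → ℕ → ℤ[X]}
    (hdeg : ∀ i b, (Q i b).natDegree ≤ R) (hH : ∀ i b d, |(Q i b).coeff d| ≤ H)
    (hne : ∃ i b, i < q ∧ b < B ∧ Q i b ≠ 0) {α β : ℤ} (hc : IsCoprime α β) (hα : α ≠ 0)
    (hβ : β ≠ 0) {w y : ℚ} (hw : (H : ℚ) + 1 < |w|) (hy : y ≠ 0)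
    (hM : ∀ l < M, vvQ q B Q ((α : ℚ) / β) w y l = 0) :
    |α| ^ (M + 1 - q * B) ≤
      (q * B).factorial * (((R : ℤ) + 1) * (H * ((q : ℤ) * R + q) ^ (q * B))) ^ (q * B) := by
  obtain ⟨L, hL, ty, P, γ, hP, hind, ⟨k0, hk0⟩, hsum⟩ := selectQ hq hH hne hw hy hM
  obtain ⟨v, hv⟩ := IsAlgClosed.exists_pow_nat_eq ((((α : ℚ) / β : ℚ) : ℂ)) (Nat.pos_of_ne_zero (by omega) : 0 < q)
  have hz : ((α : ℚ) / β) ≠ 0 := div_ne_zero (by exact_mod_cast hα) (by exact_mod_cast hβ)
  have hzc : ((((α : ℚ) / β : ℚ) : ℂ)) ≠ 0 := by exact_mod_cast hz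
  have hv0 : v ≠ 0 := by
    rintro rfl
    rw [zero_pow (by omega)] at hv
    exact hzc hv.symm
  have hH1 : (1 : ℤ) ≤ H := by
    obtain ⟨i, b, -, -, hQ⟩ := hne
    obtain ⟨d, hd⟩ := Polynomial.support_nonempty.2 hQ
    rw [mem_support_iff] at hd
    have h1 := hH i b d
    have h2 : 1 ≤ |(Q i b).coeff d| := Int.one_le_abs hd
    omega
  set W : ℤ[X] := (Matrix.of fun l k : Fin L => went q (ty k) (l : ℕ) (P k)).det with hWdef
  have hW : W ≠ 0 := by
    intro h0
    have h1 := det_thet_ne_zero (fun k => fq q (ty k) (P k)) hind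
    apply h1
    rw [ZLemQ_det, ← hWdef, h0, Polynomial.map_zero, zero_comp, mul_zero]
  have hdvd : (X - C v) ^ (M + 1 - L) ∣ (Matrix.of fun l k : Fin L =>
      thet (l : ℕ) ((fq q (ty k) (P k)).map (algebraMap ℚ ℂ))).det := by
    refine dvd_det (M := M) (fun k => (fq q (ty k) (P k)).map (algebraMap ℚ ℂ))
      (fun k => (γ k : ℂ) * (v ^ (q - 1 - ty k))⁻¹) (k0 := k0) ?_ hv0 ?_
    · exact mul_ne_zero (by exact_mod_cast hk0) (inv_ne_zero (pow_ne_zero _ hv0))
    · intro m hm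
      have h1 := hsum m hm
      have h2 : (((∑ k, γ k * (P k).sum (fun d c => (c : ℚ) * ((α : ℚ) / β) ^ d *
        ((q * d + (q - 1 - ty k) : ℕ) : ℚ) ^ m)) : ℚ) : ℂ) = 0 := by
        rw [h1, Rat.cast_zero]
      rw [Rat.cast_sum] at h2
      rw [← h2]
      refine Finset.sum_congr rfl fun k _ => ?_
      rw [ZLemQ_sum, hv, Rat.cast_mul, ZLemQ_sum_cast]
      have hvk : v ^ (q - 1 - ty k) ≠ 0 := pow_ne_zero _ hv0
      field_simp
  have hmapdet : (Matrix.of fun l k : Fin L =>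
      thet (l : ℕ) ((fq q (ty k) (P k)).map (algebraMap ℚ ℂ))).det =
      X ^ (∑ k, (q - 1 - ty k)) * (W.map (Int.castRingHom ℂ)).comp (X ^ q) := by
    have h1 : (Matrix.of fun l k : Fin L =>
        thet (l : ℕ) ((fq q (ty k) (P k)).map (algebraMap ℚ ℂ))) =
        (mapRingHom (algebraMap ℚ ℂ)).mapMatrix
          (Matrix.of fun l k : Fin L => thet (l : ℕ) (fq q (ty k) (P k))) := by
      ext1 l k
      rw [Matrix.of_apply, ZLemQ_thet_map]
      rfl
    rw [h1, ← RingHom.map_det, ZLemQ_det, ← hWdef, coe_mapRingHom, Polynomial.map_mul,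
      Polynomial.map_pow, map_X, Polynomial.map_comp, Polynomial.map_pow, map_X, Polynomial.map_map]
    congr 3
  rw [hmapdet] at hdvd
  have hdvd2 := dvd_of_comp hq hv0 hdvd
  rw [hv] at hdvd2
  have hdvd3 : (X - C ((α : ℂ) / β)) ^ (M + 1 - L) ∣ W.map (Int.castRingHom ℂ) := by
    have hcast : ((((α : ℚ) / β : ℚ) : ℂ)) = (α : ℂ) / β := by push_cast; rfl
    rw [← hcast]
    exact hdvd2
  set E : ℤ := H * ((q : ℤ) * R + q) ^ (q * B) with hE
  have hbase : (1 : ℤ) ≤ (q : ℤ) * R + q := by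
    have hq' : (1 : ℤ) ≤ q := by exact_mod_cast hq
    have hR' : (0 : ℤ) ≤ R := by positivity
    nlinarith
  have hE1 : 1 ≤ E := by
    rw [hE]
    calc (1 : ℤ) = 1 * 1 := by norm_num
      _ ≤ H * ((q : ℤ) * R + q) ^ (q * B) :=
        mul_le_mul hH1 (one_le_pow₀ hbase) (by norm_num) (by omega)
  have hcoef : ∀ d, |W.coeff d| ≤ L.factorial * (((R : ℤ) + 1) * E) ^ L := by
    intro d
    refine det_coeff_le (by omega) _ ?_ ?_ d
    · intro l k
      rw [Matrix.of_apply, natDegree_le_iff_coeff_eq_zero]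
      intro n hn
      obtain ⟨-, b, -, hPk⟩ := hP k
      rw [ZLemQ_went_coeff, hPk, coeff_eq_zero_of_natDegree_lt (lt_of_le_of_lt (hdeg _ _) hn),
        zero_mul]
    · intro l k n
      obtain ⟨-, b, -, hPk⟩ := hP k
      rw [Matrix.of_apply, ZLemQ_went_coeff, hPk]
      by_cases hn : n ≤ R
      · rw [abs_mul, abs_pow, Nat.abs_cast, hE]
        refine mul_le_mul (hH _ _ _) ?_ (by positivity) (by omega)
        have h1 : ((q * n + (q - 1 - ty k) : ℕ) : ℤ) ≤ (q : ℤ) * R + q := by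
          have h2 : q * n + (q - 1 - ty k) ≤ q * R + q := by
            have := Nat.mul_le_mul_left q hn
            omega
          exact_mod_cast h2
        calc ((q * n + (q - 1 - ty k) : ℕ) : ℤ) ^ (l : ℕ) ≤ ((q : ℤ) * R + q) ^ (l : ℕ) :=
              pow_le_pow_left₀ (by positivity) h1 _
          _ ≤ ((q : ℤ) * R + q) ^ (q * B) :=
              pow_le_pow_right₀ hbase (le_trans (le_of_lt l.2) hL)
      · rw [coeff_eq_zero_of_natDegree_lt (lt_of_le_of_lt (hdeg _ _) (by omega)), zero_mul,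
          abs_zero]
        omega
  have hg := gaussQ hW hc hα hβ hdvd3 hcoef
  have hz1 : 1 ≤ |α| := Int.one_le_abs hα
  have hbase2 : (1 : ℤ) ≤ ((R : ℤ) + 1) * E := by
    have hR' : (0 : ℤ) ≤ R := by positivity
    nlinarith
  calc |α| ^ (M + 1 - q * B) ≤ |α| ^ (M + 1 - L) := pow_le_pow_right₀ hz1 (by omega)
    _ ≤ L.factorial * (((R : ℤ) + 1) * E) ^ L := hg
    _ ≤ (q * B).factorial * (((R : ℤ) + 1) * E) ^ (q * B) := by
      refine mul_le_mul ?_ (pow_le_pow_right₀ hbase2 hL) (pow_nonneg (by omega) _) (by positivity)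
      exact_mod_cast Nat.factorial_le hL

end Pool.Agent.GMF
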