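import Pool.Agent.GMF.ZeroV
import Pool.Agent.GMF.ZLemQ

/-!
GMF-ZeroM: some derivative value with l < n + 2 B is not zero.

PLAN.  Model: `core` in NLG/Core.lean (zbound2 is private there: copy).  Suppose all coefficients with
l < M = n + 2 B vanish.  R = ⌊δ n⌋₊: natDegree (P i b) ≤ R (support condition: a ≤ δ n).  Q i b = tp R (P i b):
coefficients ≤ (R+1) ⌊C^n⌋ 3^R ≤ D2^n =: bound for H = ⌊D2^n⌋₊ (tp_coeff), degree ≤ R, some Q i b ≠ 0.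
zeroV, zero_lemmaQ with q = 2, α = x - 1, β = x - 2 (coprime: α - β = 1), w = x^n/(x-2), y = Z
(Z ≠ 0 because x^n + x - 2 > 0): hw: H + 1 < x^n/(x-2): for n ≥ 2, x ≥ X1: x^n/(x-2) ≥ x^(n-1) ≥ x^(n/2) ≥
(D2^2+...)...: take X1 ≥ (D2 + 2)^2, then x^(n-1) ≥ (D2+2)^(2(n-1)) ≥ (D2+2)^n > D2^n + 1.
M + 1 - 2 B = n + 1: (x-1)^(n+1) ≤ (2B)! ((R+1) (H (2R+2)^(2B)))^(2B) ≤ D3^n, impossible for x - 1 ≥ D3, x > 2.
-/

namespace Pool.Agent.GMF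

open Finset Polynomial Pool.Agent.NLG

private theorem ZeroM_le_pow {a : ℝ} (ha : 1 ≤ a) {n : ℕ} (hn : 1 ≤ n) : a ≤ a ^ n :=
  le_self_pow₀ ha (by omega)

private theorem ZeroM_nat (n : ℕ) : (n : ℝ) ≤ 2 ^ n := by
  exact_mod_cast (Nat.lt_two_pow_self (n := n)).le

private theorem ZeroM_R1 {δ : ℝ} (hδ : 0 ≤ δ) {n R : ℕ} (hn : 1 ≤ n) (hR : (R : ℝ) ≤ δ * n) :
    (R : ℝ) + 1 ≤ ((δ + 1) * 2) ^ n := by
  have hn1 : (1 : ℝ) ≤ n := by exact_mod_cast hn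
  have h1 : (R : ℝ) + 1 ≤ (δ + 1) * n := by nlinarith
  have h2 : (δ + 1) * n ≤ (δ + 1) ^ n * 2 ^ n :=
    mul_le_mul (ZeroM_le_pow (by linarith) hn) (ZeroM_nat n) (by positivity) (by positivity)
  rw [mul_pow]
  exact h1.trans h2

/-- The right side of the zero estimate is at most `D3 ^ n`. -/
private theorem ZeroM_zbound {q K : ℕ} (hq : 1 ≤ q) {δ D2 : ℝ} (hδ : 0 ≤ δ) (hD2 : 1 ≤ D2) :
    ∃ D3 : ℝ, 1 ≤ D3 ∧ ∀ n R H : ℕ, 1 ≤ n → (R : ℝ) ≤ δ * n → (H : ℝ) ≤ D2 ^ n →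
      (K.factorial : ℝ) * (((R : ℝ) + 1) * (H * ((q : ℝ) * R + q) ^ K)) ^ K ≤ D3 ^ n := by
  have hq1 : (1 : ℝ) ≤ q := by exact_mod_cast hq
  have hK : (1 : ℝ) ≤ K.factorial := by exact_mod_cast K.factorial_pos
  have ha : 1 ≤ (δ + 1) * 2 := by nlinarith
  have hb : 1 ≤ q * (δ + 1) * 2 := by nlinarith
  refine ⟨K.factorial * (((δ + 1) * 2) * (D2 * (q * (δ + 1) * 2) ^ K)) ^ K, ?_, ?_⟩
  · have h1 : 1 ≤ (q * (δ + 1) * 2) ^ K := one_le_pow₀ hb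
    have h2 : 1 ≤ D2 * (q * (δ + 1) * 2) ^ K := one_le_mul_of_one_le_of_one_le hD2 h1
    have h3 : 1 ≤ ((δ + 1) * 2) * (D2 * (q * (δ + 1) * 2) ^ K) :=
      one_le_mul_of_one_le_of_one_le ha h2
    exact one_le_mul_of_one_le_of_one_le hK (one_le_pow₀ h3)
  · intro n R H hn hR hH
    have hn1 : (1 : ℝ) ≤ n := by exact_mod_cast hn
    have hR0 : (0 : ℝ) ≤ R := Nat.cast_nonneg _
    have hR1 : (R : ℝ) + 1 ≤ ((δ + 1) * 2) ^ n := ZeroM_R1 hδ hn hR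
    have hR2 : (q : ℝ) * R + q ≤ (q * (δ + 1) * 2) ^ n := by
      have h1 : (q : ℝ) * R + q = q * (R + 1) := by ring
      rw [h1, mul_assoc, mul_pow]
      exact mul_le_mul (ZeroM_le_pow hq1 hn) hR1 (by positivity) (by positivity)
    have h3 : (((R : ℝ) + 1) * (H * ((q : ℝ) * R + q) ^ K)) ≤
        (((δ + 1) * 2) * (D2 * (q * (δ + 1) * 2) ^ K)) ^ n := by
      have e1 : (((δ + 1) * 2) * (D2 * (q * (δ + 1) * 2) ^ K)) ^ n =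
          ((δ + 1) * 2) ^ n * (D2 ^ n * ((q * (δ + 1) * 2) ^ n) ^ K) := by
        rw [mul_pow _ (D2 * _), mul_pow D2, ← pow_mul, ← pow_mul, mul_comm K n]
      rw [e1]
      refine mul_le_mul hR1 (mul_le_mul hH (pow_le_pow_left₀ (by positivity) hR2 _) (by positivity)
        (by positivity)) (by positivity) (by positivity)
    have e2 : (K.factorial * (((δ + 1) * 2) * (D2 * (q * (δ + 1) * 2) ^ K)) ^ K) ^ n =
        (K.factorial : ℝ) ^ n * ((((δ + 1) * 2) * (D2 * (q * (δ + 1) * 2) ^ K)) ^ n) ^ K := by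
      rw [mul_pow (K.factorial : ℝ), ← pow_mul, ← pow_mul, mul_comm K n]
    rw [e2]
    exact mul_le_mul (ZeroM_le_pow hK hn) (pow_le_pow_left₀ (by positivity) h3 _) (by positivity)
      (by positivity)

theorem zeroM {B : ℕ} (hB : 1 ≤ B) {δ C : ℝ} (hδ : 1 ≤ δ) (hC : 1 ≤ C) : ∃ n0 X1 : ℕ,
    ∀ n : ℕ, n0 ≤ n → ∀ P : ℕ → ℕ → ℤ[X], (∃ i b, i < 2 ∧ b < B ∧ P i b ≠ 0) →
      (∀ i b a, (P i b).coeff a ≠ 0 → i < 2 ∧
        (a : ℝ) + (n : ℝ) * b + (i : ℝ) * n / (2 : ℕ) ≤ δ * n) →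
      (∀ i b a, |((P i b).coeff a : ℝ)| ≤ C ^ n) →
      ∀ x : ℕ, X1 ≤ x → ∀ Z : ℤ, 2 * ((x : ℤ) - 1) * Z ^ 2 = (x : ℤ) ^ n + x - 2 →
      ∃ l : ℕ, l < n + 2 * B ∧ PowerSeries.coeff l (Phi n B P x Z) ≠ 0 := by
  have hδ0 : 0 ≤ δ := by linarith
  obtain ⟨D2, hD2⟩ : ∃ D2 : ℝ, D2 = ((δ + 1) * 2) * (C * 3 ^ ⌈δ⌉₊) := ⟨_, rfl⟩
  have h31 : (1 : ℝ) ≤ 3 ^ ⌈δ⌉₊ := one_le_pow₀ (by norm_num)
  have hD21 : 1 ≤ D2 := by
    rw [hD2]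
    exact one_le_mul_of_one_le_of_one_le (by nlinarith) (one_le_mul_of_one_le_of_one_le hC h31)
  obtain ⟨D3, hD31, hD3⟩ := ZeroM_zbound (q := 2) (K := 2 * B) (by norm_num) hδ0 hD21
  refine ⟨2, ⌈D3⌉₊ + ⌈(D2 + 2) ^ 2⌉₊ + 4, ?_⟩
  intro n hn P hP0 hPd hPc x hx Z hZ
  obtain ⟨i0, b0, hi0, hb0, hP0⟩ := hP0
  by_contra hcon
  push Not at hcon
  have hn1 : 1 ≤ n := by omega
  have hx4 : 4 ≤ x := by omega
  have hxX : (⌈D3⌉₊ : ℝ) + ⌈(D2 + 2) ^ 2⌉₊ + 4 ≤ x := by exact_mod_cast hx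
  have hc2 : (D2 + 2) ^ 2 ≤ (⌈(D2 + 2) ^ 2⌉₊ : ℝ) := Nat.le_ceil _
  have hc3 : D3 ≤ (⌈D3⌉₊ : ℝ) := Nat.le_ceil _
  have hc20 : (0 : ℝ) ≤ (⌈(D2 + 2) ^ 2⌉₊ : ℝ) := Nat.cast_nonneg _
  have hc30 : (0 : ℝ) ≤ (⌈D3⌉₊ : ℝ) := Nat.cast_nonneg _
  have hx4R : (4 : ℝ) ≤ x := by linarith
  have hZ0 : Z ≠ 0 := by
    rintro rfl
    have h1 : (0 : ℤ) < (x : ℤ) ^ n := by positivity
    have h2 : (4 : ℤ) ≤ x := by exact_mod_cast hx4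
    rw [zero_pow two_ne_zero, mul_zero] at hZ
    linarith
  obtain ⟨R, hR⟩ : ∃ R : ℕ, R = ⌊δ * n⌋₊ := ⟨_, rfl⟩
  have hRle : (R : ℝ) ≤ δ * n := by rw [hR]; exact Nat.floor_le (by positivity)
  have hdeg : ∀ i b, (P i b).natDegree ≤ R := by
    intro i b
    by_cases h0 : P i b = 0
    · rw [h0, natDegree_zero]; exact Nat.zero_le _
    · have h1 := (hPd i b (P i b).natDegree (by
        rw [Polynomial.coeff_natDegree]; exact leadingCoeff_ne_zero.2 h0)).2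
      rw [hR]
      apply Nat.le_floor
      have h2 : (0 : ℝ) ≤ (n : ℝ) * b := by positivity
      have h3 : (0 : ℝ) ≤ (i : ℝ) * n / (2 : ℕ) := by positivity
      linarith
  obtain ⟨H0, hH0⟩ : ∃ H0 : ℕ, H0 = ⌊C ^ n⌋₊ := ⟨_, rfl⟩
  have hH0le : (H0 : ℝ) ≤ C ^ n := by rw [hH0]; exact Nat.floor_le (by positivity)
  obtain ⟨H, hH⟩ : ∃ H : ℕ, H = ⌊D2 ^ n⌋₊ := ⟨_, rfl⟩
  have hHle : (H : ℝ) ≤ D2 ^ n := by rw [hH]; exact Nat.floor_le (by positivity)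
  have hcP : ∀ i b a, |(P i b).coeff a| ≤ (H0 : ℤ) := by
    intro i b a
    have h1 := hPc i b a
    have h2 : |(P i b).coeff a| ≤ ⌊C ^ n⌋ := by
      rw [Int.le_floor]
      push_cast
      exact h1
    rwa [← Int.natCast_floor_eq_floor (by positivity), ← hH0] at h2
  have hbig : (((R : ℤ) + 1) * H0 * 3 ^ R : ℤ) ≤ (H : ℤ) := by
    have h1 : (((R : ℝ) + 1) * H0 * 3 ^ R : ℝ) ≤ D2 ^ n := by
      have h2 : (3 : ℝ) ^ R ≤ (3 ^ ⌈δ⌉₊) ^ n := by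
        rw [← pow_mul]
        apply pow_le_pow_right₀ (by norm_num)
        have h3 : (R : ℝ) ≤ (⌈δ⌉₊ * n : ℕ) := by
          push_cast
          exact hRle.trans (mul_le_mul_of_nonneg_right (Nat.le_ceil δ) (Nat.cast_nonneg n))
        exact_mod_cast h3
      rw [hD2, mul_pow ((δ + 1) * 2) (C * 3 ^ ⌈δ⌉₊), mul_pow C, ← mul_assoc]
      exact mul_le_mul (mul_le_mul (ZeroM_R1 hδ0 hn1 hRle) hH0le (Nat.cast_nonneg _) (by positivity)) h2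
        (by positivity) (by positivity)
    have h2 : (((R : ℤ) + 1) * H0 * 3 ^ R : ℤ) ≤ ⌊D2 ^ n⌋ := by
      rw [Int.le_floor]
      push_cast
      exact h1
    rwa [← Int.natCast_floor_eq_floor (by positivity), ← hH] at h2
  have hv := zeroV (n := n) (B := B) (R := R) (M := n + 2 * B) (P := P) hdeg (x := (x : ℤ)) (Z := Z)
    (by exact_mod_cast (by omega : 3 ≤ x)) hcon
  have hx0Q : (0 : ℚ) < (x : ℚ) := by exact_mod_cast (by omega : 0 < x)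
  have hw : (H : ℚ) + 1 < |((x : ℤ) : ℚ) ^ n / (((x : ℤ) : ℚ) - 2)| := by
    have h2Q : (0 : ℚ) < ((x : ℤ) : ℚ) - 2 := by
      have h4 : (4 : ℚ) ≤ (x : ℚ) := by exact_mod_cast hx4
      push_cast
      linarith
    have hxQ : (0 : ℚ) < ((x : ℤ) : ℚ) := by push_cast; exact hx0Q
    rw [abs_of_pos (by positivity), lt_div_iff₀ h2Q]
    have h1 : (H : ℝ) + 1 < (x : ℝ) ^ (n - 1) := by
      have h2 : (D2 + 2) ^ 2 ≤ (x : ℝ) := by linarith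
      have h3 : ((D2 + 2) ^ 2) ^ (n - 1) ≤ (x : ℝ) ^ (n - 1) := pow_le_pow_left₀ (by positivity) h2 _
      have h4 : (D2 + 2) ^ n ≤ ((D2 + 2) ^ 2) ^ (n - 1) := by
        rw [← pow_mul]
        exact pow_le_pow_right₀ (by linarith) (by omega)
      have h5 : D2 ^ n + 2 ^ n ≤ (D2 + 2) ^ n := pow_add_pow_le (by linarith) (by norm_num) (by omega)
      have h6 : (2 : ℝ) ≤ 2 ^ n := ZeroM_le_pow (by norm_num) hn1
      linarith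
    have h1Q : (H : ℚ) + 1 < ((x : ℤ) : ℚ) ^ (n - 1) := by
      have h7 : ((H + 1 : ℕ) : ℝ) < ((x ^ (n - 1) : ℕ) : ℝ) := by push_cast; exact h1
      have h8 : H + 1 < x ^ (n - 1) := by exact_mod_cast h7
      exact_mod_cast h8
    have h9 : ((x : ℤ) : ℚ) ^ n = ((x : ℤ) : ℚ) ^ (n - 1) * ((x : ℤ) : ℚ) := by
      rw [← pow_succ, Nat.sub_add_cancel hn1]
    rw [h9]
    have hH0' : (0 : ℚ) ≤ (H : ℚ) + 1 := by positivity
    exact mul_lt_mul'' h1Q (by linarith) hH0' h2Q.le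
  have hz := zero_lemmaQ (q := 2) (B := B) (R := R) (M := n + 2 * B) (H := H) (by norm_num)
    (Q := fun i b => tp R (P i b)) (fun i b => tp_natDegree (hdeg i b))
    (fun i b d => (tp_coeff (hdeg i b) (hcP i b) d).trans hbig)
    ⟨i0, b0, hi0, hb0, tp_ne_zero (hdeg i0 b0) hP0⟩ (α := (x : ℤ) - 1) (β := (x : ℤ) - 2)
    ⟨1, -1, by ring⟩ (by omega) (by omega) (w := ((x : ℤ) : ℚ) ^ n / (((x : ℤ) : ℚ) - 2))
    (y := (Z : ℚ)) hw (by exact_mod_cast hZ0) hv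
  have h1 : n + 2 * B + 1 - 2 * B = n + 1 := by omega
  have hzabs : |((x : ℤ) - 1)| = (x : ℤ) - 1 := abs_of_nonneg (by omega)
  rw [h1, hzabs] at hz
  have hzR : ((x : ℝ) - 1) ^ (n + 1) ≤ (((2 * B).factorial : ℕ) : ℝ) *
      (((R : ℝ) + 1) * (H * (((2 : ℕ) : ℝ) * R + (2 : ℕ)) ^ (2 * B))) ^ (2 * B) := by
    exact_mod_cast hz
  have h2 := hzR.trans (hD3 n R H hn1 hRle hHle)
  have h3 : D3 ≤ (x : ℝ) - 1 := by linarith
  have h4 : (1 : ℝ) < (x : ℝ) - 1 := by linarith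
  have h5 : D3 ^ n ≤ ((x : ℝ) - 1) ^ n := pow_le_pow_left₀ (by linarith) h3 _
  have h6 : ((x : ℝ) - 1) ^ n < ((x : ℝ) - 1) ^ (n + 1) := pow_lt_pow_right₀ h4 (by omega)
  linarith

end Pool.Agent.GMF
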