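import Pool.Agent.GMF.Div
import Pool.Agent.GMF.SizeM
import Pool.Agent.GMF.AuxM
import Pool.Agent.GMF.ZeroM

/-!
GMF-TS: the Thue-Siegel theorem, uniform in n.

PLAN.  lam = 312, eta = 12, δ = 319 (12 · 13 = 156 ≤ 312; 12·312 + 78 + 156 = 3978 ≤ 312 · 13.5 = 4212).
auxM gives C; size_Phi (B = 312) D; zeroM (B = 312) n0, X1.  Take n ≥ max n0 2000, x ≥ max X1 (⌈D⌉₊ + 1), 3 ≤ x.
P from auxM (hB: P i b = 0 for b ≥ 312 since all coefficients vanish: support condition gives b < lam).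
l < n + 624 ≤ 2 n with V = coeff l (Phi ...) ≠ 0; x^(324 n - l) ∣ V (div_Phi with N = (312 + 12) n), so
x^(324 n - l) ≤ |V| ≤ D^n x^(319 n + l + 312) (real powers; Real.rpow_natCast), hence
x^(5 n - 2 l - 312) ≤ D^n with 5 n - 2 l - 312 ≥ 3 n - 1560 ≥ n, so x^n ≤ D^n, x ≤ D < x.
-/

namespace Pool.Agent.GMF

open Finset Polynomial Pool.Agent.NLG

theorem ts_main : ∃ n0 X1 : ℕ, ∀ n : ℕ, n0 ≤ n → ∀ x : ℕ, X1 ≤ x → Odd x → ∀ Z : ℤ,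
    (x : ℤ) ∣ Z - 1 → 2 * ((x : ℤ) - 1) * Z ^ 2 ≠ (x : ℤ) ^ n + x - 2 := by
  have hδ : (((12 : ℕ) : ℝ) * ((312 : ℕ) : ℝ) + ((12 : ℕ) : ℝ) * (((12 : ℕ) : ℝ) + 1) / 2) +
      ((312 : ℕ) : ℝ) / 2 ≤
      ((312 : ℕ) : ℝ) * (2 * ((319 : ℝ) - ((312 : ℕ) : ℝ)) - ((2 : ℝ) - 1) / 2) := by
    norm_num
  obtain ⟨C, hC, haux⟩ := auxM (lam := 312) (eta := 12) (δ := 319) (by norm_num) (by norm_num) hδ
  obtain ⟨D, hD, hsize⟩ := size_Phi (B := 312) (δ := 319) (C := C) (by norm_num) hC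
  obtain ⟨n0, X1, hzero⟩ := zeroM (B := 312) (by norm_num) (δ := 319) (C := C) (by norm_num) hC
  refine ⟨max n0 2000, max X1 (⌈D⌉₊ + 3), ?_⟩
  intro n hn x hx hodd Z hZ he
  have hn0 : n0 ≤ n := (le_max_left _ _).trans hn
  have hn2 : 2000 ≤ n := (le_max_right _ _).trans hn
  have hx1 : X1 ≤ x := (le_max_left _ _).trans hx
  have hx2 : ⌈D⌉₊ + 3 ≤ x := (le_max_right _ _).trans hx
  have hx3 : 3 ≤ x := by omega
  have hn1 : 1 ≤ n := by omega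
  obtain ⟨P, hP0, hP1, hP2, hP3⟩ := haux n hn1
  have hB : ∀ i b, 312 ≤ b → P i b = 0 := by
    intro i b hb
    ext a
    by_contra hne
    have h1 := (hP1 i b a (by simpa using hne)).2.1
    omega
  have hsupp : ∀ i b a, (P i b).coeff a ≠ 0 → i < 2 ∧
      (a : ℝ) + (n : ℝ) * b + (i : ℝ) * n / (2 : ℕ) ≤ (319 : ℝ) * n := by
    intro i b a h
    obtain ⟨h1, _, _, h4⟩ := hP1 i b a h
    exact ⟨h1, h4⟩
  obtain ⟨l, hl, hne⟩ := hzero n hn0 P hP0 hsupp hP2 x hx1 Z he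
  have hdiv := div_Phi (B := 312) hn1 hB hP3 (x := (x : ℤ)) (Z := Z) (by exact_mod_cast hx3)
    (by exact_mod_cast hodd) hZ he l
  have hsz := hsize n hn1 P hsupp hP2 x hx3 Z he l (by omega)
  obtain ⟨V, hV⟩ : ∃ V : ℤ, V = PowerSeries.coeff l (Phi n 312 P x Z) := ⟨_, rfl⟩
  rw [← hV] at hne hdiv hsz
  have h1 : (x : ℤ) ^ ((312 + 12) * n - l) ≤ |V| :=
    Int.le_of_dvd (abs_pos.2 hne) ((dvd_abs _ _).2 hdiv)
  have h2 : (x : ℝ) ^ ((312 + 12) * n - l) ≤ |(V : ℝ)| := by exact_mod_cast h1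
  have h3 := h2.trans hsz
  have hxpos : (0 : ℝ) < x := by
    have : 0 < x := by omega
    exact_mod_cast this
  have hx1' : (1 : ℝ) ≤ x := by
    have : 1 ≤ x := by omega
    exact_mod_cast this
  have e1 : (319 : ℝ) * n + l + ((312 : ℕ) : ℝ) = ((319 * n + l + 312 : ℕ) : ℝ) := by
    push_cast
    ring
  rw [e1, Real.rpow_natCast] at h3
  have e2 : (312 + 12) * n - l = (319 * n + l + 312) + (5 * n - 2 * l - 312) := by omega
  rw [e2, pow_add, mul_comm (D ^ n)] at h3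
  have h4 : (x : ℝ) ^ (5 * n - 2 * l - 312) ≤ D ^ n :=
    le_of_mul_le_mul_left h3 (pow_pos hxpos _)
  have h5 : (x : ℝ) ^ n ≤ (x : ℝ) ^ (5 * n - 2 * l - 312) :=
    pow_le_pow_right₀ hx1' (by omega)
  have h6 : (x : ℝ) ≤ D :=
    le_of_pow_le_pow_left₀ (by omega) (by linarith) (h5.trans h4)
  have h7 : D ≤ (⌈D⌉₊ : ℝ) := Nat.le_ceil D
  have h8 : ((⌈D⌉₊ + 3 : ℕ) : ℝ) ≤ (x : ℝ) := by exact_mod_cast hx2
  push_cast at h8
  linarith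

end Pool.Agent.GMF
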