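import Pool.Agent.GMF.Defs

/-!
GMF-Tp: the polynomials `tp R p = (1 - τ) ^ R p ((1 - 2 τ) / (1 - τ))`: evaluation, degree, size of the
coefficients and non-vanishing.
-/

namespace Pool.Agent.GMF

open Finset Polynomial Pool.Agent.NLG

private theorem Tp_step {c : ℤ} (hc : |c| ≤ 2) {q : ℤ[X]} {M : ℤ} (h : ∀ d, |q.coeff d| ≤ M) (d : ℕ) :
    |((1 - C c * X) * q).coeff d| ≤ 3 * M := by
  have hM : 0 ≤ M := le_trans (abs_nonneg _) (h 0)
  have he : (1 - C c * X) * q = q - C c * (X * q) := by ring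
  rw [he, coeff_sub, coeff_C_mul]
  cases d with
  | zero =>
    rw [coeff_X_mul_zero, mul_zero, sub_zero]
    have := h 0
    linarith
  | succ d =>
    rw [coeff_X_mul]
    have h1 := h (d + 1)
    have h2 := h d
    have h3 : |c * q.coeff d| ≤ 2 * M := by
      rw [abs_mul]
      exact mul_le_mul hc h2 (abs_nonneg _) (by norm_num)
    have h4 := abs_sub (q.coeff (d + 1)) (c * q.coeff d)
    linarith

private theorem Tp_pow {c : ℤ} (hc : |c| ≤ 2) {q : ℤ[X]} {M : ℤ} (h : ∀ d, |q.coeff d| ≤ M) (n : ℕ) :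
    ∀ d : ℕ, |((1 - C c * X) ^ n * q).coeff d| ≤ 3 ^ n * M := by
  induction n with
  | zero => intro d; simpa using h d
  | succ n ih =>
    intro d
    have := Tp_step hc ih d
    rw [← mul_assoc, ← pow_succ'] at this
    calc _ ≤ 3 * (3 ^ n * M) := this
      _ = 3 ^ (n + 1) * M := by ring

private theorem Tp_term {R a : ℕ} (ha : a ≤ R) (d : ℕ) :
    |((1 - 2 * X : ℤ[X]) ^ a * (1 - X) ^ (R - a)).coeff d| ≤ 3 ^ R := by
  have h1 : ∀ d : ℕ, |(1 : ℤ[X]).coeff d| ≤ 1 := by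
    intro d
    rw [coeff_one]
    split_ifs <;> simp
  have h2 := Tp_pow (c := 1) (by norm_num) h1 (R - a)
  have h3 := Tp_pow (c := 2) (by norm_num) h2 a d
  have e1 : (C (1 : ℤ) : ℤ[X]) = 1 := C_1
  have e2 : (C (2 : ℤ) : ℤ[X]) = 2 := by simp
  rw [e1, e2, one_mul, mul_one, mul_one] at h3
  calc _ ≤ (3 : ℤ) ^ a * 3 ^ (R - a) := h3
    _ = 3 ^ R := by rw [← pow_add, Nat.add_sub_cancel' ha]

theorem tp_eval {A : Type*} [CommRing A] {R : ℕ} {p : ℤ[X]} (hp : p.natDegree ≤ R) {τ ξ : A}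
    (h : (1 - τ) * ξ = 1 - 2 * τ) : aeval τ (tp R p) = (1 - τ) ^ R * aeval ξ p := by
  have h1 : aeval ξ p = ∑ a ∈ p.support, ((p.coeff a : ℤ) : A) * ξ ^ a := by
    rw [aeval_def, eval₂_eq_sum, Polynomial.sum_def]
    exact Finset.sum_congr rfl fun a _ => by simp
  rw [tp, Polynomial.sum_def, map_sum, h1, Finset.mul_sum]
  refine Finset.sum_congr rfl fun a ha => ?_
  have haR : a ≤ R := le_trans (le_natDegree_of_mem_supp a ha) hp
  have e1 : aeval τ (C (p.coeff a)) = ((p.coeff a : ℤ) : A) := by simp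
  have e0 : aeval τ (2 : ℤ[X]) = 2 := by
    rw [← one_add_one_eq_two, map_add, map_one, one_add_one_eq_two]
  have e2 : aeval τ (1 - 2 * X : ℤ[X]) = 1 - 2 * τ := by
    rw [map_sub, map_mul, e0, map_one, aeval_X]
  have e3 : aeval τ (1 - X : ℤ[X]) = 1 - τ := by simp
  rw [map_mul, map_mul, map_pow, map_pow, e1, e2, e3, ← h, mul_pow]
  obtain ⟨k, rfl⟩ := Nat.exists_eq_add_of_le haR
  rw [Nat.add_sub_cancel_left, pow_add]
  ring

theorem tp_natDegree {R : ℕ} {p : ℤ[X]} (hp : p.natDegree ≤ R) : (tp R p).natDegree ≤ R := by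
  rw [tp, Polynomial.sum_def]
  refine natDegree_sum_le_of_forall_le _ _ fun a ha => ?_
  have haR : a ≤ R := le_trans (le_natDegree_of_mem_supp a ha) hp
  have h1 : (1 - 2 * X : ℤ[X]).natDegree ≤ 1 := by
    compute_degree
  have h2 : (1 - X : ℤ[X]).natDegree ≤ 1 := by
    compute_degree
  have h3 : (C (p.coeff a) * (1 - 2 * X : ℤ[X]) ^ a).natDegree ≤ a := by
    refine le_trans (natDegree_C_mul_le _ _) ?_
    refine le_trans natDegree_pow_le ?_
    calc _ ≤ a * 1 := Nat.mul_le_mul_left _ h1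
      _ = a := mul_one a
  have h4 : ((1 - X : ℤ[X]) ^ (R - a)).natDegree ≤ R - a := by
    refine le_trans natDegree_pow_le ?_
    calc _ ≤ (R - a) * 1 := Nat.mul_le_mul_left _ h2
      _ = R - a := mul_one _
  calc _ ≤ a + (R - a) := le_trans natDegree_mul_le (Nat.add_le_add h3 h4)
    _ = R := Nat.add_sub_cancel' haR

theorem tp_coeff {R H : ℕ} {p : ℤ[X]} (hp : p.natDegree ≤ R) (hH : ∀ a, |p.coeff a| ≤ H) (d : ℕ) :
    |(tp R p).coeff d| ≤ ((R : ℤ) + 1) * H * 3 ^ R := by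
  rw [tp, Polynomial.sum_def, finsetSum_coeff]
  have h1 : ∀ a ∈ p.support,
      |(C (p.coeff a) * (1 - 2 * X) ^ a * (1 - X) ^ (R - a)).coeff d| ≤ (H : ℤ) * 3 ^ R := by
    intro a ha
    have haR : a ≤ R := le_trans (le_natDegree_of_mem_supp a ha) hp
    rw [mul_assoc, coeff_C_mul, abs_mul]
    exact mul_le_mul (hH a) (Tp_term haR d) (abs_nonneg _) (by positivity)
  have h2 : (p.support.card : ℤ) ≤ (R : ℤ) + 1 := by
    have := le_trans (card_supp_le_succ_natDegree p) (Nat.add_le_add_right hp 1)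
    exact_mod_cast this
  refine le_trans (Finset.abs_sum_le_sum_abs (fun a => (C (p.coeff a) * (1 - 2 * X) ^ a *
    (1 - X) ^ (R - a) : ℤ[X]).coeff d) p.support) (le_trans (Finset.sum_le_sum h1) ?_)
  rw [Finset.sum_const, nsmul_eq_mul]
  calc (p.support.card : ℤ) * ((H : ℤ) * 3 ^ R) ≤ ((R : ℤ) + 1) * ((H : ℤ) * 3 ^ R) :=
        mul_le_mul_of_nonneg_right h2 (by positivity)
    _ = ((R : ℤ) + 1) * H * 3 ^ R := by ring

theorem tp_ne_zero {R : ℕ} {p : ℤ[X]} (hp : p.natDegree ≤ R) (h0 : p ≠ 0) : tp R p ≠ 0 := by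
  intro ht
  apply h0
  apply eq_zero_of_infinite_isRoot
  refine Set.infinite_of_injective_forall_mem (f := fun k : ℕ => (1 : ℤ) - k) ?_ ?_
  · intro a b hab
    simpa using hab
  · intro k
    have hk : ((k : ℚ) + 1) ≠ 0 := by positivity
    have h := tp_eval (A := ℚ) hp (τ := 1 - 1 / ((k : ℚ) + 1)) (ξ := (((1 : ℤ) - k : ℤ) : ℚ)) (by
      push_cast
      field_simp
      ring)
    rw [ht, map_zero] at h
    have h1 : (1 - (1 - 1 / ((k : ℚ) + 1))) ^ R ≠ 0 := by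
      rw [sub_sub_cancel]
      positivity
    have h2 : aeval (((1 : ℤ) - k : ℤ) : ℚ) p = 0 := by
      rcases mul_eq_zero.1 h.symm with h3 | h3
      · exact absurd h3 h1
      · exact h3
    have h3 : ((p.eval ((1 : ℤ) - k) : ℤ) : ℚ) = 0 := by
      rw [← h2, aeval_def]
      have := (eval₂_at_apply (p := p) (algebraMap ℤ ℚ) ((1 : ℤ) - k)).symm
      simpa using this
    show IsRoot p ((1 : ℤ) - k)
    exact_mod_cast h3

end Pool.Agent.GMF
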