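import Pool.Agent.GMF.Tp
import Pool.Agent.GMF.Path

/-!
GMF-ZeroV: if the first M coefficients of `Phi` vanish, so do the first M derivative values `vvQ` of the
polynomials `tp R (P i b)` at τ0 = (x-1)/(x-2).

The generating series of the values `vvQ` is a constant times (1 - τ)^R times the image of `Phi` in the rational power
series, where τ = τ0 (1 - 4 X) and (1 - τ) xs = 1 - 2 τ.
-/

namespace Pool.Agent.GMF

open Finset Polynomial Pool.Agent.NLG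

private noncomputable def ZeroV_io : PowerSeries ℤ →+* PowerSeries ℚ := PowerSeries.map (Int.castRingHom ℚ)

private theorem ZeroV_io_C (a : ℤ) : ZeroV_io (PowerSeries.C a) = PowerSeries.C (a : ℚ) := by
  unfold ZeroV_io
  rw [PowerSeries.map_C]
  rfl

private theorem ZeroV_io_X : ZeroV_io PowerSeries.X = PowerSeries.X := by
  unfold ZeroV_io
  rw [PowerSeries.map_X]

private theorem ZeroV_io_coeff (f : PowerSeries ℤ) (l : ℕ) :
    PowerSeries.coeff l (ZeroV_io f) = ((PowerSeries.coeff l f : ℤ) : ℚ) := by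
  unfold ZeroV_io
  rw [PowerSeries.coeff_map]
  rfl

private theorem ZeroV_tp {A : Type*} [CommRing A] {R : ℕ} {p : ℤ[X]} (hp : p.natDegree ≤ R) {τ ξ : A}
    (h : (1 - τ) * ξ = 1 - 2 * τ) :
    eval₂ (Int.castRingHom A) τ (tp R p) = (1 - τ) ^ R * eval₂ (Int.castRingHom A) ξ p := by
  have h1 := tp_eval hp h
  rwa [aeval_def, aeval_def, algebraMap_int_eq] at h1

private theorem ZeroV_io_aeval (a : PowerSeries ℤ) (p : ℤ[X]) :
    ZeroV_io (aeval a p) = eval₂ (Int.castRingHom (PowerSeries ℚ)) (ZeroV_io a) p := by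
  rw [aeval_def, hom_eval₂]
  congr 1
  exact RingHom.ext_int _ _

/-- the coefficients of `ks (-i)` times a polynomial in `τ` -/
private theorem ZeroV_coeff (t0 : ℚ) (i : ℕ) (p : ℤ[X]) (l : ℕ) :
    PowerSeries.coeff l (ZeroV_io (ks (-(i : ℤ))) *
      eval₂ (Int.castRingHom (PowerSeries ℚ)) (PowerSeries.C t0 * (1 - PowerSeries.C 4 * PowerSeries.X)) p) =
    p.sum fun d c => (c : ℚ) * t0 ^ d * (KZ 2 (((2 : ℕ) : ℤ) * d - i) l : ℚ) := by
  rw [eval₂_eq_sum, Polynomial.sum, Polynomial.sum, Finset.mul_sum, map_sum]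
  refine Finset.sum_congr rfl fun d _ => ?_
  have h1 := congrArg ZeroV_io (ks_two_mul d (i : ℤ))
  rw [map_mul, map_pow, map_sub, map_one, map_mul, ZeroV_io_C, ZeroV_io_X] at h1
  have h2 : (Int.castRingHom (PowerSeries ℚ)) (p.coeff d) = PowerSeries.C ((p.coeff d : ℤ) : ℚ) := by
    rw [eq_intCast, map_intCast]
  have h3 : ZeroV_io (ks (-(i : ℤ))) * ((Int.castRingHom (PowerSeries ℚ)) (p.coeff d) *
      (PowerSeries.C t0 * (1 - PowerSeries.C 4 * PowerSeries.X)) ^ d) =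
      PowerSeries.C (((p.coeff d : ℤ) : ℚ) * t0 ^ d) * ZeroV_io (ks (2 * (d : ℤ) - i)) := by
    rw [h1, h2, map_mul, map_pow, mul_pow]
    push_cast
    ring
  rw [h3, PowerSeries.coeff_C_mul, ZeroV_io_coeff]
  congr 1
  unfold ks
  rw [PowerSeries.coeff_mk]
  norm_num

/-- the identity `(1 - τ) ξ = 1 - 2 τ` -/
private theorem ZeroV_path {x : ℤ} (hx : 3 ≤ x) :
    (1 - PowerSeries.C (((x - 1 : ℤ) : ℚ) / ((x - 2 : ℤ) : ℚ)) * (1 - PowerSeries.C 4 * PowerSeries.X)) *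
      ZeroV_io (xs x) =
    1 - 2 * (PowerSeries.C (((x - 1 : ℤ) : ℚ) / ((x - 2 : ℤ) : ℚ)) * (1 - PowerSeries.C 4 * PowerSeries.X)) := by
  have hx2 : (x : ℚ) - 2 ≠ 0 := by
    have h1 : (3 : ℚ) ≤ x := by exact_mod_cast hx
    intro h2
    linarith
  have h1 := congrArg ZeroV_io (xs_mul x)
  rw [map_mul ZeroV_io, map_sub ZeroV_io, map_one ZeroV_io, map_mul ZeroV_io, map_sub ZeroV_io, map_mul ZeroV_io,
    ZeroV_io_C, ZeroV_io_C, ZeroV_io_C, ZeroV_io_X] at h1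
  have e1 : (1 : PowerSeries ℚ) - PowerSeries.C (((x - 1 : ℤ) : ℚ) / ((x - 2 : ℤ) : ℚ)) *
      (1 - PowerSeries.C 4 * PowerSeries.X) =
      PowerSeries.C (-1 / ((x : ℚ) - 2)) * (1 - PowerSeries.C ((4 * (x - 1) : ℤ) : ℚ) * PowerSeries.X) := by
    have a1 : ((x - 1 : ℤ) : ℚ) / ((x - 2 : ℤ) : ℚ) = 1 - (-1 / ((x : ℚ) - 2)) := by
      push_cast
      field_simp
      ring
    have a2 : (-1 / ((x : ℚ) - 2)) * ((4 * (x - 1) : ℤ) : ℚ) = -(4 * (1 - (-1 / ((x : ℚ) - 2)))) := by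
      push_cast
      field_simp
      ring
    have a3 : PowerSeries.C (-1 / ((x : ℚ) - 2)) * PowerSeries.C ((4 * (x - 1) : ℤ) : ℚ) =
        -(PowerSeries.C (4 : ℚ) * (1 - PowerSeries.C (-1 / ((x : ℚ) - 2)))) := by
      rw [← map_mul, a2, map_neg, map_mul, map_sub, map_one]
    rw [a1, map_sub, map_one]
    linear_combination PowerSeries.X * a3
  have e2 : (1 : PowerSeries ℚ) - 2 * (PowerSeries.C (((x - 1 : ℤ) : ℚ) / ((x - 2 : ℤ) : ℚ)) *
      (1 - PowerSeries.C 4 * PowerSeries.X)) =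
      PowerSeries.C (-1 / ((x : ℚ) - 2)) *
        (PowerSeries.C ((x : ℤ) : ℚ) - PowerSeries.C ((8 * (x - 1) : ℤ) : ℚ) * PowerSeries.X) := by
    have a1 : ((x - 1 : ℤ) : ℚ) / ((x - 2 : ℤ) : ℚ) = 1 - (-1 / ((x : ℚ) - 2)) := by
      push_cast
      field_simp
      ring
    have a2 : (-1 / ((x : ℚ) - 2)) * ((8 * (x - 1) : ℤ) : ℚ) = -(8 * (1 - (-1 / ((x : ℚ) - 2)))) := by
      push_cast
      field_simp
      ring
    have a4 : (-1 / ((x : ℚ) - 2)) * ((x : ℤ) : ℚ) = 2 * (-1 / ((x : ℚ) - 2)) - 1 := by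
      field_simp
      ring
    have a3 : PowerSeries.C (-1 / ((x : ℚ) - 2)) * PowerSeries.C ((8 * (x - 1) : ℤ) : ℚ) =
        -(PowerSeries.C (8 : ℚ) * (1 - PowerSeries.C (-1 / ((x : ℚ) - 2)))) := by
      rw [← map_mul, a2, map_neg, map_mul, map_sub, map_one]
    have a5 : PowerSeries.C (-1 / ((x : ℚ) - 2)) * PowerSeries.C ((x : ℤ) : ℚ) =
        PowerSeries.C (2 : ℚ) * PowerSeries.C (-1 / ((x : ℚ) - 2)) - 1 := by
      rw [← map_mul, a4, map_sub, map_one, map_mul]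
    have a6 : PowerSeries.C (8 : ℚ) = 2 * PowerSeries.C (4 : ℚ) := by
      have : (8 : ℚ) = 2 * 4 := by norm_num
      rw [this, map_mul]
      congr 1
    have a7 : PowerSeries.C (2 : ℚ) = 2 := by
      exact map_ofNat _ 2
    rw [a6] at a3
    rw [a7] at a5
    rw [a1, map_sub, map_one]
    linear_combination PowerSeries.X * a3 - a5
  rw [e1, e2, mul_assoc, ← h1]
  ring

theorem zeroV {n B R M : ℕ} {P : ℕ → ℕ → ℤ[X]} (hR : ∀ i b, (P i b).natDegree ≤ R) {x Z : ℤ}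
    (hx : 3 ≤ x) (h : ∀ l < M, PowerSeries.coeff l (Phi n B P x Z) = 0) :
    ∀ l < M, vvQ 2 B (fun i b => tp R (P i b)) (((x - 1 : ℤ) : ℚ) / ((x - 2 : ℤ) : ℚ))
      ((x : ℚ) ^ n / ((x : ℚ) - 2)) (Z : ℚ) l = 0 := by
  intro l hl
  have hx2 : (x : ℚ) - 2 ≠ 0 := by
    have h1 : (3 : ℚ) ≤ x := by exact_mod_cast hx
    intro h2
    linarith
  set t0 : ℚ := ((x - 1 : ℤ) : ℚ) / ((x - 2 : ℤ) : ℚ) with ht0
  set w : ℚ := (x : ℚ) ^ n / ((x : ℚ) - 2) with hw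
  set τ : PowerSeries ℚ := PowerSeries.C t0 * (1 - PowerSeries.C 4 * PowerSeries.X) with hτ
  set ξ : PowerSeries ℚ := ZeroV_io (xs x) with hξ
  have hpath : (1 - τ) * ξ = 1 - 2 * τ := ZeroV_path hx
  set c : ℤ →+* PowerSeries ℚ := Int.castRingHom (PowerSeries ℚ) with hc
  set V : PowerSeries ℚ := ∑ i ∈ range 2, ∑ b ∈ range B, PowerSeries.C (w ^ b * (Z : ℚ) ^ i) *
    (ZeroV_io (ks (-(i : ℤ))) * eval₂ c τ (tp R (P i b))) with hV
  have hcoef : PowerSeries.coeff l V = vvQ 2 B (fun i b => tp R (P i b)) t0 w (Z : ℚ) l := by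
    rw [hV]
    unfold vvQ
    rw [map_sum]
    refine Finset.sum_congr rfl fun i _ => ?_
    rw [map_sum]
    refine Finset.sum_congr rfl fun b _ => ?_
    rw [PowerSeries.coeff_C_mul, hτ, hc, ZeroV_coeff]
  have hVeq : V = (1 - τ) ^ R * ∑ b ∈ range B, PowerSeries.C (w ^ b) *
      (eval₂ c ξ (P 0 b) + PowerSeries.C (Z : ℚ) * ZeroV_io (ks (-1)) * eval₂ c ξ (P 1 b)) := by
    rw [hV, Finset.sum_range_succ, Finset.sum_range_one, ← Finset.sum_add_distrib, Finset.mul_sum]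
    refine Finset.sum_congr rfl fun b _ => ?_
    have h0 : ZeroV_io (ks (-((0 : ℕ) : ℤ))) = 1 := by
      rw [Nat.cast_zero, neg_zero, ks_zero, map_one]
    have h1 : ks (-((1 : ℕ) : ℤ)) = ks (-1) := by
      rw [Nat.cast_one]
    rw [h0, h1, ZeroV_tp (hR 0 b) hpath, ZeroV_tp (hR 1 b) hpath, pow_zero, pow_one, mul_one, map_mul]
    ring
  have hPhi : PowerSeries.C (((x : ℚ) - 2) ^ (B - 1)) * ∑ b ∈ range B, PowerSeries.C (w ^ b) *
      (eval₂ c ξ (P 0 b) + PowerSeries.C (Z : ℚ) * ZeroV_io (ks (-1)) * eval₂ c ξ (P 1 b)) =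
      ZeroV_io (Phi n B P x Z) := by
    unfold Phi
    rw [map_sum, Finset.mul_sum]
    refine Finset.sum_congr rfl fun b hb => ?_
    have hbB : b ≤ B - 1 := by
      have := Finset.mem_range.1 hb
      omega
    rw [map_mul ZeroV_io, map_add ZeroV_io, map_mul ZeroV_io (zs Z), ZeroV_io_C, ZeroV_io_aeval, ZeroV_io_aeval]
    have hz : ZeroV_io (zs Z) = PowerSeries.C (Z : ℚ) * ZeroV_io (ks (-1)) := by
      unfold zs
      rw [map_mul, ZeroV_io_C]
    have hcst : ((x ^ (n * b) * (x - 2) ^ (B - 1 - b) : ℤ) : ℚ) = ((x : ℚ) - 2) ^ (B - 1) * w ^ b := by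
      rw [hw, div_pow, ← pow_mul]
      have h1 : ((x : ℚ) - 2) ^ (B - 1) = ((x : ℚ) - 2) ^ (B - 1 - b) * ((x : ℚ) - 2) ^ b := by
        rw [← pow_add]
        congr 1
        omega
      rw [h1]
      push_cast
      field_simp
    rw [hz, hcst, map_mul]
    ring
  have hdvd : (PowerSeries.X : PowerSeries ℚ) ^ M ∣ ZeroV_io (Phi n B P x Z) := by
    rw [PowerSeries.X_pow_dvd_iff]
    intro m hm
    rw [ZeroV_io_coeff, h m hm, Int.cast_zero]
  have hdvd2 : (PowerSeries.X : PowerSeries ℚ) ^ M ∣ PowerSeries.C (((x : ℚ) - 2) ^ (B - 1)) * V := by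
    have h1 : PowerSeries.C (((x : ℚ) - 2) ^ (B - 1)) * V = (1 - τ) ^ R * ZeroV_io (Phi n B P x Z) := by
      rw [hVeq, ← hPhi]
      ring
    rw [h1]
    exact Dvd.dvd.mul_left hdvd _
  have h1 := PowerSeries.X_pow_dvd_iff.1 hdvd2 l hl
  rw [PowerSeries.coeff_C_mul] at h1
  rw [← hcoef]
  exact (mul_eq_zero.1 h1).resolve_left (pow_ne_zero _ hx2)

end Pool.Agent.GMF
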